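import Pool.Agent.Work.MP_f4b644_ag.Sl.Defs

/-!
Classes with a prescribed number of pairs.

`tab_cT`: a computable greedy list gr fuel c R (take cliques of the largest size c ≤ κ with c (c - 1) ≤ 2 R); for
2 R < κ (κ - 1) the three properties are decided (`decide` or `decide +kernel`, 16 values of κ, R < 171; the bound cT is
exactly the maximum of the greedy waste); for larger R use strong induction and add one clique of size κ
(R - κ (κ - 1) / 2, the waste (κ - 1) l.sum - 2 R does not change).
`exists_cls`: take the list l of `Tab`, l.sum ≤ P by hP. Induction on the list with the offset o generalised: the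
block [o, o + x) is one class with name o and pos i = i - o, the rest comes from the tail with the offset o + x; the
invariant is that cls i = i and pos i = 0 outside [o, o + l.sum) and o ≤ cls i < o + l.sum inside. The sum of cs over
range y is y + ∑ x (x - 1).
`cs_le`: pos is injective on a class. `sum_cs_pos`: the classes of different i with pos i = p are disjoint subsets of
range y (`Finset.card_biUnion`).
-/

set_option autoImplicit false

namespace Pool.Agent.Work.MP_f4b644_ag.Sl

open Finset

/-- the greedy decomposition -/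
def Cls_gr : ℕ → ℕ → ℕ → List ℕ
  | 0, _, _ => []
  | n + 1, c, R =>
    if R = 0 then [] else if c * (c - 1) ≤ 2 * R then c :: Cls_gr n c (R - c * (c - 1) / 2)
      else Cls_gr n (c - 1) R

/-- the finite check -/
def Cls_chk (κ R : ℕ) : Bool :=
  decide (κ < 4) || decide (κ * (κ - 1) ≤ 2 * R) ||
    ((Cls_gr 50 κ R).all (fun x => decide (x ≤ κ)) &&
      decide (((Cls_gr 50 κ R).map (fun x => x * (x - 1))).sum = 2 * R) &&
      decide ((κ - 1) * (Cls_gr 50 κ R).sum ≤ 2 * R + cT κ))

theorem Cls_all :
    (List.range 20).all (fun κ => (List.range 171).all (fun R => Cls_chk κ R)) = true := by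
  decide +kernel

theorem tab_cT (κ : ℕ) (h1 : 4 ≤ κ) (h2 : κ ≤ 19) : Tab κ (cT κ) := by
  intro R
  induction R using Nat.strong_induction_on with
  | _ R ih =>
    have h3 : κ * (κ - 1) ≤ 19 * 18 := Nat.mul_le_mul h2 (by omega)
    have h4 : 4 * 3 ≤ κ * (κ - 1) := Nat.mul_le_mul h1 (by omega)
    by_cases h : κ * (κ - 1) ≤ 2 * R
    · obtain ⟨q, hq⟩ : Even (κ * (κ - 1)) := Nat.even_mul_pred_self κ
      obtain ⟨l, a1, a2, a3⟩ := ih (R - q) (by omega)
      refine ⟨κ :: l, ?_, ?_, ?_⟩
      · intro x hx
        rcases List.mem_cons.1 hx with rfl | hx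
        · exact le_rfl
        · exact a1 x hx
      · rw [List.map_cons, List.sum_cons, a2]
        omega
      · rw [List.sum_cons, mul_add, mul_comm (κ - 1) κ]
        omega
    · have h5 := List.all_eq_true.1 (List.all_eq_true.1 Cls_all κ (List.mem_range.2 (by omega))) R
        (List.mem_range.2 (by omega))
      simp only [Cls_chk, Bool.or_eq_true, Bool.and_eq_true, decide_eq_true_eq,
        List.all_eq_true] at h5
      rcases h5 with (h5 | h5) | ⟨⟨a1, a2⟩, a3⟩
      · omega
      · exact absurd h5 h
      · exact ⟨_, a1, a2, a3⟩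

theorem Cls_list {κ : ℕ} (hκ : 0 < κ) (l : List ℕ) (hl : ∀ x ∈ l, x ≤ κ) (o : ℕ) :
    ∃ cls pos : ℕ → ℕ, (∀ i j, cls i = cls j → pos i = pos j → i = j) ∧ (∀ i, pos i < κ) ∧
      (∀ i, i < o ∨ o + l.sum ≤ i → cls i = i) ∧
      (∀ i, o ≤ i → i < o + l.sum → o ≤ cls i ∧ cls i < o + l.sum) ∧
      ∀ y, o + l.sum ≤ y →
        ∑ i ∈ range y, cs cls y i = y + (l.map (fun x => x * (x - 1))).sum := by
  induction l generalizing o with
  | nil =>
    refine ⟨id, fun _ => 0, fun i j h _ => h, fun _ => hκ, fun _ _ => rfl,
      fun i h1 h2 => ⟨h1, h2⟩, fun y _ => ?_⟩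
    rw [sum_congr rfl (g := fun _ => 1) fun i hi => ?_]
    · simp
    · simp only [cs, id]
      rw [filter_eq' (range y) i, if_pos hi, card_singleton]
  | cons x l ih =>
    obtain ⟨c, p, a1, a2, a3, a4, a5⟩ := ih (fun z hz => hl z (List.mem_cons_of_mem _ hz)) (o + x)
    have hx : x ≤ κ := hl x List.mem_cons_self
    have b1 : ∀ i, ¬ (o ≤ i ∧ i < o + x) → ¬ (o ≤ c i ∧ c i < o + x) := by
      intro i hi
      by_cases h : i < o + x ∨ o + x + l.sum ≤ i
      · rw [a3 i h]
        exact hi
      · have := a4 i (by omega) (by omega)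
        omega
    rw [List.sum_cons, List.map_cons, List.sum_cons]
    refine ⟨fun i => if o ≤ i ∧ i < o + x then o else c i,
      fun i => if o ≤ i ∧ i < o + x then i - o else p i, fun i j => ?_, fun i => ?_, fun i hi => ?_,
      fun i h1 h2 => ?_, fun y hy => ?_⟩
    · dsimp only
      have k1 := b1 i
      have k2 := b1 j
      split_ifs with h1 h2 h2
      · omega
      · omega
      · omega
      · exact a1 i j
    · dsimp only
      split_ifs with h1
      · omega
      · exact a2 i
    · dsimp only
      rw [if_neg (by omega)]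
      exact a3 i (by omega)
    · dsimp only
      split_ifs with h
      · omega
      · have := a4 i (by omega) (by omega)
        omega
    · have e : ∀ i ∈ range y, cs (fun i => if o ≤ i ∧ i < o + x then o else c i) y i =
          cs c y i + if i ∈ Ico o (o + x) then x - 1 else 0 := by
        intro i hi
        simp only [cs, mem_Ico]
        split_ifs with h
        · have e1 : (range y).filter (fun j => (if o ≤ j ∧ j < o + x then o else c j) = o) =
              Ico o (o + x) := by
            ext j
            have := b1 j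
            simp only [mem_filter, mem_range, mem_Ico]
            split_ifs with h' <;> omega
          have e2 : (range y).filter (fun j => c j = c i) = {i} := by
            ext j
            have k1 := b1 j
            have k2 := a3 j
            have k3 := a3 i
            simp only [mem_filter, mem_range, mem_singleton]
            constructor
            · omega
            · rintro rfl
              exact ⟨mem_range.1 hi, rfl⟩
          rw [e1, e2, Nat.card_Ico, card_singleton]
          omega
        · rw [add_zero]
          refine congrArg card (filter_congr fun j _ => ?_)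
          have k1 := b1 i h
          have k2 := a3 j
          split_ifs with h'
          · omega
          · rfl
      rw [sum_congr rfl e, sum_add_distrib, a5 y (by omega), sum_ite_mem,
        inter_eq_right.2 (fun j hj => mem_range.2 (by have := mem_Ico.1 hj; omega)), sum_const,
        Nat.card_Ico, smul_eq_mul, Nat.add_sub_cancel_left]
      omega

theorem exists_cls {κ c : ℕ} (hT : Tab κ c) (hκ : 2 ≤ κ) (o P R : ℕ) (hP : 2 * R + c < (κ - 1) * (P + 1)) :
    ∃ cls pos : ℕ → ℕ, (∀ i j, cls i = cls j → pos i = pos j → i = j) ∧ (∀ i, pos i < κ) ∧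
      (∀ i j, i < o → cls j = cls i → j = i) ∧
      ∀ y, o + P ≤ y → ∑ i ∈ range y, cs cls y i = y + 2 * R := by
  obtain ⟨l, a1, a2, a3⟩ := hT R
  have h1 : l.sum < P + 1 := Nat.lt_of_mul_lt_mul_left (a3.trans_lt hP)
  obtain ⟨cls, pos, b1, b2, b3, b4, b5⟩ := Cls_list (by omega : 0 < κ) l a1 o
  refine ⟨cls, pos, b1, b2, fun i j hi h => ?_, fun y hy => ?_⟩
  · have k1 := b3 i (Or.inl hi)
    have k2 := b3 j
    have k3 := b4 j
    omega
  · rw [b5 y (by omega), a2]

theorem cs_le (cls pos : ℕ → ℕ) (κ : ℕ) (h1 : ∀ i j, cls i = cls j → pos i = pos j → i = j)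
    (h2 : ∀ i, pos i < κ) (y i : ℕ) : cs cls y i ≤ κ := by
  refine (card_le_card_of_injOn (t := range κ) pos (fun j _ => mem_range.2 (h2 j)) ?_).trans
    (card_range κ).le
  intro a ha b hb h
  exact h1 a b ((mem_filter.1 ha).2.trans (mem_filter.1 hb).2.symm) h

theorem sum_cs_pos (cls pos : ℕ → ℕ) (h1 : ∀ i j, cls i = cls j → pos i = pos j → i = j) (y p : ℕ) :
    ∑ i ∈ (range y).filter (fun i => pos i = p), cs cls y i ≤ y := by
  simp only [cs]
  rw [← card_biUnion]
  · refine (card_le_card ?_).trans (card_range y).le
    exact biUnion_subset.2 fun i _ => filter_subset _ _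
  · intro a ha b hb hab
    refine disjoint_left.2 fun j h2 h3 => hab ?_
    exact h1 a b ((mem_filter.1 h2).2.symm.trans (mem_filter.1 h3).2)
      ((mem_filter.1 ha).2.trans (mem_filter.1 hb).2.symm)

end Pool.Agent.Work.MP_f4b644_ag.Sl
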