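import Pool.Agent.Work.MP_f4b644_ag.Sl.Defs

/-!
The cover condition from a counting inequality; model: `coverA` in CoverA.lean. Put n = R - y k, μ = L + 1 in ZMod N.
The elements k + l (0 ≤ l ≤ 2 L + 1) are distinct because 2 L + 2 ≤ N; use d v = (v.1 - k).val.

Rows of the fixed vertices: al v = n + v.2 if v.1 = k; ρ l v.2 if v.1 = k + l, 1 ≤ l ≤ L; otherwise, if v.2 = 1 and
ε v.1 and v.1 + μ = k + l with l ≤ L, then n + 2 for l = 0 and ρ l 2 for l ≥ 1; otherwise dr v.1.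
So al (rhoB (k, i)) = n + i and al (rhoB (k + l, i)) = ρ l i for 1 ≤ l ≤ L.
Free singles Sg: the points q (q.2 < y q.1) with q.1 ≠ k + l for all l ≤ L, ¬ (q.2 = 1 ∧ ε q.1),
¬ (q.2 = 2 ∧ ε (q.1 - μ)), ¬ (q = (k - μ, 0) ∧ ε (k - μ)); they are distributed by `exists_pack`, row v = f v on Sg.
Fixed singles NF: the points outside Sg and outside the group k, except (k + μ, 2) when ε k (its row is full).
The vertex of q ∈ NF is nu q = (k - μ, 0) if q = (k - μ, 1) and ε (k - μ), and rhoB q otherwise; al (nu q) < n.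
Columns of the row r < n: Gs y k, PB r = the (k + l, j) with Sep l i j for some i < y (k + l) with ρ l i = r (the sets
for different (l, i) are disjoint by hinj: j agrees with i and with i' below the level l), SB r = the q ∈ NF with
al (nu q) = r (disjoint from PB r by hinj, since Sep l i j forces i ≠ j), XB r = (k + 1 + μ, 2) if ε (k + 1) and
r = ρ 1 0 (its single lies in the row ρ 1 1 ≠ ρ 1 0, hinj at l = 1), and the free singles with f q = r.
Sums over r < n: ∑ card PB = ∑∑ tk, ∑ card SB = card NF, ∑ card XB = [ε (k + 1)],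
∑ y ≤ card Sg + card NF + y k + [ε k].
Bound for one row: SB r is contained in the union of the (k + l, i) with ρ l i = r, the (k + l + μ, 2) with
ρ l 1 = r, the (k + l - μ, 1) with ρ l 2 = r, and for dr g = r the points (g, 1) and (g + μ, 2) (for g = k - μ the
points (g, 1) and (g, 0)); XB r accounts for i = 0, l = 1. Hence y k + card PB + card SB + card XB ≤ C by hload.
-/

set_option autoImplicit false

namespace Pool.Agent.Work.MP_f4b644_ag.Sl

open Finset Classical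

theorem Cover_abs {P : Type} {R C n : ℕ} (h0 : 0 < R) (Rv : Set P) (G Sg : Finset P)
    (E : P → P → Prop) (B : ℕ → Finset P) (al : P → ℕ)
    (h1 : ∀ r < R, n ≤ r → ∃ v ∈ Rv, v ∉ Sg ∧ al v = r)
    (h2 : ∀ r, ∀ q ∈ B r, q ∉ G ∧ q ∉ Sg ∧ ∃ v, E v q ∧ v ∉ Sg ∧ al v = r)
    (h3 : ∀ q ∈ Sg, q ∉ G ∧ E q q) (h4 : ∀ r, G.card + (B r).card ≤ C)
    (h5 : n * (C - G.card) ≤ ∑ r ∈ range n, (B r).card + Sg.card) :
    Cover (α := Fin R) C Rv (G : Set P) E := by
  have sB : ∑ r ∈ range n, (C - G.card - (B r).card) + ∑ r ∈ range n, (B r).card =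
      n * (C - G.card) := by
    rw [← sum_add_distrib, sum_congr rfl fun r _ => Nat.sub_add_cancel (Nat.le_sub_of_add_le' (h4 r))]
    simp
  obtain ⟨f, hf⟩ := exists_pack n (fun r => C - G.card - (B r).card) Sg (by omega)
  refine cover_of_nat h0 _ _ _ (fun v => if v ∈ Sg then f v else al v) fun r hr => ?_
  rcases le_or_gt n r with hn | hn
  · obtain ⟨v, hv, e, e'⟩ := h1 r hr hn
    exact Or.inl ⟨v, hv, (if_neg e).trans e'⟩
  refine Or.inr ⟨G ∪ B r ∪ Sg.filter (fun p => f p = r), ?_, fun q hq => ?_⟩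
  · rw [card_union_of_disjoint, card_union_of_disjoint]
    · have := hf r hn
      have := h4 r
      omega
    · exact disjoint_right.2 fun q hq => (h2 r q hq).1
    · refine disjoint_left.2 fun q hq hq' => (mem_union.1 hq).elim ?_ fun h => ?_
      · exact (h3 q (mem_filter.1 hq').1).1
      · exact (h2 r q h).2.1 (mem_filter.1 hq').1
  · rcases mem_union.1 hq with hq | hq
    · refine (mem_union.1 hq).imp id fun h => ?_
      obtain ⟨v, e, e', e''⟩ := (h2 r q h).2.2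
      exact ⟨v, e, (if_neg e').trans e''⟩
    · obtain ⟨a1, a2⟩ := mem_filter.1 hq
      exact Or.inr ⟨q, (h3 q a1).2, (if_pos a1).trans a2⟩

section
variable {N : ℕ} [NeZero N] {L : ℕ} (k : ZMod N)

/-- the distance from the slice `k` -/
def Cover_d (g : ZMod N) : ℕ := (g - k).val

omit [NeZero N] in
theorem Cover_d1 {l : ℕ} (h : l < N) : Cover_d k (k + l) = l := by
  rw [Cover_d, add_sub_cancel_left, ZMod.val_cast_of_lt h]

theorem Cover_d2 (g : ZMod N) : k + (Cover_d k g : ℕ) = g := by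
  rw [Cover_d, ZMod.natCast_zmod_val, add_sub_cancel]

omit [NeZero N] in
theorem Cover_d0 {g : ZMod N} : Cover_d k g = 0 ↔ g = k := by
  rw [Cover_d, ZMod.val_eq_zero, sub_eq_zero]

theorem Cover_d3 (hN : 2 * L + 2 ≤ N) {g : ZMod N} (h : Cover_d k g ≤ L) :
    Cover_d k (g + ((L + 1 : ℕ) : ZMod N)) = Cover_d k g + (L + 1) := by
  rw [← Cover_d1 k (l := Cover_d k g + (L + 1)) (by omega), Nat.cast_add (Cover_d k g), ← add_assoc,
    Cover_d2]

theorem Cover_d4 (hN : 2 * L + 2 ≤ N) {g : ZMod N} (h : Cover_d k g ≤ L) :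
    L < Cover_d k (g - ((L + 1 : ℕ) : ZMod N)) := by
  by_contra hc
  have := Cover_d3 k hN (not_lt.1 hc)
  rw [sub_add_cancel] at this
  omega

variable (L) (ε : ZMod N → Prop) (n : ℕ) (ρ : ℕ → ℕ → ℕ) (dr : ZMod N → ℕ)

/-- the rows of the points of the groups `k + l` -/
def Cover_bs (g : ZMod N) (i : ℕ) : ℕ := if Cover_d k g = 0 then n + i else ρ (Cover_d k g) i

/-- the rows of the fixed vertices -/
noncomputable def Cover_al (v : ZMod N × ℕ) : ℕ :=
  if Cover_d k v.1 ≤ L then Cover_bs k n ρ v.1 v.2 else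
    if v.2 = 1 ∧ ε v.1 ∧ Cover_d k (v.1 + ((L + 1 : ℕ) : ZMod N)) ≤ L then
      Cover_bs k n ρ (v.1 + ((L + 1 : ℕ) : ZMod N)) 2 else dr v.1

/-- the vertex of a fixed single -/
noncomputable def Cover_nu (q : ZMod N × ℕ) : ZMod N × ℕ :=
  if q = (k - ((L + 1 : ℕ) : ZMod N), 1) ∧ ε (k - ((L + 1 : ℕ) : ZMod N)) then
    (k - ((L + 1 : ℕ) : ZMod N), 0) else rhoB ((L + 1 : ℕ) : ZMod N) ε q

/-- the condition on free singles -/
def Cover_fr (q : ZMod N × ℕ) : Prop :=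
  L < Cover_d k q.1 ∧ ¬ (q.2 = 1 ∧ ε q.1) ∧ ¬ (q.2 = 2 ∧ ε (q.1 - ((L + 1 : ℕ) : ZMod N))) ∧
    ¬ (q = (k - ((L + 1 : ℕ) : ZMod N), 0) ∧ ε (k - ((L + 1 : ℕ) : ZMod N)))

variable {L}

omit [NeZero N] in
theorem Cover_rho_fr {q : ZMod N × ℕ} (h : Cover_fr L k ε (rhoB ((L + 1 : ℕ) : ZMod N) ε q)) :
    rhoB ((L + 1 : ℕ) : ZMod N) ε q = q := by
  unfold rhoB at h ⊢
  split_ifs at h ⊢ with e
  · exact (h.2.1 ⟨rfl, e.2⟩).elim
  · rfl

omit [NeZero N] in
theorem Cover_nu_fr {q : ZMod N × ℕ} (h : Cover_fr L k ε (Cover_nu L k ε q)) :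
    Cover_nu L k ε q = q := by
  unfold Cover_nu at h ⊢
  split_ifs at h ⊢ with e
  · exact (h.2.2.2 ⟨rfl, e.2⟩).elim
  · exact Cover_rho_fr k ε h

theorem Cover_al_rho (hN : 2 * L + 2 ≤ N) {g : ZMod N} (h : Cover_d k g ≤ L) (i : ℕ) :
    Cover_al L k ε n ρ dr (rhoB ((L + 1 : ℕ) : ZMod N) ε (g, i)) = Cover_bs k n ρ g i := by
  unfold rhoB
  split_ifs with e
  · obtain ⟨rfl, e⟩ := e
    rw [Cover_al, if_neg (Cover_d4 k hN h).not_ge, if_pos ⟨rfl, e, by rwa [sub_add_cancel]⟩,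
      sub_add_cancel]
  · exact if_pos h

theorem Cover_al_nu (hN : 2 * L + 2 ≤ N) {g : ZMod N} (h : Cover_d k g ≤ L) (i : ℕ) :
    Cover_al L k ε n ρ dr (Cover_nu L k ε (g, i)) = Cover_bs k n ρ g i := by
  rw [Cover_nu, if_neg, Cover_al_rho k ε n ρ dr hN h]
  rintro ⟨e, -⟩
  have := Cover_d4 k hN (g := k) (((Cover_d0 k).2 rfl).trans_le (Nat.zero_le _))
  rw [← (Prod.mk.inj e).1] at this
  omega

/-- the rows of the fixed singles -/
theorem Cover_cases (hN : 2 * L + 2 ≤ N) {q : ZMod N × ℕ} (h1 : ¬ Cover_fr L k ε q) (h2 : q.1 ≠ k)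
    (h3 : ¬ (q = (k + ((L + 1 : ℕ) : ZMod N), 2) ∧ ε k)) :
    (∃ l i, 1 ≤ l ∧ l ≤ L ∧ Cover_al L k ε n ρ dr (Cover_nu L k ε q) = ρ l i ∧
      (q = (k + l, i) ∨ (i = 1 ∧ q = (k + l + ((L + 1 : ℕ) : ZMod N), 2)) ∨
        (i = 2 ∧ q = (k + l - ((L + 1 : ℕ) : ZMod N), 1)))) ∨
    ∃ g, Cover_al L k ε n ρ dr (Cover_nu L k ε q) = dr g ∧ (q = (g, 1) ∨
      q = if g = k - ((L + 1 : ℕ) : ZMod N) then (g, 0) else (g + ((L + 1 : ℕ) : ZMod N), 2)) := by
  obtain ⟨g, i⟩ := q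
  have e0 := (Cover_d0 k).not.2 h2
  by_cases a : Cover_d k g ≤ L
  · exact Or.inl ⟨_, i, Nat.pos_of_ne_zero e0, a, by
      rw [Cover_al_nu k ε n ρ dr hN a, Cover_bs, if_neg e0], Or.inl (by rw [Cover_d2])⟩
  by_cases b : i = 1 ∧ ε g
  · obtain ⟨rfl, b⟩ := b
    by_cases c : g = k - ((L + 1 : ℕ) : ZMod N)
    · refine Or.inr ⟨g, ?_, Or.inl rfl⟩
      rw [Cover_nu, if_pos ⟨by rw [c], c ▸ b⟩, ← c, Cover_al, if_neg a, if_neg (by simp)]
    rw [Cover_nu, if_neg fun e => c (Prod.mk.inj e.1).1, rhoB, if_neg (by simp), Cover_al, if_neg a]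
    by_cases e : Cover_d k (g + ((L + 1 : ℕ) : ZMod N)) ≤ L
    · have e1 := (Cover_d0 k).not.2 fun e => c (eq_sub_of_add_eq e)
      exact Or.inl ⟨_, 2, Nat.pos_of_ne_zero e1, e, by
        rw [if_pos ⟨rfl, b, e⟩, Cover_bs, if_neg e1],
        Or.inr (Or.inr ⟨rfl, by rw [Cover_d2, add_sub_cancel_right]⟩)⟩
    · exact Or.inr ⟨g, if_neg fun c => e c.2.2, Or.inl rfl⟩
  by_cases c : i = 2 ∧ ε (g - ((L + 1 : ℕ) : ZMod N))
  · obtain ⟨rfl, c⟩ := c
    rw [Cover_nu, if_neg (by simp), rhoB, if_pos ⟨rfl, c⟩, Cover_al]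
    by_cases e : Cover_d k (g - ((L + 1 : ℕ) : ZMod N)) ≤ L
    · have e1 := (Cover_d0 k).not.2 fun e : g - ((L + 1 : ℕ) : ZMod N) = k =>
        h3 ⟨by rw [← e, sub_add_cancel], e ▸ c⟩
      exact Or.inl ⟨_, 1, Nat.pos_of_ne_zero e1, e, by rw [if_pos e, Cover_bs, if_neg e1],
        Or.inr (Or.inl ⟨rfl, by rw [Cover_d2, sub_add_cancel]⟩)⟩
    · refine Or.inr ⟨_, by rw [if_neg e, if_neg fun c => a (by simpa using c.2.2)], Or.inr ?_⟩
      rw [if_neg fun e => h2 (sub_left_injective e), sub_add_cancel]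
  · have e : (g, i) = (k - ((L + 1 : ℕ) : ZMod N), 0) := by
      by_contra e
      exact h1 ⟨not_le.1 a, b, c, fun h => e h.1⟩
    obtain ⟨e1, rfl⟩ := Prod.mk.inj e
    refine Or.inr ⟨g, ?_, Or.inr (if_pos e1).symm⟩
    rw [Cover_nu, if_neg (by simp), rhoB, if_neg (by simp), Cover_al, if_neg a, if_neg (by simp)]

end

theorem coverB {N : ℕ} [NeZero N] {R C : ℕ} (L : ℕ) (hL : 1 ≤ L) (hN : 2 * L + 2 ≤ N) (y : ZMod N → ℕ)
    (cl : ZMod N → ℕ → ℕ → ℕ) (ε : ZMod N → Prop) (k : ZMod N) (hy : ∀ k, 3 ≤ y k)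
    (ρ : ℕ → ℕ → ℕ) (dr : ZMod N → ℕ)
    (hρ : ∀ l i : ℕ, 1 ≤ l → l ≤ L → i < y (k + l) → ρ l i + y k < R)
    (hdr : ∀ j, dr j + y k < R)
    (hinj : ∀ l i i' : ℕ, 1 ≤ l → l ≤ L → i < y (k + l) → i' < y (k + l) → i ≠ i' → ρ l i = ρ l i' →
      ∃ l', 1 ≤ l' ∧ l' < l ∧ cl (k + l) l' i ≠ cl (k + l) l' i')
    (hload : ∀ row : ℕ, y k + ∑ l ∈ Icc 1 L, ∑ i ∈ (range (y (k + l))).filter (fun i => ρ l i = row),
      (tk (cl (k + l)) (y (k + l)) l i + 1 + if i < 3 then 1 else 0) +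
        2 * (univ.filter (fun j => dr j = row)).card ≤ C)
    (htot : (R - y k) * (C - y k) + (if ε k then 1 else 0) + y k ≤
      ∑ l ∈ Icc 1 L, ∑ i ∈ range (y (k + l)), tk (cl (k + l)) (y (k + l)) l i +
        (if ε (k + 1) then 1 else 0) + ∑ j, y j) :
    Cover (α := Fin R) C (rhoB ((L + 1 : ℕ) : ZMod N) ε '' (Gs y k : Set _)) (Gs y k : Set _)
      (EB L ((L + 1 : ℕ) : ZMod N) y cl ε k) := by
  set μ : ZMod N := ((L + 1 : ℕ) : ZMod N) with hμ
  set n := R - y k with hn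
  have dl : ∀ l, l ≤ L → Cover_d k (k + l) = l := fun l h => Cover_d1 k (by omega)
  have d1 : Cover_d k (k + 1) = 1 := by simpa using dl 1 hL
  have d2 : Cover_d k (k + 1 + μ) = 1 + (L + 1) := by rw [Cover_d3 k hN (d1.trans_le hL), d1]
  have dk : Cover_d k k = 0 := (Cover_d0 k).2 rfl
  have bl : ∀ l i, 1 ≤ l → l ≤ L → Cover_bs k n ρ (k + l) i = ρ l i := fun l i h h' => by
    rw [Cover_bs, dl l h', if_neg (by omega)]
  let al := Cover_al L k ε n ρ dr
  let nu := Cover_nu L k ε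
  let Sg := (Pts y).filter (Cover_fr L k ε)
  let NF := (Pts y).filter fun q => ¬ Cover_fr L k ε q ∧ q.1 ≠ k ∧ ¬ (q = (k + μ, 2) ∧ ε k)
  let Ix : Finset (Σ _ : ℕ, ℕ) := (Icc 1 L).sigma fun l => range (y (k + l))
  let pb : (Σ _ : ℕ, ℕ) → Finset (ZMod N × ℕ) := fun x =>
    {k + x.1} ×ˢ (range (y (k + x.1))).filter fun j => Sep (cl (k + x.1)) x.1 x.2 j
  let PB : ℕ → Finset (ZMod N × ℕ) := fun r => (Ix.filter fun x => ρ x.1 x.2 = r).biUnion pb
  let SB : ℕ → Finset (ZMod N × ℕ) := fun r => NF.filter fun q => al (nu q) = r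
  let XB : ℕ → Finset (ZMod N × ℕ) := fun r =>
    if ρ 1 0 = r ∧ ε (k + 1) then {(k + 1 + μ, 2)} else ∅
  have mI : ∀ x, x ∈ Ix ↔ (1 ≤ x.1 ∧ x.1 ≤ L) ∧ x.2 < y (k + x.1) := fun x => by
    simp only [Ix, mem_sigma, mem_Icc, mem_range]
  have mp : ∀ x q, q ∈ pb x ↔ q.1 = k + x.1 ∧ q.2 < y (k + x.1) ∧
      Sep (cl (k + x.1)) x.1 x.2 q.2 := fun x q => by
    simp only [pb, mem_product, mem_singleton, mem_filter, mem_range]
  have cp : ∀ x, (pb x).card = tk (cl (k + x.1)) (y (k + x.1)) x.1 x.2 := fun x => by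
    simp only [pb, card_product, card_singleton, one_mul, tk]
  have mP : ∀ r q, q ∈ PB r → ∃ l i : ℕ, 1 ≤ l ∧ l ≤ L ∧ i < y (k + l) ∧ ρ l i = r ∧ q.1 = k + l ∧
      q.2 < y (k + l) ∧ Sep (cl (k + l)) l i q.2 := fun r q hq => by
    obtain ⟨x, hx, h⟩ := mem_biUnion.1 hq
    obtain ⟨hx, e⟩ := mem_filter.1 hx
    exact ⟨x.1, x.2, ((mI x).1 hx).1.1, ((mI x).1 hx).1.2, ((mI x).1 hx).2, e, (mp x q).1 h⟩
  have mN : ∀ q, q ∈ NF ↔ q.2 < y q.1 ∧ ¬ Cover_fr L k ε q ∧ q.1 ≠ k ∧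
      ¬ (q = (k + μ, 2) ∧ ε k) := fun q => by rw [mem_filter, mem_Pts]
  have mX : ∀ r q, q ∈ XB r → (ρ 1 0 = r ∧ ε (k + 1)) ∧ q = (k + 1 + μ, 2) := fun r q hq => by
    simp only [XB] at hq
    split_ifs at hq with h
    exacts [⟨h, mem_singleton.1 hq⟩, absurd hq (notMem_empty _)]
  have nS : ∀ q : ZMod N × ℕ, Cover_d k q.1 ≤ L → q ∉ Sg := fun q h hq =>
    h.not_gt (mem_filter.1 hq).2.1
  have rS : ∀ q : ZMod N × ℕ, Cover_d k q.1 ≤ L → rhoB μ ε q ∉ Sg := fun q h hq =>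
    nS q h (Cover_rho_fr k ε (mem_filter.1 hq).2 ▸ hq)
  have cB : ∀ r, (PB r ∪ SB r ∪ XB r).card = ∑ x ∈ Ix.filter fun x => ρ x.1 x.2 = r,
      tk (cl (k + x.1)) (y (k + x.1)) x.1 x.2 + (SB r).card + (XB r).card := fun r => by
    rw [card_union_of_disjoint, card_union_of_disjoint, card_biUnion, sum_congr rfl fun x _ => cp x]
    · rintro ⟨l, i⟩ hx ⟨l', i'⟩ hx' hne
      obtain ⟨hx, e⟩ := mem_filter.1 hx
      obtain ⟨hx', e'⟩ := mem_filter.1 hx'
      rw [mI] at hx hx'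
      refine disjoint_left.2 fun q hq hq' => ?_
      rw [mp] at hq hq'
      obtain rfl : l = l' := by rw [← dl l hx.1.2, ← dl l' hx'.1.2, ← hq.1, ← hq'.1]
      obtain ⟨m, h1, h2, h3⟩ := hinj l i i' hx.1.1 hx.1.2 hx.2 hx'.2 (fun c => hne (by rw [c]))
        (e.trans e'.symm)
      exact h3 ((hq.2.2.1 m h1 h2).trans (hq'.2.2.1 m h1 h2).symm)
    · refine disjoint_left.2 fun q hq hq' => ?_
      obtain ⟨g, j⟩ := q
      obtain ⟨l, i, a1, a2, a3, a4, rfl, a6, a7⟩ := mP r _ hq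
      have e := (mem_filter.1 hq').2
      rw [show al (nu _) = _ from Cover_al_nu k ε n ρ dr hN ((dl l a2).trans_le a2) j,
        bl l j a1 a2] at e
      obtain ⟨m, h1, h2, h3⟩ := hinj l i j a1 a2 a3 a6 (fun c => a7.2 (by rw [c])) (a4.trans e.symm)
      exact h3 (a7.1 m h1 h2)
    · refine disjoint_left.2 fun q hq hq' => ?_
      obtain ⟨⟨a1, a2⟩, rfl⟩ := mX r q hq'
      rcases mem_union.1 hq with hq | hq
      · obtain ⟨l, i, -, b2, -, -, b5, -⟩ := mP r _ hq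
        have := dl l b2
        rw [← b5, d2] at this
        omega
      · have e := (mem_filter.1 hq).2
        have e' : nu (k + 1 + μ, 2) = (k + 1, 1) := by
          simp only [nu, Cover_nu]
          rw [if_neg (by simp), rhoB, if_pos ⟨rfl, by rwa [add_sub_cancel_right]⟩,
            add_sub_cancel_right]
        have e'' : al (k + 1, 1) = ρ 1 1 :=
          (if_pos (d1.trans_le hL)).trans (by simpa using bl 1 1 le_rfl hL)
        have := hy (k + (1 : ℕ))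
        obtain ⟨m, h1, h2, -⟩ := hinj 1 0 1 le_rfl hL (by omega) (by omega) zero_ne_one
          (by rw [a1, ← e, e', e''])
        omega
  refine Cover_abs (n := n) (by have := hdr k; omega) _ _ Sg _ (fun r => PB r ∪ SB r ∪ XB r) al
    (fun r hr h => ?_) (fun r q hq => ?_) (fun q hq => ?_) (fun r => ?_) ?_
  · refine ⟨rhoB μ ε (k, r - n), ⟨_, mem_coe.2 (mem_Gs.2 ⟨rfl, by dsimp only; omega⟩), rfl⟩,
      rS _ (dk.trans_le (Nat.zero_le _)), ?_⟩
    rw [show al _ = _ from Cover_al_rho k ε n ρ dr hN (dk.trans_le (Nat.zero_le _)) _, Cover_bs,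
      if_pos dk]
    omega
  · rcases mem_union.1 hq with hq | hq
    · rcases mem_union.1 hq with hq | hq
      · obtain ⟨g, j⟩ := q
        obtain ⟨l, i, a1, a2, a3, a4, rfl, a6, a7⟩ := mP r _ hq
        have e := (dl l a2).trans_le a2
        refine ⟨fun h => ?_, nS _ e, rhoB μ ε (k + l, i), ⟨a6, Or.inr (Or.inl
          ⟨l, i, a1, a2, rfl, a3, rfl, a7⟩)⟩, rS _ e, ?_⟩
        · have := dl l a2
          rw [show k + l = k from (mem_Gs.1 h).1, dk] at this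
          omega
        · rw [show al _ = _ from Cover_al_rho k ε n ρ dr hN e _, bl l i a1 a2, a4]
      · obtain ⟨hq, e⟩ := mem_filter.1 hq
        obtain ⟨a1, a2, a3, -⟩ := (mN q).1 hq
        refine ⟨fun h => a3 (mem_Gs.1 h).1, fun h => a2 (mem_filter.1 h).2, nu q, ⟨a1, ?_⟩,
          fun h => a2 (Cover_nu_fr k ε (mem_filter.1 h).2 ▸ (mem_filter.1 h).2), e⟩
        simp only [nu, Cover_nu]
        split_ifs with h
        exacts [Or.inr (Or.inr (Or.inr ⟨h.2, rfl, h.1⟩)), Or.inl rfl]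
    · obtain ⟨⟨a1, a2⟩, rfl⟩ := mX r q hq
      refine ⟨fun h => ?_, fun h => (mem_filter.1 h).2.2.2.1 ⟨rfl, by rwa [add_sub_cancel_right]⟩,
        (k + 1, 0), ⟨hy _, Or.inr (Or.inr (Or.inl ⟨a2, rfl, rfl⟩))⟩, nS _ (d1.trans_le hL),
        (if_pos (d1.trans_le hL)).trans (by simpa [a1] using bl 1 0 le_rfl hL)⟩
      rw [show k + 1 + μ = k from (mem_Gs.1 h).1, dk] at d2
      omega
  · obtain ⟨a1, a2⟩ := mem_filter.1 hq
    refine ⟨fun h => nS q (by rw [(mem_Gs.1 h).1, dk]; omega) hq, mem_Pts.1 a1, Or.inl ?_⟩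
    rw [rhoB, if_neg a2.2.2.1]
  · let u : (Σ _ : ℕ, ℕ) → Finset (ZMod N × ℕ) := fun x => pb x ∪ {(k + x.1, x.2)} ∪
      if x.2 < 3 then {if x.2 = 2 then (k + x.1 - μ, 1) else (k + x.1 + μ, 2)} else ∅
    let w : ZMod N → Finset (ZMod N × ℕ) := fun g =>
      {(g, 1), if g = k - μ then (g, 0) else (g + μ, 2)}
    have hs : PB r ∪ SB r ∪ XB r ⊆ (Ix.filter fun x => ρ x.1 x.2 = r).biUnion u ∪
        (univ.filter fun j => dr j = r).biUnion w := fun q hq => by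
      have key : ∀ l i : ℕ, 1 ≤ l → l ≤ L → i < y (k + l) → ρ l i = r → q ∈ u ⟨l, i⟩ → q ∈
          (Ix.filter fun x => ρ x.1 x.2 = r).biUnion u ∪ (univ.filter fun j => dr j = r).biUnion w :=
        fun l i a1 a2 a3 a4 a5 => mem_union_left _ (mem_biUnion.2
          ⟨⟨l, i⟩, mem_filter.2 ⟨(mI _).2 ⟨⟨a1, a2⟩, a3⟩, a4⟩, a5⟩)
      rcases mem_union.1 hq with hq | hq
      · rcases mem_union.1 hq with hq | hq
        · obtain ⟨l, i, a1, a2, a3, a4, a5⟩ := mP r _ hq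
          exact key l i a1 a2 a3 a4 (mem_union_left _ (mem_union_left _ ((mp _ _).2 a5)))
        · obtain ⟨hq, e⟩ := mem_filter.1 hq
          obtain ⟨a1, a2, a3, a4⟩ := (mN q).1 hq
          rcases Cover_cases k ε n ρ dr hN a2 a3 a4 with ⟨l, i, b1, b2, b3, b4⟩ | ⟨g, b1, b2⟩
          · have := hy (k + l)
            rcases b4 with rfl | ⟨rfl, rfl⟩ | ⟨rfl, rfl⟩
            · exact key l i b1 b2 a1 (b3.symm.trans e) (by simp [u])
            · exact key l 1 b1 b2 (by omega) (b3.symm.trans e) (by simp [u, hμ])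
            · exact key l 2 b1 b2 (by omega) (b3.symm.trans e) (by simp [u, hμ])
          · exact mem_union_right _ (mem_biUnion.2 ⟨g, mem_filter.2 ⟨mem_univ _, b1.symm.trans e⟩,
              mem_insert.2 (b2.imp_right mem_singleton.2)⟩)
      · obtain ⟨⟨a1, -⟩, rfl⟩ := mX r q hq
        have := hy (k + (1 : ℕ))
        exact key 1 0 le_rfl hL (by omega) a1 (by simp [u])
    have h1 : ((Ix.filter fun x => ρ x.1 x.2 = r).biUnion u).card ≤ ∑ x ∈ Ix.filter fun x =>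
        ρ x.1 x.2 = r, (tk (cl (k + x.1)) (y (k + x.1)) x.1 x.2 + 1 + if x.2 < 3 then 1 else 0) := by
      refine card_biUnion_le.trans (sum_le_sum fun x _ => (card_union_le _ _).trans
        (add_le_add ((card_union_le _ _).trans (by rw [cp, card_singleton])) ?_))
      split_ifs <;> simp
    have h2 : ((univ.filter fun j => dr j = r).biUnion w).card ≤
        (univ.filter fun j => dr j = r).card * 2 := card_biUnion_le_card_mul _ _ _ fun g _ =>
      card_le_two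
    have h3 := (card_le_card hs).trans (card_union_le _ _)
    have h4 := hload r
    simp only [sum_filter] at h1 h4
    rw [sum_sigma] at h1
    dsimp only at h1
    rw [card_Gs]
    omega
  · have s1 := sum_fiberwise_of_maps_to (s := Ix) (t := range n) (g := fun x => ρ x.1 x.2)
      (fun x hx => by
        have := hρ x.1 x.2 ((mI x).1 hx).1.1 ((mI x).1 hx).1.2 ((mI x).1 hx).2
        exact mem_range.2 (by omega)) fun x => tk (cl (k + x.1)) (y (k + x.1)) x.1 x.2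
    have s2 : NF.card = ∑ r ∈ range n, (SB r).card := by
      refine card_eq_sum_card_fiberwise fun q hq => mem_coe.2 (mem_range.2 ?_)
      obtain ⟨a1, a2, a3, a4⟩ := (mN q).1 hq
      rcases Cover_cases k ε n ρ dr hN a2 a3 a4 with ⟨l, i, b1, b2, b3, b4⟩ | ⟨g, b1, -⟩
      · have h1 := hy (k + l)
        have h2 := hρ l i b1 b2 (by
          rcases b4 with rfl | ⟨rfl, -⟩ | ⟨rfl, -⟩
          exacts [a1, by omega, by omega])
        exact b3.trans_lt (by omega)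
      · have := hdr g
        exact b1.trans_lt (by omega)
    have s3 : ∑ r ∈ range n, (XB r).card = if ε (k + 1) then 1 else 0 := by
      have h1 := hy (k + (1 : ℕ))
      have h2 := hρ 1 0 le_rfl hL (by omega)
      by_cases h : ε (k + 1)
      · simp only [XB, h, and_true, if_true, apply_ite card, card_singleton, card_empty, sum_ite_eq,
          mem_range]
        exact if_pos (by omega)
      · simp [XB, h]
    have s4 : ∑ j, y j ≤ Sg.card + NF.card + y k + if ε k then 1 else 0 := by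
      have hs : Pts y ⊆ Sg ∪ NF ∪ Gs y k ∪ if ε k then {(k + μ, 2)} else ∅ := fun q hq => by
        simp only [mem_union, mN, mem_Gs]
        by_cases a : Cover_fr L k ε q
        · exact Or.inl (Or.inl (Or.inl (mem_filter.2 ⟨hq, a⟩)))
        by_cases b : q.1 = k
        · exact Or.inl (Or.inr ⟨b, b ▸ mem_Pts.1 hq⟩)
        by_cases c : q = (k + μ, 2) ∧ ε k
        · exact Or.inr (by rw [if_pos c.2]; exact mem_singleton.2 c.1)
        · exact Or.inl (Or.inl (Or.inr ⟨mem_Pts.1 hq, a, b, c⟩))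
      rw [← card_Pts, ← card_Gs y k]
      refine (card_le_card hs).trans ((card_union_le _ _).trans (add_le_add
        ((card_union_le _ _).trans (Nat.add_le_add_right (card_union_le _ _) _)) ?_))
      split_ifs <;> simp
    rw [sum_sigma] at s1
    dsimp only at s1
    rw [card_Gs, sum_congr rfl fun r _ => cB r, sum_add_distrib, sum_add_distrib, s1, ← s2, s3]
    omega

end Pool.Agent.Work.MP_f4b644_ag.Sl
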