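import Pool.Agent.Work.MP_f4b644_ag.Sl.Defs

/-!
Group sizes and transfers. Copy the first half of `spanA` (ArithA.lean) with I, J, K = R, C, N: y0 = s / N,
yn n = (n + 1) s / N - n s / N, τ = R + C - 2, Ψ n = τ (n s / N) - n (R C - s) - n A / N, with
Ψ n N = (n A % N) - τ (n s % N), -(τ - 1) ≤ Ψ n ≤ 0, Ψ N = Ψ 0, Ψ (n + 1) - Ψ n ≤ τ yn n - (R C - s).
New: with ρ = s % N and θ = τ (N - ρ) / N put z k = - Ψ k + (2 y0 - θ truncated) - (2 y0 if y k = y0 + 1, else 0).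
If yn n = y0 + 1 then n s % N + ρ ≥ N (Nat.add_div), so - Ψ n N > τ (N - ρ) - N ≥ (θ - 1) N, - Ψ n ≥ θ, so z ≥ 0,
and z ≤ τ - 1. If yn n = y0 then n s % N + ρ < N, so - Ψ n N ≤ τ (N - ρ) and - Ψ n ≤ θ ≤ τ, so
z ≤ max θ (2 y0) ≤ τ. The last inequality is the one of `spanA` (z + y (y - 1) + Ψ is constant).
`card_mod_le2`: j ↦ j.val / n is injective on the set and j.val / n < D (j.val < N ≤ D n).
-/

set_option autoImplicit false

namespace Pool.Agent.Work.MP_f4b644_ag.Sl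

open Finset

theorem flux2 {N : ℕ} [NeZero N] (hN : 2 ≤ N) (R C s : ℕ) (hs : R * C * N + 2 * s ≤ s * (R + C + N))
    (h0 : 1 ≤ s / N) (h1 : s / N + 1 ≤ R) (h2 : s / N + 1 ≤ C) :
    ∃ y z : ZMod N → ℕ, ∑ k, y k = s ∧ (∀ k, s / N ≤ y k ∧ y k ≤ s / N + 1) ∧ (∀ k, z k + 2 ≤ R + C) ∧
      ∀ k, (R - y k) * (C - y k) + z k + y k + y (k + 1) ≤ y (k + 1) * y (k + 1) + z (k + 1) + s := by
  have hK0 : 0 < N := by omega
  have hKz : (0 : ℤ) < N := by exact_mod_cast hK0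
  set y0 := s / N with hy0
  let A : ℕ := s * (R + C + N) - (R * C * N + 2 * s)
  have hA : (A : ℤ) = s * (R + C + N) - (R * C * N + 2 * s) := by
    simp only [A]
    rw [Nat.cast_sub hs]
    push_cast
    ring
  let yn : ℕ → ℕ := fun n => (n + 1) * s / N - n * s / N
  have hyn : ∀ n, (yn n = y0 ∧ n * s % N + s % N < N) ∨
      (yn n = y0 + 1 ∧ N ≤ n * s % N + s % N) := by
    intro n
    simp only [yn]
    rw [add_mul, one_mul, Nat.add_div hK0]
    split_ifs <;> omega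
  have hyn' : ∀ n, (yn n : ℤ) = ((n + 1) * s / N : ℕ) - (n * s / N : ℕ) := by
    intro n
    have := div_step N s n hK0
    simp only [yn]
    omega
  obtain ⟨τ, hτ⟩ : ∃ τ : ℕ, R + C = τ + 2 := ⟨R + C - 2, by omega⟩
  have hτ' : (τ : ℤ) = R + C - 2 := by omega
  have hρ : s % N < N := Nat.mod_lt _ hK0
  obtain ⟨θ, hθ0, hθ1, hθ2⟩ : ∃ θ : ℕ, θ ≤ τ ∧ (θ : ℤ) * N ≤ τ * (N - (s % N : ℕ)) ∧
      (τ : ℤ) * (N - (s % N : ℕ)) < (θ + 1) * N := by
    refine ⟨τ * (N - s % N) / N, Nat.div_le_of_le_mul ?_, ?_, ?_⟩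
    · rw [mul_comm]
      exact Nat.mul_le_mul_right _ (Nat.sub_le _ _)
    · rw [← Nat.cast_sub hρ.le]
      exact_mod_cast Nat.div_mul_le_self _ _
    · rw [← Nat.cast_sub hρ.le, mul_comm _ (N : ℤ)]
      exact_mod_cast Nat.lt_mul_div_succ _ hK0
  let Ψ : ℕ → ℤ := fun n => (τ : ℤ) * (n * s / N : ℕ) - n * ((R : ℤ) * C - s) - (n * A / N : ℕ)
  have hΨK : Ψ N = Ψ 0 := by
    simp only [Ψ, Nat.mul_div_cancel_left _ hK0, hA, hτ']
    simp
    ring
  have hΨ : ∀ n, Ψ n ≤ 0 ∧ -(τ : ℤ) ≤ Ψ n ∧ (n * s % N + s % N < N → -(θ : ℤ) ≤ Ψ n) ∧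
      (N ≤ n * s % N + s % N → Ψ n ≤ -θ) := by
    intro n
    have a1 : ((n * s / N : ℕ) : ℤ) * N + (n * s % N : ℕ) = n * s := by
      exact_mod_cast Nat.div_add_mod' (n * s) N
    have a2 : ((n * A / N : ℕ) : ℤ) * N + (n * A % N : ℕ) = n * A := by
      exact_mod_cast Nat.div_add_mod' (n * A) N
    have a3 : ((n * s % N : ℕ) : ℤ) < N := by exact_mod_cast Nat.mod_lt _ hK0
    have a4 : ((n * A % N : ℕ) : ℤ) < N := by exact_mod_cast Nat.mod_lt _ hK0
    have a5 : (0 : ℤ) ≤ (n * s % N : ℕ) := by positivity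
    have a6 : (0 : ℤ) ≤ (n * A % N : ℕ) := by positivity
    have e : Ψ n * N = (n * A % N : ℕ) - (τ : ℤ) * (n * s % N : ℕ) := by
      simp only [Ψ]
      rw [hA] at a2
      rw [hτ']
      linear_combination ((R : ℤ) + C - 2) * a1 - a2
    have hm : (0 : ℤ) ≤ τ := by positivity
    refine ⟨?_, ?_, fun h => ?_, fun h => ?_⟩ <;> by_contra hc
    · have b1 : (1 : ℤ) * N ≤ Ψ n * N := mul_le_mul_of_nonneg_right (by omega) hKz.le
      have b2 := mul_nonneg hm a5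
      linarith
    · have b1 : Ψ n * N ≤ (-(τ : ℤ) - 1) * N := mul_le_mul_of_nonneg_right (by omega) hKz.le
      have b2 := mul_le_mul_of_nonneg_left a3.le hm
      linarith
    · have b1 : Ψ n * N ≤ (-(θ : ℤ) - 1) * N := mul_le_mul_of_nonneg_right (by omega) hKz.le
      have b2 : (τ : ℤ) * (n * s % N : ℕ) ≤ τ * (N - (s % N : ℕ)) :=
        mul_le_mul_of_nonneg_left (by omega) hm
      linarith
    · have b1 : (-(θ : ℤ) + 1) * N ≤ Ψ n * N := mul_le_mul_of_nonneg_right (by omega) hKz.le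
      have b2 : (τ : ℤ) * (N - (s % N : ℕ)) ≤ τ * (n * s % N : ℕ) :=
        mul_le_mul_of_nonneg_left (by omega) hm
      linarith
  have hΨs : ∀ n, Ψ (n + 1) - Ψ n ≤ (τ : ℤ) * yn n - ((R : ℤ) * C - s) := by
    intro n
    have : n * A / N ≤ (n + 1) * A / N := Nat.div_le_div_right (by nlinarith)
    have : ((n * A / N : ℕ) : ℤ) ≤ ((n + 1) * A / N : ℕ) := by exact_mod_cast this
    simp only [Ψ, hyn']
    push_cast at this ⊢
    linarith
  have hΨv : ∀ k : ZMod N, Ψ (k + 1).val = Ψ (k.val + 1) := by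
    intro k
    have : Fact (1 < N) := ⟨by omega⟩
    rw [ZMod.val_add, ZMod.val_one]
    by_cases h : k.val + 1 < N
    · rw [Nat.mod_eq_of_lt h]
    · have : k.val + 1 = N := by have := ZMod.val_lt k; omega
      rw [this, Nat.mod_self, hΨK]
  let y : ZMod N → ℕ := fun k => yn k.val
  have hX : ∀ k : ZMod N, ∃ X : ℕ, (X : ℤ) = (y0 + 1) * y0 - (min θ (2 * y0) : ℕ) - Ψ k.val -
      y k * (y k - 1) ∧ X + 2 ≤ R + C := by
    intro k
    obtain ⟨p1, p2, p3, p4⟩ := hΨ k.val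
    rcases hyn k.val with ⟨h, h'⟩ | ⟨h, h'⟩
    · have h : y k = y0 := h
      have := p3 h'
      refine ⟨(2 * y0 - (min θ (2 * y0) : ℕ) - Ψ k.val).toNat, ?_, by omega⟩
      rw [Int.toNat_of_nonneg (by omega), h]
      ring
    · have h : y k = y0 + 1 := h
      have := p4 h'
      refine ⟨(-(min θ (2 * y0) : ℕ) - Ψ k.val).toNat, ?_, by omega⟩
      rw [Int.toNat_of_nonneg (by omega), h, Nat.cast_add_one]
      ring
  choose X hX1 hX2 using hX
  have hy : ∀ k, y0 ≤ y k ∧ y k ≤ y0 + 1 := fun k => by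
    have := hyn k.val
    simp only [y]
    omega
  refine ⟨y, X, ?_, hy, hX2, fun k => ?_⟩
  · simp only [y]
    rw [sum_zmod_val yn]
    simp only [yn]
    rw [sum_range_tsub (f := fun n => n * s / N)
      (fun a b hab => Nat.div_le_div_right (Nat.mul_le_mul_right _ hab))]
    simp [Nat.mul_div_cancel_left _ hK0]
  · have t0 := hy k
    have v1 := hX1 k
    have v2 := hX1 (k + 1)
    have v3 := hΨs k.val
    rw [hΨv] at v2
    zify [show y k ≤ R by omega, show y k ≤ C by omega]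
    rw [v1, v2]
    have : (yn k.val : ℤ) = y k := rfl
    rw [this, hτ'] at v3
    linarith

theorem card_mod_le2 (N n D i : ℕ) [NeZero N] (h : N ≤ D * n) :
    ((univ : Finset (ZMod N)).filter (fun j => j.val % n = i)).card ≤ D := by
  have hN := NeZero.pos N
  have hn : 0 < n := Nat.pos_of_ne_zero fun e => by
    rw [e, mul_zero] at h
    omega
  rw [← card_range D]
  refine card_le_card_of_injOn (fun j => j.val / n) (fun j _ => mem_coe.2 (mem_range.2
    ((Nat.div_lt_iff_lt_mul hn).2 ((ZMod.val_lt j).trans_le h)))) fun a ha b hb e => ?_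
  refine ZMod.val_injective N ?_
  rw [← Nat.div_add_mod a.val n, ← Nat.div_add_mod b.val n, (mem_filter.1 (mem_coe.1 ha)).2,
    (mem_filter.1 (mem_coe.1 hb)).2, show a.val / n = b.val / n from e]

end Pool.Agent.Work.MP_f4b644_ag.Sl
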