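import Pool.Agent.Work.MP_f4b644_ag.Sl.Defs

/-!
The numbers tk for the two designs. For cl1 the map j ↦ j / 2 is a bijection from the j < y with j % 2 = b onto
range ((y + 1 - b) / 2) (b = 0, 1). Unfold Sep first: Sep (cl0 f) 1 i j ↔ f i ≠ f j, Sep (cl0 f) 2 i j ↔ f i = f j ∧ i ≠ j,
Sep (cl1 f) 1 i j ↔ i % 2 ≠ j % 2, Sep (cl1 f) 2 i j ↔ i % 2 = j % 2 ∧ f (i % 2) (i / 2) ≠ f (j % 2) (j / 2),
Sep (cl1 f) 3 i j ↔ i % 2 = j % 2 ∧ f (i % 2) (i / 2) = f (j % 2) (j / 2) ∧ i ≠ j.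
`sum_par`: induction on y (two cases of parity).
-/

set_option autoImplicit false

namespace Pool.Agent.Work.MP_f4b644_ag.Sl

open Finset

theorem Tk_sep1 (cl : ℕ → ℕ → ℕ) (i j : ℕ) : Sep cl 1 i j ↔ cl 1 i ≠ cl 1 j :=
  and_iff_right fun l h1 h2 => by omega

theorem Tk_sep2 (cl : ℕ → ℕ → ℕ) (i j : ℕ) : Sep cl 2 i j ↔ cl 1 i = cl 1 j ∧ cl 2 i ≠ cl 2 j :=
  and_congr_left' ⟨fun h => h 1 le_rfl one_lt_two, fun h l h1 h2 => by
    rwa [show l = 1 by omega]⟩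

theorem Tk_sep3 (cl : ℕ → ℕ → ℕ) (i j : ℕ) :
    Sep cl 3 i j ↔ (cl 1 i = cl 1 j ∧ cl 2 i = cl 2 j) ∧ cl 3 i ≠ cl 3 j :=
  and_congr_left' ⟨fun h => ⟨h 1 le_rfl (by omega), h 2 (by omega) (by omega)⟩, fun h l h1 h2 => by
    obtain rfl | rfl : l = 1 ∨ l = 2 := by omega
    exacts [h.1, h.2]⟩

theorem Tk_tk {cl : ℕ → ℕ → ℕ} {l i : ℕ} {Q : ℕ → Prop} [DecidablePred Q]
    (h : ∀ j, Sep cl l i j ↔ Q j) (y : ℕ) : tk cl y l i = ((range y).filter Q).card := by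
  unfold tk
  congr 1
  ext j
  simp only [mem_filter, h]

theorem Tk_erase {Q : ℕ → Prop} [DecidablePred Q] {y i : ℕ} (hi : i < y) (h : Q i) :
    ((range y).filter fun j => Q j ∧ j ≠ i).card + 1 = ((range y).filter Q).card := by
  rw [← card_erase_add_one (mem_filter.2 ⟨mem_range.2 hi, h⟩)]
  congr 2
  ext j
  simp only [mem_filter, mem_erase]
  tauto

theorem Tk_sum (F : ℕ → ℕ → ℕ) (y : ℕ) :
    ∑ i ∈ range y, F (i % 2) (i / 2) =
      ∑ a ∈ range ((y + 1) / 2), F 0 a + ∑ a ∈ range (y / 2), F 1 a := by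
  induction y with
  | zero => simp
  | succ y ih =>
    rw [sum_range_succ, ih]
    rcases Nat.mod_two_eq_zero_or_one y with h | h
    · rw [h, show (y + 1 + 1) / 2 = y / 2 + 1 by omega, show (y + 1) / 2 = y / 2 by omega,
        sum_range_succ]
      omega
    · rw [h, show (y + 1 + 1) / 2 = y / 2 + 1 by omega, show (y + 1) / 2 = y / 2 + 1 by omega,
        sum_range_succ (F 1)]
      omega

theorem Tk_par (Q : ℕ → Prop) [DecidablePred Q] (y i : ℕ) :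
    ((range y).filter fun j => j % 2 = i % 2 ∧ Q (j / 2)).card =
      ((range ((y + 1 - i % 2) / 2)).filter Q).card := by
  rw [card_filter, card_filter, Tk_sum fun b a => if b = i % 2 ∧ Q a then 1 else 0]
  rcases Nat.mod_two_eq_zero_or_one i with h | h <;> simp [h]

theorem tk0_1 (f : ℕ → ℕ) (y i : ℕ) : tk (cl0 f) y 1 i + cs f y i = y := by
  rw [Tk_tk (Q := fun j => ¬ f j = f i) fun j => (Tk_sep1 _ i j).trans ne_comm, cs, add_comm,
    card_filter_add_card_filter_not, card_range]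

theorem tk0_2 (f : ℕ → ℕ) (y i : ℕ) (hi : i < y) : tk (cl0 f) y 2 i + 1 = cs f y i := by
  rw [Tk_tk (Q := fun j => f j = f i ∧ j ≠ i)
    fun j => (Tk_sep2 _ i j).trans (and_congr eq_comm ne_comm)]
  exact Tk_erase hi rfl

theorem tk1_1 (f : ℕ → ℕ → ℕ) (y i : ℕ) : tk (cl1 f) y 1 i = (y + i % 2) / 2 := by
  rw [Tk_tk (Q := fun j => j % 2 ≠ i % 2) fun j => (Tk_sep1 _ i j).trans ne_comm, card_filter,
    Tk_sum fun b _ => if b ≠ i % 2 then 1 else 0]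
  rcases Nat.mod_two_eq_zero_or_one i with h | h <;> simp [h]

theorem tk1_2 (f : ℕ → ℕ → ℕ) (y i : ℕ) :
    tk (cl1 f) y 2 i + cs (f (i % 2)) ((y + 1 - i % 2) / 2) (i / 2) = (y + 1 - i % 2) / 2 := by
  rw [Tk_tk (Q := fun j => j % 2 = i % 2 ∧ ¬ f (i % 2) (j / 2) = f (i % 2) (i / 2))
    fun j => (Tk_sep2 _ i j).trans ((and_congr eq_comm ne_comm).trans
      (and_congr_right fun h : j % 2 = i % 2 => by
        change f (j % 2) (j / 2) ≠ f (i % 2) (i / 2) ↔ _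
        rw [h])),
    Tk_par fun a => ¬ f (i % 2) a = f (i % 2) (i / 2), cs, add_comm,
    card_filter_add_card_filter_not, card_range]

theorem tk1_3 (f : ℕ → ℕ → ℕ) (y i : ℕ) (hi : i < y) :
    tk (cl1 f) y 3 i + 1 = cs (f (i % 2)) ((y + 1 - i % 2) / 2) (i / 2) := by
  rw [Tk_tk (Q := fun j => (j % 2 = i % 2 ∧ f (i % 2) (j / 2) = f (i % 2) (i / 2)) ∧ j ≠ i)
    fun j => (Tk_sep3 _ i j).trans (and_congr ((and_congr eq_comm eq_comm).trans
      (and_congr_right fun h : j % 2 = i % 2 => by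
        change f (j % 2) (j / 2) = f (i % 2) (i / 2) ↔ _
        rw [h])) ne_comm),
    Tk_erase (Q := fun j => j % 2 = i % 2 ∧ f (i % 2) (j / 2) = f (i % 2) (i / 2)) hi ⟨rfl, rfl⟩,
    Tk_par fun a => f (i % 2) a = f (i % 2) (i / 2), cs]

theorem sum_par (F : ℕ → ℕ → ℕ) (y : ℕ) :
    ∑ i ∈ range y, F (i % 2) (i / 2) = ∑ a ∈ range ((y + 1) / 2), F 0 a + ∑ a ∈ range (y / 2), F 1 a := by
  exact Tk_sum F y

theorem one_le_cs (f : ℕ → ℕ) (y i : ℕ) (hi : i < y) : 1 ≤ cs f y i := by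
  exact card_pos.2 ⟨i, mem_filter.2 ⟨mem_range.2 hi, rfl⟩⟩

/-- the sums for the design with two levels -/
theorem sum_tk0 (f : ℕ → ℕ) (y X : ℕ) (h : ∑ i ∈ range y, cs f y i = y + X) :
    ∑ i ∈ range y, tk (cl0 f) y 1 i + (y + X) = y * y ∧ ∑ i ∈ range y, tk (cl0 f) y 2 i = X := by
  have h1 := sum_congr (s₁ := range y) rfl fun i _ => tk0_1 f y i
  have h2 := sum_congr (s₁ := range y) rfl fun i hi => tk0_2 f y i (mem_range.1 hi)
  rw [sum_add_distrib, h, sum_const, card_range, smul_eq_mul] at h1 h2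
  exact ⟨h1, by omega⟩

/-- the sums for the design with three levels -/
theorem sum_tk1 (f : ℕ → ℕ → ℕ) (y X0 X1 : ℕ)
    (h0 : ∑ a ∈ range ((y + 1) / 2), cs (f 0) ((y + 1) / 2) a = (y + 1) / 2 + X0)
    (h1 : ∑ a ∈ range (y / 2), cs (f 1) (y / 2) a = y / 2 + X1) :
    ∑ i ∈ range y, tk (cl1 f) y 1 i = 2 * ((y + 1) / 2 * (y / 2)) ∧
      ∑ i ∈ range y, tk (cl1 f) y 2 i + (y + X0 + X1) = (y + 1) / 2 * ((y + 1) / 2) + y / 2 * (y / 2) ∧
      ∑ i ∈ range y, tk (cl1 f) y 3 i = X0 + X1 := by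
  have k1 := sum_congr (s₁ := range y) rfl fun i _ => tk1_1 f y i
  have k2 := sum_congr (s₁ := range y) rfl fun i _ => tk1_2 f y i
  have k3 := sum_congr (s₁ := range y) rfl fun i hi => tk1_3 f y i (mem_range.1 hi)
  have k4 := Tk_sum (fun b a => cs (f b) ((y + 1 - b) / 2) a) y
  simp only [Nat.sub_zero, Nat.add_sub_cancel] at k4
  rw [h0, h1] at k4
  rw [Tk_sum fun b _ => (y + b) / 2] at k1
  rw [sum_add_distrib, k4, Tk_sum fun b _ => (y + 1 - b) / 2] at k2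
  rw [sum_add_distrib, k4] at k3
  simp only [sum_const, card_range, smul_eq_mul, Nat.sub_zero, Nat.add_sub_cancel, add_zero,
    mul_one] at k1 k2 k3
  refine ⟨by rw [k1]; ring, by rw [← k2]; omega, by omega⟩

end Pool.Agent.Work.MP_f4b644_ag.Sl
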