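import Pool.Agent.Work.MP_f4b644_ag.Sl.Lim
import Pool.Agent.Work.MP_f4b644_ag.Sl.Cover
import Pool.Agent.Work.MP_f4b644_ag.Sl.Flux
import Pool.Agent.Work.MP_f4b644_ag.Sl.Cls
import Pool.Agent.Work.MP_f4b644_ag.Sl.Tk

/-!
The design with three levels (L = 3). y0 = s / N, y' = y0 + 1, h = (y0 + 2) / 2, κ ≥ 2 by hP.
Take y, z from `flux2`; W k = z k + (if y (k + 1) = y0 then 2 (y0 / 2) else 0), ε k = (W k % 2 = 1). For every g put
R' = W (g - 2) / 2 and take f g 0, f g 1 from `exists_cls` with o = 0, P = y0 / 2 and R = (R' + 1) / 2, R' / 2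
(2 R ≤ R' + 1 ≤ (R + C) / 2 + y0 / 2; both parity classes have at least y0 / 2 elements); cl g = cl1 (f g).
Apply `designB_span` and `coverB` with L = 3 and, in the first case, ρ 1 i = i, ρ 2 i = ρ 3 i = y' + i,
dr j = j.val % y'; in the second case ρ 1 i = i, ρ 2 i = y' + i, ρ 3 i = 2 y' + i / 2 (two points of different parity
in a row), dr j = 2 y' + j.val % h (`card_mod_le2`). Loads: tk 1 ≤ h, tk 2 ≤ h - 1, tk 3 ≤ κ - 1 (Tk.lean, `cs_le`,
`one_le_cs`), so the contributions are at most h + 2, h + 1, κ + 1.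
htot: `sum_tk1` for the groups k + 1, k + 2, k + 3. With a y = (y + 1) / 2, b y = y / 2, U y = a a + b b - y one has
y y = 2 a b + U y + y, U (y0 + 1) = U y0 + 2 (y0 / 2), so W k + U (y (k + 1)) = z k + U (y0 + 1), and the
inequality of `flux2` gives the claim (cases of the parity of y0 and of y (k + 1), y (k + 2) ∈ {y0, y0 + 1}).
-/

set_option autoImplicit false

namespace Pool.Agent.Work.MP_f4b644_ag.Sl

open Finset Classical

theorem Span1_sum3 (F : ℕ → ℕ) : ∑ l ∈ Icc 1 3, F l = F 1 + F 2 + F 3 := by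
  rw [show Icc 1 3 = {1, 2, 3} by decide]
  simp [add_assoc]

theorem Span1_sq (y : ℕ) :
    y * y = 2 * ((y + 1) / 2 * (y / 2)) + ((y + 1) / 2 * ((y + 1) / 2) + y / 2 * (y / 2)) := by
  have h : (y + 1) / 2 + y / 2 = y := by omega
  generalize (y + 1) / 2 = a at h ⊢
  generalize y / 2 = b at h ⊢
  subst h
  ring

theorem Span1_U (y0 y : ℕ) (h1 : y0 ≤ y) (h2 : y ≤ y0 + 1) :
    (y + 1) / 2 * ((y + 1) / 2) + y / 2 * (y / 2) + (if y = y0 then 2 * (y0 / 2) else 0) + (y0 + 1) =
      (y0 + 2) / 2 * ((y0 + 2) / 2) + (y0 + 1) / 2 * ((y0 + 1) / 2) + y := by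
  split_ifs with h
  · subst h
    have e : (y + 2) / 2 = y / 2 + 1 := by omega
    rw [e]
    ring
  · obtain rfl : y = y0 + 1 := by omega
    rfl

theorem Span1_le {y B m : ℕ} (p : ℕ → Prop) [DecidablePred p] (g : ℕ → ℕ) (T : Finset ℕ)
    (hg : ∀ i < y, g i ≤ B) (hp : ∀ i < y, p i → i ∈ T) (hT : T.card ≤ m) :
    ∑ i ∈ (range y).filter p, g i ≤ m * B := by
  have h1 : ∑ i ∈ (range y).filter p, g i ≤ ((range y).filter p).card • B :=
    sum_le_card_nsmul _ _ _ fun i hi => hg i (mem_range.1 (mem_filter.1 hi).1)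
  have h2 : ((range y).filter p).card ≤ T.card :=
    card_le_card fun i hi => hp i (mem_range.1 (mem_filter.1 hi).1) (mem_filter.1 hi).2
  rw [smul_eq_mul] at h1
  exact h1.trans (Nat.mul_le_mul_right _ (h2.trans hT))

theorem Span1_zero {N : ℕ} [NeZero N] (p : ZMod N → Prop) [DecidablePred p] (h : ∀ j, ¬ p j) :
    (univ.filter p).card = 0 := by
  rw [card_eq_zero, filter_eq_empty_iff]
  exact fun j _ => h j

theorem Span1_core {N : ℕ} [NeZero N] {R C s κ c : ℕ} (hT : Tab κ c) (hN : 8 ≤ N)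
    (hs : R * C * N + 2 * s ≤ s * (R + C + N)) (h3 : 3 ≤ s / N)
    (hP : (R + C) / 2 + s / N / 2 + c < (κ - 1) * (s / N / 2 + 1))
    (hR : s / N + 1 ≤ R) (hC : s / N + 1 ≤ C) :
    ∃ (y : ZMod N → ℕ) (f : ZMod N → ℕ → ℕ → ℕ) (ε : ZMod N → Prop), ∑ k, y k = s ∧
      (∀ k, s / N ≤ y k ∧ y k ≤ s / N + 1) ∧
      (∀ g, ∀ i < y g, tk (cl1 (f g)) (y g) 1 i ≤ (s / N + 2) / 2) ∧
      (∀ g, ∀ i < y g, tk (cl1 (f g)) (y g) 2 i + 1 ≤ (s / N + 2) / 2) ∧
      (∀ g, ∀ i < y g, tk (cl1 (f g)) (y g) 3 i + 1 ≤ κ) ∧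
      ∀ k, (R - y k) * (C - y k) + (if ε k then 1 else 0) + y k ≤
        ∑ l ∈ Icc 1 3, ∑ i ∈ range (y (k + (l : ℕ))), tk (cl1 (f (k + (l : ℕ)))) (y (k + (l : ℕ))) l i +
          (if ε (k + 1) then 1 else 0) + ∑ j, y j := by
  have hκ : 2 ≤ κ := by
    by_contra hc
    have : κ - 1 = 0 := by omega
    rw [this, zero_mul] at hP
    omega
  obtain ⟨y, z, hsum, hy, hz, hfl⟩ := flux2 (N := N) (by omega) R C s hs (by omega) hR hC
  generalize s / N = y0 at *
  let W : ZMod N → ℕ := fun k => z k + (if y (k + 1) = y0 then 2 * (y0 / 2) else 0)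
  have hW : ∀ k, W k / 2 + 1 ≤ (R + C) / 2 + y0 / 2 := by
    intro k
    have := hz k
    simp only [W]
    split_ifs <;> omega
  have hf : ∀ (g : ZMod N) (b : ℕ), ∃ cls : ℕ → ℕ, (∀ y i, cs cls y i ≤ κ) ∧
      ∀ y, y0 / 2 ≤ y → ∑ i ∈ range y, cs cls y i = y + 2 * ((W (g - 2) / 2 + 1 - b) / 2) := by
    intro g b
    obtain ⟨cls, pos, c1, c2, -, c4⟩ := exists_cls hT hκ 0 (y0 / 2) ((W (g - 2) / 2 + 1 - b) / 2)
      (by have := hW (g - 2); omega)
    exact ⟨cls, cs_le cls pos κ c1 c2, fun y hy => c4 y (by omega)⟩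
  choose f hf1 hf2 using hf
  have hsm := fun g => sum_tk1 (f g) (y g) _ _ (hf2 g 0 _ (by have := hy g; omega))
    (hf2 g 1 _ (by have := hy g; omega))
  refine ⟨y, f, fun k => W k % 2 = 1, hsum, hy, ?_, ?_, ?_, ?_⟩
  · intro g i _
    have := hy g
    rw [tk1_1]
    omega
  · intro g i hi
    have := hy g
    have h1 := tk1_2 (f g) (y g) i
    have h2 := one_le_cs (f g (i % 2)) ((y g + 1 - i % 2) / 2) (i / 2) (by omega)
    omega
  · intro g i hi
    rw [tk1_3 _ _ _ hi]
    exact hf1 _ _ _ _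
  · intro k
    rw [Span1_sum3, hsum]
    simp only [Nat.cast_one, Nat.cast_ofNat]
    have a1 := (hsm (k + 1)).1
    have a2 := (hsm (k + 2)).2.1
    have a3 := (hsm (k + 3)).2.2
    have e2 : k + 2 - 2 = k := by ring
    have e3 : k + 3 - 2 = k + 1 := by ring
    have e4 : k + 1 + 1 = k + 2 := by ring
    rw [e2] at a2
    rw [e3] at a3
    have u1 := Span1_U y0 (y (k + 1)) (hy _).1 (hy _).2
    have u2 := Span1_U y0 (y (k + 2)) (hy _).1 (hy _).2
    have q1 := Span1_sq (y (k + 1))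
    have v := hfl k
    have w1 : W k = z k + (if y (k + 1) = y0 then 2 * (y0 / 2) else 0) := rfl
    have w2 : W (k + 1) = z (k + 1) + (if y (k + 2) = y0 then 2 * (y0 / 2) else 0) := by
      rw [← e4]
    rw [a1, a3]
    generalize (if y (k + 1) = y0 then 2 * (y0 / 2) else 0) = d1 at u1 w1
    generalize (if y (k + 2) = y0 then 2 * (y0 / 2) else 0) = d2 at u2 w2
    generalize (R - y k) * (C - y k) = p0 at v ⊢
    generalize y (k + 1) * y (k + 1) = p1 at v q1
    generalize (y (k + 1) + 1) / 2 * (y (k + 1) / 2) = p2 at q1 ⊢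
    generalize (y (k + 1) + 1) / 2 * ((y (k + 1) + 1) / 2) + y (k + 1) / 2 * (y (k + 1) / 2) = p3
      at q1 u1
    generalize (y (k + 2) + 1) / 2 * ((y (k + 2) + 1) / 2) + y (k + 2) / 2 * (y (k + 2) / 2) = p4
      at a2 u2
    generalize (y0 + 2) / 2 * ((y0 + 2) / 2) + (y0 + 1) / 2 * ((y0 + 1) / 2) = p5 at u1 u2
    split_ifs <;> omega

theorem span1 {N : ℕ} [NeZero N] {R C s κ c D : ℕ} (hT : Tab κ c) (hN : 8 ≤ N)
    (hs : R * C * N + 2 * s ≤ s * (R + C + N)) (h3 : 3 ≤ s / N)
    (hP : (R + C) / 2 + s / N / 2 + c < (κ - 1) * (s / N / 2 + 1))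
    (hm : (3 * (s / N + 1) ≤ R ∧ s / N + 1 + (s / N + 2) / 2 + κ + 2 ≤ C ∧ N ≤ D * (s / N + 1) ∧
        s / N + 1 + (s / N + 2) / 2 + 2 + 2 * D ≤ C) ∨
      (3 * (s / N + 1) + (s / N + 2) / 2 ≤ R ∧ s / N + 1 + (s / N + 2) / 2 + 2 ≤ C ∧
        N ≤ D * ((s / N + 2) / 2) ∧ s / N + 1 + 2 * κ + 2 + 2 * D ≤ C)) : Spans N R C s := by
  obtain ⟨y, f, ε, hsum, hy, t1, t2, t3, htot⟩ := Span1_core hT hN hs h3 hP (by omega) (by omega)
  generalize s / N = y0 at *
  have hy3 : ∀ k, 3 ≤ y k := fun k => h3.trans (hy k).1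
  have g1 : ∀ g, ∀ i < y g, (tk (cl1 (f g)) (y g) 1 i + 1 + if i < 3 then 1 else 0) ≤
      (y0 + 2) / 2 + 2 := fun g i hi => by
    have := t1 g i hi
    split_ifs <;> omega
  have g2 : ∀ g, ∀ i < y g, (tk (cl1 (f g)) (y g) 2 i + 1 + if i < 3 then 1 else 0) ≤
      (y0 + 2) / 2 + 1 := fun g i hi => by
    have := t2 g i hi
    split_ifs <;> omega
  have g3 : ∀ g, ∀ i < y g, (tk (cl1 (f g)) (y g) 3 i + 1 + if i < 3 then 1 else 0) ≤
      κ + 1 := fun g i hi => by
    have := t3 g i hi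
    split_ifs <;> omega
  rw [← hsum]
  refine designB_span 3 (by norm_num) ((3 + 1 : ℕ) : ZMod N) y (fun g => cl1 (f g)) ε hy3
    (fun k => by simp [cl1]) fun k => ?_
  have hk := hy k
  rcases hm with ⟨m1, m2, m3, m4⟩ | ⟨m1, m2, m3, m4⟩
  · refine coverB 3 (by norm_num) (by omega) y _ ε k hy3
      (fun l i => if l = 1 then i else y0 + 1 + i) (fun j => j.val % (y0 + 1)) ?_ ?_ ?_ ?_ (htot k)
    · intro l i _ _ hi
      have := hy (k + l)
      split_ifs <;> omega
    · intro j
      have := Nat.mod_lt j.val (show 0 < y0 + 1 by omega)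
      omega
    · intro l i i' _ _ _ _ hne he
      split_ifs at he <;> omega
    · intro row
      rw [Span1_sum3]
      simp only [Nat.cast_one, Nat.cast_ofNat, if_true, show ¬ (2 = 1) by decide,
        show ¬ (3 = 1) by decide, if_false]
      by_cases hr : row < y0 + 1
      · have b1 := Span1_le (m := 1) (fun i => i = row) _ {row} (g1 (k + 1))
          (fun i _ h => by simp [h]) (by simp)
        have b2 := Span1_le (m := 0) (fun i => y0 + 1 + i = row) _ ∅ (g2 (k + 2))
          (fun i _ h => by omega) (by simp)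
        have b3 := Span1_le (m := 0) (fun i => y0 + 1 + i = row) _ ∅ (g3 (k + 3))
          (fun i _ h => by omega) (by simp)
        have b4 := card_mod_le2 N (y0 + 1) D row m3
        omega
      · have b1 := Span1_le (m := 0) (fun i => i = row) _ ∅ (g1 (k + 1))
          (fun i hi h => by have := hy (k + 1); omega) (by simp)
        have b2 := Span1_le (m := 1) (fun i => y0 + 1 + i = row) _ {row - (y0 + 1)} (g2 (k + 2))
          (fun i _ h => by rw [mem_singleton]; omega) (by simp)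
        have b3 := Span1_le (m := 1) (fun i => y0 + 1 + i = row) _ {row - (y0 + 1)} (g3 (k + 3))
          (fun i _ h => by rw [mem_singleton]; omega) (by simp)
        have b4 := Span1_zero (fun j : ZMod N => j.val % (y0 + 1) = row) fun j h => by
          have := Nat.mod_lt j.val (show 0 < y0 + 1 by omega)
          omega
        omega
  · refine coverB 3 (by norm_num) (by omega) y _ ε k hy3
      (fun l i => if l = 1 then i else if l = 2 then y0 + 1 + i else 2 * (y0 + 1) + i / 2)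
      (fun j => 2 * (y0 + 1) + j.val % ((y0 + 2) / 2)) ?_ ?_ ?_ ?_ (htot k)
    · intro l i _ _ hi
      have := hy (k + l)
      split_ifs <;> omega
    · intro j
      have := Nat.mod_lt j.val (show 0 < (y0 + 2) / 2 by omega)
      omega
    · intro l i i' _ _ _ _ hne he
      split_ifs at he
      · omega
      · omega
      · refine ⟨1, le_rfl, by omega, ?_⟩
        simp only [cl1, if_true]
        omega
    · intro row
      rw [Span1_sum3]
      simp only [Nat.cast_one, Nat.cast_ofNat, if_true, show ¬ (2 = 1) by decide,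
        show ¬ (3 = 1) by decide, show ¬ (3 = 2) by decide, if_false]
      by_cases hr : row < 2 * (y0 + 1)
      · have b3 := Span1_le (m := 0) (fun i => 2 * (y0 + 1) + i / 2 = row) _ ∅ (g3 (k + 3))
          (fun i _ h => by omega) (by simp)
        have b4 := Span1_zero (fun j : ZMod N => 2 * (y0 + 1) + j.val % ((y0 + 2) / 2) = row)
          fun j h => by omega
        by_cases hr2 : row < y0 + 1
        · have b1 := Span1_le (m := 1) (fun i => i = row) _ {row} (g1 (k + 1))
            (fun i _ h => by simp [h]) (by simp)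
          have b2 := Span1_le (m := 0) (fun i => y0 + 1 + i = row) _ ∅ (g2 (k + 2))
            (fun i _ h => by omega) (by simp)
          omega
        · have b1 := Span1_le (m := 0) (fun i => i = row) _ ∅ (g1 (k + 1))
            (fun i hi h => by have := hy (k + 1); omega) (by simp)
          have b2 := Span1_le (m := 1) (fun i => y0 + 1 + i = row) _ {row - (y0 + 1)} (g2 (k + 2))
            (fun i _ h => by rw [mem_singleton]; omega) (by simp)
          omega
      · have b1 := Span1_le (m := 0) (fun i => i = row) _ ∅ (g1 (k + 1))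
          (fun i hi h => by have := hy (k + 1); omega) (by simp)
        have b2 := Span1_le (m := 0) (fun i => y0 + 1 + i = row) _ ∅ (g2 (k + 2))
          (fun i hi h => by have := hy (k + 2); omega) (by simp)
        have b3 := Span1_le (m := 2) (fun i => 2 * (y0 + 1) + i / 2 = row) _
          {2 * (row - 2 * (y0 + 1)), 2 * (row - 2 * (y0 + 1)) + 1} (g3 (k + 3))
          (fun i _ h => by rw [mem_insert, mem_singleton]; omega) card_le_two
        have b4 : (univ.filter (fun j : ZMod N => 2 * (y0 + 1) + j.val % ((y0 + 2) / 2) = row)).card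
            ≤ D := by
          refine le_trans (card_le_card fun j hj => ?_)
            (card_mod_le2 N ((y0 + 2) / 2) D (row - 2 * (y0 + 1)) m3)
          have := (mem_filter.1 hj).2
          exact mem_filter.2 ⟨mem_univ _, by omega⟩
        omega

end Pool.Agent.Work.MP_f4b644_ag.Sl
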