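import Pool.Agent.Work.MP_f4b644_ag.Sl.Span0
import Pool.Agent.Work.MP_f4b644_ag.Sl.Span1
import Pool.Agent.Work.MP_f4b644_ag.Dag.Lem2
import Pool.Agent.Work.MP_f4b644_ag.Thin.Swap

/-!
Roots from the slice designs.
-/

set_option autoImplicit false

namespace Pool.Agent.Work.MP_f4b644_ag.Sl

open Big Multiset Big.Gad

theorem S_of_Spans {I J K s : ℕ} [NeZero I] (h : Spans I J K s) : S I J K (replicate s (T 0 0)) := by
  classical
  obtain ⟨P, a, b, c, hP, e⟩ := h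
  refine S_of_fam (fun _ : P => T 0 0) (by rw [map_univ_const, Fintype.card_coe, hP]) ?_
  refine Gen.equiv (ZMod.finEquiv I).toEquiv.symm (Equiv.refl _) (Equiv.refl _) ?_
  refine ⟨fun p => c p.1, fun p => a p.1, fun p => b p.1, ?_⟩
  let E : ZMod I × Fin J × Fin K ≃ Fin J × Fin K × ZMod I :=
    (Equiv.prodComm _ _).trans (Equiv.prodAssoc _ _ _)
  let L := LinearEquiv.funCongrLeft ℂ ℂ E
  have hL : ∀ (u : Fin J → ℂ) (v : Fin K → ℂ) (w : ZMod I → ℂ), L (tp u v w) = tp w u v := fun u v w => by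
    funext n
    change u n.2.1 * v n.2.2 * w n.1 = w n.1 * u n.2.1 * v n.2.2
    ring
  have : TS (P : Set (ZMod I × ℕ)) a b c ≤ ((fam (fun _ : P => T 0 0)).sp (fun p => c p.1) (fun p => a p.1)
      (fun p => b p.1)).comap L.toLinearMap := by
    refine Submodule.span_le.2 ?_
    rintro _ ⟨l, hl, ⟨u, rfl⟩ | ⟨u, rfl⟩ | ⟨u, rfl⟩⟩ <;>
      rw [SetLike.mem_coe, Submodule.mem_comap, LinearEquiv.coe_coe, hL]
    · exact Cfg.memB (X := fam (fun _ : P => T 0 0)) (a := fun p => c p.1) (b := fun p => a p.1)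
        (c := fun p => b p.1) (ia := (⟨l, hl⟩, 0)) (ic := (⟨l, hl⟩, 0)) ⟨rfl, rfl⟩ u
    · exact Cfg.memC (X := fam (fun _ : P => T 0 0)) (a := fun p => c p.1) (b := fun p => a p.1)
        (c := fun p => b p.1) (ia := (⟨l, hl⟩, 0)) (ib := (⟨l, hl⟩, 0)) ⟨rfl, le_rfl, rfl⟩ u
    · exact Cfg.memA (X := fam (fun _ : P => T 0 0)) (a := fun p => c p.1) (b := fun p => a p.1)
        (c := fun p => b p.1) (ib := (⟨l, hl⟩, 0)) (ic := (⟨l, hl⟩, 0)) ⟨rfl, rfl⟩ u
  rw [eq_top_iff]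
  rintro w -
  obtain ⟨w, rfl⟩ := L.surjective w
  exact this (e ▸ Submodule.mem_top)

/-- numerical condition for N slices, R rows, C columns, groups of size y or y + 1, cliques of size at most κ -/
def SLr (N R C y κ : ℕ) : Prop :=
  (R + C + cT κ < (κ - 1) * y + 2 ∧ 2 * (y + 1) ≤ R ∧
    (2 * (y + 1) + κ + 2 + 2 * ((N + (R - (y + 2))) / (R - (y + 1))) ≤ C ∨
      (2 * (y + 1) + κ ≤ R ∧ 2 * (y + 1) + 3 + 2 * ((N + (R - (y + 2))) / (R - (y + 1))) ≤ C))) ∨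
  ((R + C) / 2 + y / 2 + cT κ < (κ - 1) * (y / 2 + 1) ∧
    ((3 * (y + 1) ≤ R ∧ y + 1 + (y + 2) / 2 + κ + 2 ≤ C ∧
        y + 1 + (y + 2) / 2 + 2 + 2 * ((N + y) / (y + 1)) ≤ C) ∨
      (3 * (y + 1) + (y + 2) / 2 ≤ R ∧ y + 1 + (y + 2) / 2 + 2 ≤ C ∧
        y + 1 + 2 * κ + 2 + 2 * ((N + y / 2) / ((y + 2) / 2)) ≤ C)))

instance (N R C y κ : ℕ) : Decidable (SLr N R C y κ) := by unfold SLr; infer_instance

theorem le_cdiv (N n : ℕ) : N ≤ (N + n) / (n + 1) * (n + 1) := by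
  have := Nat.div_add_mod' (N + n) (n + 1)
  have : (N + n) % (n + 1) < n + 1 := Nat.mod_lt _ (Nat.succ_pos n)
  omega

theorem spans_of {N R C s κ : ℕ} [NeZero N] (hN : 8 ≤ N) (k1 : 4 ≤ κ) (k2 : κ ≤ 19) (h3 : 3 ≤ s / N)
    (hs : R * C * N + 2 * s ≤ s * (R + C + N)) (h : SLr N R C (s / N) κ) : Spans N R C s := by
  have hT := tab_cT κ k1 k2
  rcases h with ⟨a, b, c⟩ | ⟨a, ⟨b, c, d⟩ | ⟨b, c, d⟩⟩
  · refine span0 hT (by omega) hs h3 a b ?_ c
    have := le_cdiv N (R - (s / N + 2))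
    rwa [show R - (s / N + 2) + 1 = R - (s / N + 1) by omega] at this
  · exact span1 hT hN hs h3 a (Or.inl ⟨b, c, le_cdiv N _, d⟩)
  · refine span1 hT hN hs h3 a (Or.inr ⟨b, c, ?_, d⟩)
    have := le_cdiv N (s / N / 2)
    rwa [show s / N / 2 + 1 = (s / N + 2) / 2 by omega] at this

/-- the condition for the format I, J, K and r points -/
def SLc (I J K r κ : ℕ) : Prop :=
  8 ≤ I ∧ 4 ≤ κ ∧ κ ≤ 19 ∧ 3 ≤ r / I ∧ (SLr I J K (r / I) κ ∨ SLr I K J (r / I) κ)

instance (I J K r κ : ℕ) : Decidable (SLc I J K r κ) := by unfold SLc; infer_instance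

theorem S_slice {I J K r κ : ℕ} (h : SLc I J K r κ) (hs : I * J * K + 2 * r ≤ r * (I + J + K)) :
    S I J K (replicate r (T 0 0)) := by
  obtain ⟨h1, h2, h3, h4, h5⟩ := h
  have : NeZero I := ⟨by omega⟩
  rcases h5 with h5 | h5
  · exact S_of_Spans (spans_of h1 h2 h3 h4 (by linarith [mul_right_comm I J K]) h5)
  · have := S_of_Spans (spans_of h1 h2 h3 h4 (by nlinarith) h5)
    simpa using Thin.S_swap r 0 0 0 (by simpa using this)

theorem root_of_S {I J r : ℕ} (hI : 2 ≤ I) (hr : 1 ≤ r)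
    (h : ∀ K, K = r * (J + I - 2) / (I * J - r) → I * J * K + 2 * r ≤ r * (I + J + K) →
      S I J K (replicate r (T 0 0))) : Dag.Root I J r := by
  intro K hK hr
  obtain ⟨v, hv⟩ : ∃ v, I * J = r + v := ⟨I * J - r, by omega⟩
  have ev : I * J - r = v := by omega
  rw [ev] at h hK
  obtain ⟨n, hn⟩ := Nat.exists_eq_add_of_le ((Nat.le_div_iff_mul_le (show 0 < v by omega)).2 hK)
  have h1 := Nat.div_mul_le_self (r * (J + I - 2)) v
  obtain ⟨τ, hτ⟩ : ∃ τ, J + I = τ + 2 := ⟨J + I - 2, by omega⟩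
  have h2 := h _ rfl (by
    rw [show J + I - 2 = τ by omega] at h1 ⊢
    rw [hv, show I + J + r * τ / v = τ + 2 + r * τ / v by omega]
    nlinarith)
  obtain ⟨r, rfl⟩ : ∃ r', r = r' + 1 := ⟨r - 1, by omega⟩
  rw [hn] at h2
  exact Dag.S_proj n h2

theorem SLc.pos {I J K r κ : ℕ} (h : SLc I J K r κ) : 1 ≤ r := by
  have := h.2.2.2.1
  rcases Nat.eq_zero_or_pos r with h0 | h0
  · simp [h0] at this
  · exact h0

theorem root_slice {I J r κ : ℕ} (h : SLc I J (r * (J + I - 2) / (I * J - r)) r κ) : Dag.Root I J r :=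
  root_of_S (by have := h.1; omega) h.pos fun _ e hs => S_slice (e ▸ h) hs

theorem S_swapAB {I J K s : ℕ} (h : S I J K (replicate s (T 0 0))) : S J I K (replicate s (T 0 0)) := by
  obtain ⟨a, b, c, e⟩ := fam_of_S (fun _ : Fin s => T 0 0) (by rw [map_univ_const, Fintype.card_fin]) h
  refine S_of_fam (fun _ : Fin s => T 0 0) (by rw [map_univ_const, Fintype.card_fin]) ⟨b, a, c, ?_⟩
  let E : Fin J × Fin I × Fin K ≃ Fin I × Fin J × Fin K :=
    (Equiv.prodAssoc _ _ _).symm.trans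
      (((Equiv.prodComm _ _).prodCongr (Equiv.refl _)).trans (Equiv.prodAssoc _ _ _))
  let L := LinearEquiv.funCongrLeft ℂ ℂ E
  have hL : ∀ (u : Fin I → ℂ) (v : Fin J → ℂ) (w : Fin K → ℂ), L (tp u v w) = tp v u w := fun u v w => by
    funext n
    change u n.2.1 * v n.1 * w n.2.2 = v n.1 * u n.2.1 * w n.2.2
    ring
  have : (fam (fun _ : Fin s => T 0 0)).sp a b c ≤
      ((fam (fun _ : Fin s => T 0 0)).sp b a c).comap L.toLinearMap := by
    refine Cfg.sp_le (fun i j hq u => ?_) (fun i j hq u => ?_) (fun i j hq u => ?_)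
      (fun i j k hq => ?_) <;> rw [Submodule.mem_comap, LinearEquiv.coe_coe, hL]
    · exact Cfg.memB (X := fam (fun _ : Fin s => T 0 0)) hq _
    · exact Cfg.memA (X := fam (fun _ : Fin s => T 0 0)) hq _
    · obtain ⟨h1, h2, h3⟩ := hq
      exact Cfg.memC (X := fam (fun _ : Fin s => T 0 0)) ⟨h1.symm, h3.le, Nat.le_zero.1 h2⟩ _
    · obtain ⟨-, -, h1, h2, -⟩ := hq
      exact absurd (h1.trans_le h2) (lt_irrefl _)
  rw [eq_top_iff]
  rintro w -
  obtain ⟨w, rfl⟩ := L.surjective w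
  exact this (e ▸ Submodule.mem_top)

/-- slices along any of the three factors -/
def SLx (I J K r κ : ℕ) : Prop := SLc I J K r κ ∨ SLc J I K r κ ∨ SLc K I J r κ

instance (I J K r κ : ℕ) : Decidable (SLx I J K r κ) := by unfold SLx; infer_instance

theorem S_slicex {I J K r κ : ℕ} (h : SLx I J K r κ) (hs : I * J * K + 2 * r ≤ r * (I + J + K)) :
    S I J K (replicate r (T 0 0)) := by
  rcases h with h | h | h
  · exact S_slice h hs
  · exact S_swapAB (S_slice h (by nlinarith))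
  · have := S_swapAB (S_slice h (by nlinarith))
    simpa using Thin.S_swap r 0 0 0 (by simpa using this)

theorem root_slicex {I J r κ : ℕ} (hI : 2 ≤ I) (h : SLx I J (r * (J + I - 2) / (I * J - r)) r κ) :
    Dag.Root I J r :=
  root_of_S hI (by rcases h with h | h | h <;> exact h.pos) fun _ e hs => S_slicex (e ▸ h) hs

end Pool.Agent.Work.MP_f4b644_ag.Sl
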