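import Pool.Agent.Work.MP_f4b644_ag.Sl.CRoot
import Pool.Agent.Work.MP_f4b644_ag.Mid.L0

/-!
The block conditions with computed parameters. Hints: a (number of batch levels), e ∈ {0, 1} (m = a - e),
g ∈ {0, 1} (one side fibre or as many as possible).
-/

set_option autoImplicit false

namespace Pool.Agent.Work.MP_f4b644_ag.Sl

open Big Thin Multiset Big.Gad

/-- number of side fibres -/
def hF (y0 c0 δ e g : ℕ) : ℕ := max 1 (g * (c0 - ((y0 + 2) / 2 + 1 + (1 - e) * δ)))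

/-- size of the middle batches -/
def hM (y0 Y0 c0 δ f m e : ℕ) : ℕ :=
  max δ ((Y0 + 3 + e + δ + (y0 + 2) / 2 - (y0 + f + (2 + e) * c0) + (m - 2)) / (m - 1))

/-- number of rounds of moves -/
def hD (Z m y0 : ℕ) : ℕ := (Z + (m * y0 - 1)) / (m * y0)

/-- general block -/
def SBh (N C R B r a e g : ℕ) : Prop :=
  ∃ y0 Y0 c0 m δ f bm : ℕ, y0 = B / N ∧ Y0 = r / N ∧ c0 = C - (Y0 + 1) ∧ m = a - e ∧
    δ = hD (R + C + y0 + 2 * (y0 - c0) - 3) m y0 ∧ f = hF y0 c0 δ e g ∧ bm = hM y0 Y0 c0 δ f m e ∧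
    SBc N C R B r a m f δ bm

/-- block with r + B = N C -/
def STh (N C R B a e g : ℕ) : Prop :=
  ∃ y0 m δ f bm : ℕ, y0 = B / N ∧ m = a - e ∧ δ = hD (R + y0 - (1 + 2 * ((y0 + 1) / 2))) m y0 ∧
    f = hF y0 y0 δ e g ∧ bm = hM y0 (C - (y0 + 1)) y0 δ f m e ∧ STc N C R B a m f δ bm

theorem blkF_of_Blk {m J ω K f r : ℕ} (hJ : 1 ≤ J) (hr : r + (J + m + ω) = (m + 2) * J)
    (h : Blk (m + 2) J r K ((K * (J + m + ω) + (J + m - 1)) / (J + m))) : Mid.BlkF m J ω K f := by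
  have e : (K * (J + m + ω) + (J + m - 1)) / (J + m) = K + (ω * K + (J + m - 1)) / (J + m) := by
    rw [show K * (J + m + ω) + (J + m - 1) = ω * K + (J + m - 1) + K * (J + m) by ring,
      Nat.add_mul_div_right _ _ (by omega), add_comm]
  have e1 : (m + 2) * J = (m + 1) * J + J := by ring
  rw [e] at h
  intro hC
  refine ⟨Nat.zero_le _, by omega, by omega, S.of_eq ?_ h.2⟩
  generalize K + (ω * K + (J + m - 1)) / (J + m) = B at hC ⊢
  rw [show (m + 1) * J - (ω + m) - B - 0 - 2 * 0 = r - B by omega]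
  simp

/-- the exact block of width J + m -/
theorem blkF_ST {m J ω f r a m' f' δ bm : ℕ} (hJ : 1 ≤ J) (hr : r + (J + m + ω) = (m + 2) * J)
    (h : STc (m + 2) J (J + m) (J + m + ω) a m' f' δ bm ∨ STc J (m + 2) (J + m) (J + m + ω) a m' f' δ bm) :
    Mid.BlkF m J ω (J + m) f := by
  refine blkF_of_Blk hJ hr ?_
  rw [mul_comm (J + m), add_comm (_ * _), Nat.add_mul_div_right _ _ (by omega), Nat.div_eq_of_lt (by omega),
    zero_add]
  exact blk_ST h hr

/-- a block of width L with B = ⌈L v / τ⌉ tangents -/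
theorem blkF_SB {m J ω L B f r a m' f' δ bm : ℕ} (hJ : 1 ≤ J) (hr : r + (J + m + ω) = (m + 2) * J)
    (hB : B = (L * (J + m + ω) + (J + m - 1)) / (J + m))
    (h : SBc (m + 2) J L B r a m' f' δ bm ∨ SBc J (m + 2) L B r a m' f' δ bm) : Mid.BlkF m J ω L f := by
  subst hB
  exact blkF_of_Blk hJ hr (blk_last (by omega) (by omega) hr h)

/-- a root from a0 exact blocks and a last block -/
theorem root_SB {I J r τ v K a0 L B a e g a' e' g' : ℕ} (hI : 2 ≤ I) (hJ : 1 ≤ J) (hv : r + v = I * J)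
    (hτ : τ + 2 = I + J) (hK : K = r * τ / v) (hL : K = a0 * τ + L) (hB : B = (L * v + (τ - 1)) / τ)
    (H1 : STh I J τ v a e g ∨ STh J I τ v a e g)
    (H2 : L = 0 ∨ SBh I J L B r a' e' g' ∨ SBh J I L B r a' e' g') : Dag.Root I J r := by
  have h1 : Blk I J r τ v := by
    rcases H1 with ⟨_, _, _, _, _, -, -, -, -, -, h⟩ | ⟨_, _, _, _, _, -, -, -, -, -, h⟩
    · exact blk_ST (Or.inl h) hv
    · exact blk_ST (Or.inr h) hv
  have h0 : 1 ≤ v := by
    rcases H1 with ⟨_, _, _, _, _, -, -, -, -, -, h⟩ | ⟨_, _, _, _, _, -, -, -, -, -, h⟩ <;>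
    · have := h.1.2.2.2.2.1
      rcases Nat.eq_zero_or_pos v with h0 | h0
      · simp [h0] at this
      · exact h0
  refine root_blk hI hJ (h0.trans h1.1) (by omega) (by omega) hK hL h1 (H2.imp_right fun H => ?_)
  subst hB
  rcases H with ⟨_, _, _, _, _, _, _, -, -, -, -, -, -, -, h⟩ | ⟨_, _, _, _, _, _, _, -, -, -, -, -, -, -, h⟩
  · exact blk_last hτ (by omega) hv (Or.inl h)
  · exact blk_last hτ (by omega) hv (Or.inr h)

end Pool.Agent.Work.MP_f4b644_ag.Sl
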