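import Pool.Agent.Work.MP_f4b644_ag.Sl.CRoot
import Pool.Agent.Work.MP_f4b644_ag.Mid.Cond2

/-!
The conditions `TBc` and `LBc` of the box checker imply the conditions of the slice design.
-/

set_option autoImplicit false

namespace Pool.Agent.Work.MP_f4b644_ag.Sl

open Mid

theorem Box_lev {a e m : ℕ} (e1 : m = a - e) (h1 : e ≤ 1) (h2 : e + 1 ≤ a) :
    a - m = e ∧ m + 1 - a = 1 - e ∧ 1 ≤ m ∧ m ≤ a ∧ a ≤ m + 1 := by omega

theorem TBc_stc {N C R v a e z fc d tb ts : ℕ} (H : TBc N C R v a e z fc d tb ts) (h1 : C ≤ R + 2)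
    (h2 : R + 2 ≤ C + N) : ∃ m f bm, STc N C R v a m f d bm := by
  obtain ⟨m, g, md, bm, w, c, u, sm, e1, e2, e3, -, e5, e6, e7, e8, c1, c2, c3, c4, c5, c6, c7⟩ := H
  obtain ⟨l1, l2, l3, l4, l5⟩ := Box_lev e1 c1 c2
  obtain ⟨f, f1, f2, f3, f4, f5⟩ : ∃ f, 1 ≤ f ∧ c + 1 + w + 2 * f + d ≤ C - (c + 1) ∧
      C - (c + 1) + 3 + e + d + (c + 2) / 2 ≤ c + f + w + (2 + e) * c ∧ (c + 2) / 2 + f + g + 1 ≤ c ∧
      R + c ≤ md * c + f + 2 * u := by
    generalize md * c = x at c6 ⊢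
    simp only [add_mul] at c6 ⊢
    clear * - c6 e7
    rcases c6 with ⟨-, k1, k2, k3, k4⟩ | ⟨-, k0, k1, k2, k3, k4⟩
    · exact ⟨u - (2 + g), by omega, by omega, by omega, by omega, by omega⟩
    · exact ⟨fc, k0, by omega, by omega, by omega, by omega⟩
  refine ⟨m, f, bm, ?_⟩
  unfold STc STg SBk
  rw [← e6, ← e5, l1, l2, ← e2, ← e3, ← e7]
  refine ⟨⟨c3, l3, l4, l5, (Nat.le_add_left 1 (d + 2)).trans c4, f1, f2, f3, c5, c4, f4,
    c7.imp_right fun h => ⟨h.1, ?_⟩⟩, h1, h2, f5, c7.imp_right fun ⟨k1, k2⟩ => ⟨?_, Or.inl ?_⟩⟩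
  · rcases h.2 with k | ⟨k, k1, -⟩
    · clear * - k
      omega
    · have : d ≠ 0 := fun h0 => by simp [h0] at e8; omega
      clear * - k this
      omega
  · rcases k2 with k | ⟨k, k3, k4⟩
    · exact Or.inl (by clear * - k; omega)
    by_cases q : d + bm + 1 ≤ c
    · exact Or.inl q
    right
    rw [show c - 1 - bm = d - 1 by clear * - k q; omega, ← e8]
    obtain ⟨s, rfl⟩ := Nat.exists_eq_add_of_le' k3
    rw [Nat.add_sub_cancel] at k4
    rw [mul_add, mul_add]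
    clear * - k4
    omega
  · clear * - k2
    omega

theorem Box_c {N C v r : ℕ} (hN : 0 < N) (hv : 1 ≤ v) (h : r + v = N * C) :
    C = r / N + 1 + (v - 1) / N := by
  have h1 := Nat.div_add_mod (v - 1) N
  have h2 := Nat.mod_lt (v - 1) hN
  generalize (v - 1) / N = q at *
  obtain ⟨p, rfl⟩ : ∃ p, C = p + 1 + q := by
    refine ⟨C - 1 - q, ?_⟩
    have : N * q < N * C := by omega
    have := Nat.lt_of_mul_lt_mul_left this
    omega
  have : r / N = p := by
    rw [mul_add, mul_add, mul_one] at h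
    exact (Nat.div_eq_iff hN).2 (by rw [mul_comm p N]; omega)
  omega

theorem Box_row {N R v L B n : ℕ} (hR : 1 ≤ R) (hB : B * R ≤ L * v + (R - 1))
    (h : (4 * N + n) * R ≤ L * (N * R - n * v)) : n * B + 4 * N ≤ L * N := by
  refine Nat.le_of_mul_le_mul_right ?_ hR
  have h1 : n * (B * R) ≤ n * (L * v + R) := Nat.mul_le_mul_left _ (by omega)
  rcases Nat.le_total (n * v) (N * R) with c | c
  · obtain ⟨x, hx⟩ := Nat.exists_eq_add_of_le c
    rw [hx, Nat.add_sub_cancel_left] at h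
    have : L * N * R = L * (n * v) + L * x := by rw [mul_assoc, hx, mul_add]
    nlinarith
  · rw [Nat.sub_eq_zero_of_le c, mul_zero] at h
    have h2 : 4 * N + n = 0 := by
      by_contra h3
      have := Nat.mul_pos (Nat.pos_of_ne_zero h3) hR
      omega
    obtain rfl : n = 0 := by omega
    obtain rfl : N = 0 := by omega
    simp

theorem Box_mov {N R v L B X n : ℕ} (hN : 0 < N) (hR : 1 ≤ R) (hB : L * v ≤ B * R)
    (h : N * R * (X + (n + 1)) ≤ L * (n * v - N * R)) : L + X ≤ n * (B / N) := by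
  have h0 : B ≤ N * (B / N + 1) := (Nat.lt_mul_div_succ B hN).le
  generalize B / N = y at *
  have hW : 0 < N * R := Nat.mul_pos hN hR
  rcases Nat.le_total (N * R) (n * v) with c | c
  · obtain ⟨x, hx⟩ := Nat.exists_eq_add_of_le c
    rw [hx, Nat.add_sub_cancel_left] at h
    refine Nat.le_of_mul_le_mul_left ?_ hW
    have h1 : n * (L * v) ≤ n * (N * (y + 1) * R) :=
      Nat.mul_le_mul_left _ (hB.trans (Nat.mul_le_mul_right _ h0))
    have h2 : n * (L * v) = L * (N * R) + L * x := by rw [← mul_add, ← hx]; ring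
    nlinarith
  · rw [Nat.sub_eq_zero_of_le c, mul_zero] at h
    have := Nat.mul_pos hW (show 0 < X + (n + 1) by omega)
    omega

theorem Box_inc {y c w A s x : ℕ} (hs : 3 ≤ s) (h1 : A ≤ y * (s - 1) + (w + 1))
    (h2 : A ≤ y * (s - 3) + (2 * c + (w + 1))) (hx : x + c + w + 1 = A + (c - y) + (y - c) + 3 * y) :
    x ≤ y * (s + 1) := by
  obtain ⟨t, rfl⟩ := Nat.exists_eq_add_of_le' hs
  rw [show t + 3 - 1 = t + 2 by omega, mul_add] at h1
  rw [Nat.add_sub_cancel] at h2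
  rw [add_assoc, mul_add]
  omega

theorem LBc_sbc {N C R v L B r a e z fc d tb ts : ℕ} (H : LBc N C R v L B a e z fc d tb ts) (hR : 1 ≤ R)
    (hr : r + v = N * C) (hB : B = (L * v + (R - 1)) / R) : ∃ m f bm, SBc N C L B r a m f d bm := by
  obtain ⟨m, g, md, bm, w, c, y, h, u, W, ng, A, AL, x1, x2, sm, sn, e1, e2, e3, -, e5, e6, e7, e8, e9, rfl, e11,
    e12, rfl, rfl, rfl, e16, rfl, c1, c2, c3, c4, c5, c6, c7, c8, c9, c10⟩ := H
  obtain ⟨l1, l2, l3, l4, l5⟩ := Box_lev e1 c1 c2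
  have hN : 0 < N := by clear * - c4; omega
  have hv : 1 ≤ v := by
    rcases Nat.eq_zero_or_pos v with h0 | h0
    · simp [h0] at e6
      omega
    · exact h0
  have hC := Box_c hN hv hr
  rw [← e6] at hC
  obtain ⟨Y0, eY⟩ : ∃ Y0, Y0 = r / N := ⟨_, rfl⟩
  rw [← eY] at hC
  have b1 : B * R ≤ L * v + (R - 1) := hB ▸ Nat.div_mul_le_self _ _
  have b2 : L * v ≤ B * R := by
    obtain ⟨σ, rfl⟩ := Nat.exists_eq_add_of_le' hR
    rw [hB, Nat.add_sub_cancel]
    exact le_cdiv _ _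
  have hmd : 1 ≤ md := e3 ▸ Nat.mul_pos l3 c3
  obtain ⟨f, f1, f2, f3, f4⟩ : ∃ f, 1 ≤ f ∧ y + 1 + w + 2 * f + d ≤ Y0 ∧
      Y0 + 3 + e + d + (y + 2) / 2 ≤ y + f + w + (2 + e) * c ∧ (y + 2) / 2 + f + g + 1 ≤ c := by
    simp only [add_mul] at c8 ⊢
    clear * - c8 e8 e9 hC
    rcases c8 with ⟨-, k1, k2, k3⟩ | ⟨-, k0, k1, k2, k3⟩
    · exact ⟨c - (h + g + 2), by omega, by omega, by omega, by omega⟩
    · exact ⟨fc, k0, by omega, by omega, by omega⟩
  have hb : m ≤ 1 ∨ (d ≤ bm ∧ bm + 1 ≤ c) := c10.imp_right fun k => ⟨k.1, by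
    rcases k.2 with q | ⟨q, -⟩
    · clear * - q
      omega
    · by_contra q'
      rw [e16, Nat.sub_eq_zero_of_le (by clear * - q'; omega), zero_mul] at q
      omega⟩
  refine ⟨m, f, bm, ?_⟩
  unfold SBc SBg SBk
  rw [← e7, ← eY, show C - (Y0 + 1) = c by clear * - hC; omega, ← e5, l1, l2, ← e2, ← e3, ← e11]
  refine ⟨⟨c4, l3, l4, l5, c6, f1, f2, f3, c7.elim id (Box_row hR b1), c5, f4, hb⟩,
    by clear * - hC; omega, ?_, ?_⟩
  · obtain ⟨n, rfl⟩ := Nat.exists_eq_add_of_le' hmd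
    rw [Nat.add_sub_cancel] at c9
    rw [add_mul, one_mul]
    rcases c9 with k | k
    · clear * - k
      omega
    · have := Box_mov hN hR b2 k
      rw [← e7] at this
      clear * - this
      omega
  rcases hb with hb | hb
  · exact Or.inl hb
  refine c10.imp_right fun ⟨_, k⟩ => ?_
  rcases k with k | ⟨k1, k2, k3, k4⟩
  · exact ⟨Or.inl (by clear * - k; omega), Or.inl (by clear * - k; omega)⟩
  obtain ⟨V, eV⟩ : ∃ V, V = bm + (c - y) + (y - c) + (Y0 - (w + 1)) + 3 * y := ⟨_, rfl⟩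
  have h1 : B % N ≤ N := (Nat.mod_lt B hN).le
  have h2 : r ≤ N * (Y0 + 1) := by
    rw [eY]
    exact (Nat.lt_mul_div_succ r hN).le
  have h3 : L * r ≤ L * (N * (Y0 + 1)) := Nat.mul_le_mul_left _ h2
  have h4 : bm * (N - 1) + (C - 2 + (y - c) - w) * (B % N) + (y - c) * (N - B % N) + 2 * N * y ≤ N * V := by
    have a1 : bm * (N - 1) ≤ bm * N := Nat.mul_le_mul_left _ (Nat.sub_le _ _)
    have a2 : (C - 2 + (y - c) - w) * (B % N) ≤ (c - y + (Y0 - (w + 1)) + y) * N :=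
      Nat.mul_le_mul (by clear * - hC f2; omega) h1
    have a3 : (y - c) * (N - B % N) ≤ (y - c) * N := Nat.mul_le_mul_left _ (Nat.sub_le _ _)
    rw [eV]
    simp only [add_mul, mul_comm N] at a2 ⊢
    clear * - a1 a2 a3
    linarith
  generalize bm * (N - 1) + (C - 2 + (y - c) - w) * (B % N) + (y - c) * (N - B % N) + 2 * N * y = W at h4 ⊢
  rw [Nat.sub_sub, add_comm 1 bm,
    show c - bm = c - (bm + 1) + 1 by clear * - hb; omega, add_mul, one_mul, ← e16]
  refine ⟨Or.inr ?_, k4.imp (fun g => by clear * - g; omega) fun g => ?_⟩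
  · have := Nat.mul_le_mul_left N (Box_inc (x := md + V + 1) k1 k2 k3 (by clear * - eV e12 hC f2; omega))
    rw [mul_add, mul_add] at this
    clear * - this h3 h4
    omega
  · have := Nat.mul_le_mul_left N (Box_inc (x := md + V + L + 1) (k1.trans (Nat.le_add_right _ _)) g.1 g.2
      (by clear * - eV e12 hC f2; omega))
    rw [mul_add, mul_add, mul_add, mul_comm N L] at this
    rw [mul_add N, mul_add L, mul_one] at h3
    clear * - this h3 h4
    omega

end Pool.Agent.Work.MP_f4b644_ag.Sl
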