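import Pool.Agent.Work.MP_f4b644_ag.Sl.CDefs
import Pool.Agent.Work.MP_f4b644_ag.Sl.Root

/-!
From the slice configuration to blocks, and from blocks to roots.
-/

set_option autoImplicit false

namespace Pool.Agent.Work.MP_f4b644_ag.Sl

open Big Multiset Big.Gad

theorem Blk_of_SpansC {I J K B r : ℕ} [NeZero I] (h : SpansC I K J B r) : Blk I J r K B := by
  classical
  obtain ⟨y, Y, hB, hr, hy, a, b, c, e⟩ := h
  have hsub : Pts y ⊆ Pts Y := fun p hp => mem_Pts.2 ((mem_Pts.1 hp).trans_le (hy _))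
  have hBr : B ≤ r := hB ▸ hr ▸ Finset.sum_le_sum fun k _ => hy k
  let g : ↥(Pts y) ⊕ ↥(Pts Y \ Pts y) → Gad := Sum.elim (fun _ => T 0 0) (fun _ => CP 1)
  let π : (↥(Pts y) ⊕ ↥(Pts Y \ Pts y)) × ℕ → ZMod I × ℕ := fun p => Sum.elim (↑) (↑) p.1
  refine ⟨hBr, S_of_fam g (by
    rw [map_univ_sum, map_univ_const, map_univ_const, Fintype.card_coe, Fintype.card_coe,
      Finset.card_sdiff_of_subset hsub, card_Pts, card_Pts, hB, hr]) ?_⟩
  refine Gen.equiv (ZMod.finEquiv I).toEquiv.symm (Equiv.refl _) (Equiv.refl _) ?_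
  refine ⟨fun p => c (π p), fun p => b (π p), fun p => a (π p), ?_⟩
  let E : ZMod I × Fin J × Fin K ≃ Fin K × Fin J × ZMod I :=
    ⟨fun n => (n.2.2, n.2.1, n.1), fun n => (n.2.2, n.2.1, n.1), fun _ => rfl, fun _ => rfl⟩
  let L := LinearEquiv.funCongrLeft ℂ ℂ E
  have hL : ∀ (u : Fin K → ℂ) (v : Fin J → ℂ) (w : ZMod I → ℂ), L (tp u v w) = tp w v u := fun u v w => by
    funext n
    change u n.2.2 * v n.2.1 * w n.1 = w n.1 * v n.2.1 * u n.2.2
    ring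
  have : (cfgC y Y).sp a b c ≤ ((fam g).sp (fun p => c (π p)) (fun p => b (π p))
      (fun p => a (π p))).comap L.toLinearMap := by
    refine Cfg.sp_le (fun i j hq u => ?_) (fun i j hq u => ?_) (fun i j hq u => ?_)
      (fun i j k hq => hq.elim) <;> rw [Submodule.mem_comap, LinearEquiv.coe_coe, hL] <;>
      obtain ⟨rfl, hq⟩ : j = i ∧ _ := hq
    · by_cases h1 : j ∈ Pts y
      · exact Cfg.memC (X := fam g) (a := fun p => c (π p)) (b := fun p => b (π p)) (c := fun p => a (π p))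
          (ia := (Sum.inl ⟨j, h1⟩, 0)) (ib := (Sum.inl ⟨j, h1⟩, 0)) ⟨rfl, le_rfl, rfl⟩ u
      · have h2 : j ∈ Pts Y \ Pts y := Finset.mem_sdiff.2 ⟨mem_Pts.2 hq, h1⟩
        exact Cfg.memC (X := fam g) (a := fun p => c (π p)) (b := fun p => b (π p)) (c := fun p => a (π p))
          (ia := (Sum.inr ⟨j, h2⟩, 0)) (ib := (Sum.inr ⟨j, h2⟩, 0)) ⟨rfl, Nat.one_pos, rfl⟩ u
    · exact Cfg.memB (X := fam g) (a := fun p => c (π p)) (b := fun p => b (π p)) (c := fun p => a (π p))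
        (ia := (Sum.inl ⟨j, mem_Pts.2 hq⟩, 0)) (ic := (Sum.inl ⟨j, mem_Pts.2 hq⟩, 0)) ⟨rfl, rfl⟩ u
    · exact Cfg.memA (X := fam g) (a := fun p => c (π p)) (b := fun p => b (π p)) (c := fun p => a (π p))
        (ib := (Sum.inl ⟨j, mem_Pts.2 hq⟩, 0)) (ic := (Sum.inl ⟨j, mem_Pts.2 hq⟩, 0)) ⟨rfl, rfl⟩ u
  rw [eq_top_iff]
  rintro w -
  obtain ⟨w, rfl⟩ := L.surjective w
  exact this (e ▸ Submodule.mem_top)

theorem Blk_swap {I J r K B : ℕ} (h : Blk I J r K B) : Blk J I r K B := by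
  let g : Fin B ⊕ Fin (r - B) → Gad := Sum.elim (fun _ => T 0 0) (fun _ => CP 1)
  have hg : Finset.univ.val.map g = replicate B (T 0 0) + replicate (r - B) (CP 1) := by
    rw [map_univ_sum, map_univ_const, map_univ_const, Fintype.card_fin, Fintype.card_fin]
  obtain ⟨a, b, c, e⟩ := fam_of_S g hg.ge h.2
  refine ⟨h.1, S_of_fam g hg.le ⟨b, a, c, ?_⟩⟩
  let E : Fin J × Fin I × Fin K ≃ Fin I × Fin J × Fin K :=
    ⟨fun n => (n.2.1, n.1, n.2.2), fun n => (n.2.1, n.1, n.2.2), fun _ => rfl, fun _ => rfl⟩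
  let L := LinearEquiv.funCongrLeft ℂ ℂ E
  have hL : ∀ (u : Fin I → ℂ) (v : Fin J → ℂ) (w : Fin K → ℂ), L (tp u v w) = tp v u w := fun u v w => by
    funext n
    change u n.2.1 * v n.1 * w n.2.2 = v n.1 * u n.2.1 * w n.2.2
    ring
  have : (fam g).sp a b c ≤ ((fam g).sp b a c).comap L.toLinearMap := by
    refine Cfg.sp_le ?_ ?_ ?_ ?_
    · rintro ⟨i, n⟩ ⟨j, n'⟩ ⟨(rfl : j = i), hq⟩ u
      rcases j with j | j
      · rw [Submodule.mem_comap, LinearEquiv.coe_coe, hL]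
        exact Cfg.memB (X := fam g) (ia := (Sum.inl j, n)) (ic := (Sum.inl j, n')) ⟨rfl, hq⟩ _
      · exact hq.elim
    · rintro ⟨i, n⟩ ⟨j, n'⟩ ⟨(rfl : j = i), hq⟩ u
      rcases j with j | j
      · rw [Submodule.mem_comap, LinearEquiv.coe_coe, hL]
        exact Cfg.memA (X := fam g) (ib := (Sum.inl j, n)) (ic := (Sum.inl j, n')) ⟨rfl, hq⟩ _
      · exact hq.elim
    · rintro ⟨i, n⟩ ⟨j, n'⟩ ⟨(rfl : j = i), hq⟩ u
      rw [Submodule.mem_comap, LinearEquiv.coe_coe, hL]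
      rcases j with j | j
      · exact Cfg.memC (X := fam g) (ia := (Sum.inl j, n')) (ib := (Sum.inl j, n))
          ⟨rfl, hq.2.le, Nat.le_zero.1 hq.1⟩ _
      · exact Cfg.memC (X := fam g) (ia := (Sum.inr j, n')) (ib := (Sum.inr j, n))
          ⟨rfl, Nat.lt_one_iff.2 hq.2, Nat.lt_one_iff.1 hq.1⟩ _
    · rintro ⟨i | i, n⟩ j k ⟨-, -, hq⟩
      · exact absurd (hq.1.trans_le hq.2.1) (lt_irrefl _)
      · exact hq.elim
  rw [eq_top_iff]
  rintro w -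
  obtain ⟨w, rfl⟩ := L.surjective w
  exact this (e ▸ Submodule.mem_top)

/-- a root is a sum of `a` exact blocks and a last block -/
theorem root_blk {I J r a τ v K L : ℕ} (hI : 2 ≤ I) (hJ : 1 ≤ J) (hr : 1 ≤ r) (hτ : τ = J + I - 2)
    (hv : v = I * J - r) (hK : K = r * τ / v) (hL : K = a * τ + L) (H1 : Blk I J r τ v)
    (H2 : L = 0 ∨ Blk I J r L ((L * v + (τ - 1)) / τ)) : Dag.Root I J r := by
  refine root_of_S hI hr fun K' e _ => ?_
  obtain rfl : K = K' := by rw [hK, e, hτ, hv]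
  have h0 : 0 < τ := by omega
  have h1 : K * v ≤ r * τ := hK ▸ Nat.div_mul_le_self _ _
  have h2 := Nat.div_mul_le_self (L * v + (τ - 1)) τ
  have h3 : a * v + (L * v + (τ - 1)) / τ ≤ r := by
    refine Nat.lt_succ_iff.1 (lt_of_mul_lt_mul_right (a := τ) ?_ (Nat.zero_le _))
    obtain ⟨σ, rfl⟩ : ∃ σ, τ = σ + 1 := ⟨τ - 1, by omega⟩
    rw [hL] at h1
    simp only [Nat.add_sub_cancel, Nat.succ_eq_add_one] at h2 ⊢
    nlinarith
  rw [hL]
  refine (Blk.mul a h3 H1 ?_).toS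
  rcases H2 with rfl | H2
  · rw [zero_mul, zero_add, Nat.div_eq_of_lt (by omega)]
    exact Blk.zero I J r
  · exact H2

end Pool.Agent.Work.MP_f4b644_ag.Sl
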