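import Pool.Agent.Work.MP_f4b644_ag.Sl.CDefs
import Pool.Agent.Work.MP_f4b644_ag.Sl.Cover

/-!
The cover condition; a simpler version of `coverB` (Sl/Cover.lean, reuse its lemmas if possible), no gadget.
n = R - y k; the row of (k, i) is n + i, the row of (k + l, i) is ρ l i for 1 ≤ l ≤ L (the k + l, l ≤ L, are distinct),
the tangents of the other groups are free singles, distributed by `exists_pack`. Columns of the row r < n: Gs Y k, for
every (l, i) with i < y (k + l), ρ l i = r the columns (k + l, j) with j = i or (j < Y (k + l) and Sep l i j); these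
sets are disjoint by hinj; and the free singles. If y k > R the statement hρ is still what is needed: use R > 0 from
hR and i < y k ≤ R.
-/

set_option autoImplicit false

namespace Pool.Agent.Work.MP_f4b644_ag.Sl

open Finset Classical

theorem coverC {N : ℕ} [NeZero N] {R C : ℕ} (L : ℕ) (hN : L + 1 ≤ N) (y Y : ZMod N → ℕ)
    (cl : ZMod N → ℕ → ℕ → ℕ) (k : ZMod N) (hy : ∀ j, y j ≤ Y j) (hR : y k < R) (ρ : ℕ → ℕ → ℕ)
    (hρ : ∀ l i : ℕ, 1 ≤ l → l ≤ L → i < y (k + l) → ρ l i + y k < R)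
    (hinj : ∀ l i i' : ℕ, 1 ≤ l → l ≤ L → i < y (k + l) → i' < y (k + l) → i ≠ i' → ρ l i = ρ l i' →
      ∃ l', 1 ≤ l' ∧ l' < l ∧ cl (k + l) l' i ≠ cl (k + l) l' i')
    (hload : ∀ row : ℕ, Y k + ∑ l ∈ Icc 1 L, ∑ i ∈ (range (y (k + l))).filter (fun i => ρ l i = row),
      (tk (cl (k + l)) (Y (k + l)) l i + 1) ≤ C)
    (htot : (R - y k) * (C - Y k) + y k ≤
      ∑ l ∈ Icc 1 L, ∑ i ∈ range (y (k + l)), tk (cl (k + l)) (Y (k + l)) l i + ∑ j, y j) :
    Cover (α := Fin R) C (Gs y k : Set _) (Gs Y k : Set _) (EC L y Y cl k) := by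
  set n := R - y k with hn
  have dl : ∀ l, l ≤ L → Cover_d k (k + l) = l := fun l h => Cover_d1 k (by omega)
  have dk : Cover_d k k = 0 := (Cover_d0 k).2 rfl
  let Sg := (Pts y).filter fun q => L < Cover_d k q.1
  let Ix : Finset (Σ _ : ℕ, ℕ) := (Icc 1 L).sigma fun l => range (y (k + l))
  let pb : (Σ _ : ℕ, ℕ) → Finset (ZMod N × ℕ) := fun x =>
    {k + x.1} ×ˢ insert x.2 ((range (Y (k + x.1))).filter fun j => Sep (cl (k + x.1)) x.1 x.2 j)
  let PB : ℕ → Finset (ZMod N × ℕ) := fun r => (Ix.filter fun x => ρ x.1 x.2 = r).biUnion pb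
  have mI : ∀ x, x ∈ Ix ↔ (1 ≤ x.1 ∧ x.1 ≤ L) ∧ x.2 < y (k + x.1) := fun x => by
    simp only [Ix, mem_sigma, mem_Icc, mem_range]
  have mp : ∀ x q, q ∈ pb x ↔ q.1 = k + x.1 ∧ (q.2 = x.2 ∨ q.2 < Y (k + x.1) ∧
      Sep (cl (k + x.1)) x.1 x.2 q.2) := fun x q => by
    simp only [pb, mem_product, mem_singleton, mem_insert, mem_filter, mem_range]
  have cp : ∀ x, (pb x).card = tk (cl (k + x.1)) (Y (k + x.1)) x.1 x.2 + 1 := fun x => by
    simp only [pb, card_product, card_singleton, one_mul, tk]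
    exact card_insert_of_notMem fun h => (mem_filter.1 h).2.2 rfl
  have nS : ∀ q : ZMod N × ℕ, Cover_d k q.1 ≤ L → q ∉ Sg := fun q h hq =>
    h.not_gt (mem_filter.1 hq).2
  have cB : ∀ r, (PB r).card = ∑ x ∈ Ix.filter fun x => ρ x.1 x.2 = r,
      (tk (cl (k + x.1)) (Y (k + x.1)) x.1 x.2 + 1) := fun r => by
    rw [card_biUnion, sum_congr rfl fun x _ => cp x]
    rintro ⟨l, i⟩ hx ⟨l', i'⟩ hx' hne
    obtain ⟨hx, e⟩ := mem_filter.1 hx
    obtain ⟨hx', e'⟩ := mem_filter.1 hx'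
    rw [mI] at hx hx'
    refine disjoint_left.2 fun q hq hq' => ?_
    rw [mp] at hq hq'
    obtain rfl : l = l' := by rw [← dl l hx.1.2, ← dl l' hx'.1.2, ← hq.1, ← hq'.1]
    obtain ⟨m, h1, h2, h3⟩ := hinj l i i' hx.1.1 hx.1.2 hx.2 hx'.2 (fun c => hne (by rw [c]))
      (e.trans e'.symm)
    exact h3 ((hq.2.elim (fun c => congrArg _ c.symm) fun c => c.2.1 m h1 h2).trans
      (hq'.2.elim (fun c => congrArg _ c) fun c => (c.2.1 m h1 h2).symm))
  refine Cover_abs (n := n) (by omega) _ _ Sg _ PB (fun v => Cover_bs k n ρ v.1 v.2)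
    (fun r hr h => ?_) (fun r q hq => ?_) (fun q hq => ?_) (fun r => ?_) ?_
  · exact ⟨(k, r - n), mem_coe.2 (mem_Gs.2 ⟨rfl, by dsimp only; omega⟩),
      nS _ (dk.trans_le L.zero_le), (if_pos dk).trans (Nat.add_sub_cancel' h)⟩
  · obtain ⟨⟨l, i⟩, hx, h⟩ := mem_biUnion.1 hq
    obtain ⟨hx, e⟩ := mem_filter.1 hx
    obtain ⟨⟨a1, a2⟩, a3⟩ := (mI _).1 hx
    obtain ⟨g, j⟩ := q
    obtain ⟨a4, a5⟩ := (mp _ _).1 h
    dsimp only at e a1 a2 a3 a4 a5
    subst a4
    have a6 := dl l a2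
    refine ⟨fun h => ?_, nS _ (a6.trans_le a2), (k + l, i), ?_, nS _ (a6.trans_le a2), ?_⟩
    · rw [show k + l = k from (mem_Gs.1 h).1, dk] at a6
      omega
    · rcases a5 with rfl | a5
      · exact ⟨a3.trans_le (hy _), Or.inl ⟨rfl, a3⟩⟩
      · exact ⟨a5.1, Or.inr ⟨l, a1, a2, rfl, rfl, a3, a5.2⟩⟩
    · dsimp only
      rw [Cover_bs, a6, if_neg (by omega), e]
  · obtain ⟨a1, a2⟩ := mem_filter.1 hq
    refine ⟨fun h => ?_, (mem_Pts.1 a1).trans_le (hy _), Or.inl ⟨rfl, mem_Pts.1 a1⟩⟩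
    rw [(mem_Gs.1 h).1, dk] at a2
    omega
  · have h4 := hload r
    rw [card_Gs, cB]
    simp only [sum_filter] at h4 ⊢
    rwa [sum_sigma]
  · have s1 := sum_fiberwise_of_maps_to (s := Ix) (t := range n) (g := fun x => ρ x.1 x.2)
      (fun x hx => by
        have := hρ x.1 x.2 ((mI x).1 hx).1.1 ((mI x).1 hx).1.2 ((mI x).1 hx).2
        exact mem_range.2 (by omega)) fun x => tk (cl (k + x.1)) (Y (k + x.1)) x.1 x.2 + 1
    have s4 : ∑ j, y j ≤ Sg.card + Ix.card + y k := by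
      have hs : Pts y ⊆ Sg ∪ Ix.image (fun x => (k + x.1, x.2)) ∪ Gs y k := fun q hq => by
        simp only [mem_union, mem_Gs, mem_image]
        by_cases a : L < Cover_d k q.1
        · exact Or.inl (Or.inl (mem_filter.2 ⟨hq, a⟩))
        by_cases b : q.1 = k
        · exact Or.inr ⟨b, b ▸ mem_Pts.1 hq⟩
        refine Or.inl (Or.inr ⟨⟨Cover_d k q.1, q.2⟩, (mI _).2 ⟨⟨Nat.pos_of_ne_zero
          ((Cover_d0 k).not.2 b), not_lt.1 a⟩, ?_⟩, ?_⟩) <;> dsimp only <;> rw [Cover_d2]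
        exact mem_Pts.1 hq
      rw [← card_Pts, ← card_Gs y k]
      exact (card_le_card hs).trans ((card_union_le _ _).trans (Nat.add_le_add_right
        ((card_union_le _ _).trans (Nat.add_le_add_left card_image_le _)) _))
    rw [sum_add_distrib, ← card_eq_sum_ones, sum_sigma] at s1
    dsimp only at s1
    rw [card_Gs, sum_congr rfl fun r _ => cB r, s1]
    omega

end Pool.Agent.Work.MP_f4b644_ag.Sl
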