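import Pool.Agent.Work.MP_f4b644_ag.Sl.Defs
import Pool.Agent.Work.MP_f4b644_ag.Big.Basic

/-!
Slices for blocks with fibres. The group g consists of the points (g, j), j < Y g; those with j < y g are tangents
(row vertex, column and single), the others are fibres in the row direction (a column only).
Levels of a group: 1, …, a separate batches of fibres from everything else (θ l is the number of batch fibres of level
at most l), a + 1 separates the last batch and the two parities (each parity has f side fibres), a + 2 separates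
everything except that every tangent i < t keeps one partner, a + 3 separates the partners.
-/

set_option autoImplicit false

namespace Pool.Agent.Work.MP_f4b644_ag.Sl

open Finset Classical

/-- edges available in the slice `k` -/
def EC {N : ℕ} (L : ℕ) (y Y : ZMod N → ℕ) (cl : ZMod N → ℕ → ℕ → ℕ) (k : ZMod N) (v q : ZMod N × ℕ) : Prop :=
  q.2 < Y q.1 ∧ ((v = q ∧ q.2 < y q.1) ∨ ∃ l : ℕ, 1 ≤ l ∧ l ≤ L ∧ q.1 = k + (l : ZMod N) ∧ v.1 = q.1 ∧
    v.2 < y q.1 ∧ Sep (cl q.1) l v.2 q.2)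

/-- tangents and fibres -/
def cfgC {N : ℕ} (y Y : ZMod N → ℕ) : Big.Cfg (ZMod N × ℕ) where
  fA := {q | q.2 = q.1 ∧ q.1.2 < Y q.1.1}
  fB := {q | q.2 = q.1 ∧ q.1.2 < y q.1.1}
  fC := {q | q.2 = q.1 ∧ q.1.2 < y q.1.1}
  pt := ∅

/-- spanning of `ℂ^R ⊗ ℂ^C ⊗ ℂ^N` by `B` tangent spaces and `r - B` fibres in the first direction -/
def SpansC (N R C B r : ℕ) [NeZero N] : Prop :=
  ∃ y Y : ZMod N → ℕ, ∑ k, y k = B ∧ ∑ k, Y k = r ∧ (∀ k, y k ≤ Y k) ∧
    Big.Gen (Fin R) (Fin C) (ZMod N) (cfgC y Y)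

/-- the levels of a group -/
def clC (a y f t : ℕ) (θ : ℕ → ℕ) (l j : ℕ) : ℕ :=
  if l ≤ a then (if y + 2 * f ≤ j ∧ j < y + 2 * f + θ l then 1 else 0)
  else if l = a + 1 then (if y + 2 * f ≤ j then 2 else j % 2)
  else if l = a + 2 then (if j < t then j / 4 else
    if (j = y ∨ j = y + 1) ∧ (t + 1 - j % 2) / 2 % 2 = 1 then (t + 1 - j % 2) / 4 else j)
  else j

/-- the weights of the levels -/
def wC (a m f y0 b1 bm bl β : ℕ) (l : ℕ) : ℕ :=
  if l = 1 then b1 else if l ≤ m then bm else if l ≤ a then bl else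
    if l = a + 1 then β + f + 2 * ((y0 + 1) / 2) else f + 2 * (y0 / 2)

/-- the balance of the slices -/
def FlC {N : ℕ} (R C B T y0 Y0 : ℕ) (w : ℕ → ℕ) (y Y z : ZMod N → ℕ) : Prop :=
  ∀ k, (R - y k) * (C - Y k) + y k + z k + y0 * y0 + y0 ≤ ∑ l ∈ Icc 1 T, w l * y (k + l) +
    y (k + 1) * (Y (k + 1) + y0 + 1 - Y0 - y (k + 1)) + z (k + 1) + B

end Pool.Agent.Work.MP_f4b644_ag.Sl
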