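import Pool.Agent.Work.MP_f4b644_ag.Sl.CDefs
import Pool.Agent.Work.MP_f4b644_ag.Sl.Flux

/-!
Group sizes and transfers for blocks. For n : ℕ put yn n = (n + 1) B / N - n B / N, ρ n = n B % N; both are N-periodic,
N yn n + ρ (n + 1) = B + ρ n, so y k = yn k.val satisfies y (k + l) = yn (k.val + l) for l : ℕ and
N ∑ l < n, y (k + l) = n B + ρ k.val - ρ (k.val + n). The same for Y, r, σ n = n r % N.
E k = y k (Y k + y0 + 1 - Y0 - y k) ∈ [0, 2 y0], and y Y = E + y (Y0 + y0) - y0 (y0 + 1) for y ∈ {y0, y0 + 1}.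
In ℤ: G k = R σ k + (c0 - y0) ρ k + ∑ l ∈ Icc 1 T, w l ρ (k + l) - N E k, neg = y0 - c0 (truncated),
lo = - 2 N y0 - neg (N - 1) ≤ G k ≤ (N - 1) (R + C - 2 + neg), z k = (G k - lo) / N.
G (k + 1) - G k = R (r - N Y k) + (c0 - y0) (B - N y k) + ∑ w l (B - N y (k + l)) + N (E k - E (k + 1)) = N d k + A
where d k is the left side minus the right side of FlC without z, and A = R r + (C + N - 2) B - N R C ≥ 0; hence
z (k + 1) ≥ z k + d k. Upper bound: B - N y ∈ [B % N - N, B % N], the terms 2 ≤ l ≤ m telescope to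
bm (ρ (k + m + 1) - ρ (k + 2)) ≤ bm (N - 1), and N z (k + 1) ≤ G (k + 1) - lo < N z k + N + (G (k + 1) - G k).

`fluxT`: Y k = C - y (k + s), c0 = y0, G k = G0 k - N E k, G0 k = - R ρ (k + s) + ∑ w l ρ (k + l), A = B (C + N - 2 - R).
For all g, g': G0 g - G0 g' ≤ N (R - w s): with u = ρ (g + s), u' = ρ (g' + s) the difference ρ (g + l) - ρ (g' + l) is
congruent to u - u' modulo N, so it is ≤ u - u' if u ≥ u' and ≤ u - u' + N otherwise, and the sum of the w l, l ≠ s,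
is C - 2 - w s ≤ R - w s. Take lo = min G0 - 2 N y0. If Y k = Y0 + 1 then y (k + s) = y0 and
G (k + 1) - G k ≤ - R (B % N) + (C - 2) (B % N) + 2 N y0 ≤ 2 N y0.

`movesC`: S X = ∑ l ∈ Icc 1 m, (X + l - 1) / m * u l satisfies S (X + 1) = S X + u (m - X % m) (only l = m - X % m changes),
so y0 X ≤ S X ≤ (y0 + 1) X; take the largest X ≤ m δ with S X ≤ z (`Nat.findGreatest`, or induction on the bound).
-/

set_option autoImplicit false

namespace Pool.Agent.Work.MP_f4b644_ag.Sl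

open Finset

/-- the balanced cyclic sequence with sum `B` -/
theorem CFlux_seq (N : ℕ) [NeZero N] (B : ℕ) : ∃ y ρ : ZMod N → ℕ, (∀ k, ρ k < N) ∧
    (∀ k, N * y k + ρ (k + 1) = B + ρ k) ∧ (∀ k, B / N ≤ y k ∧ y k ≤ B / N + 1) ∧ ∑ k, y k = B ∧
    ∀ k (n : ℕ), N * ∑ l ∈ range n, y (k + l) + ρ (k + n) = n * B + ρ k := by
  have hN := NeZero.pos N
  let ρ : ZMod N → ℕ := fun k => (k * B).val
  have h0 : ∀ k, ρ k < N := fun k => ZMod.val_lt _
  have h1 : ∀ k, N * ((ρ k + B) / N) + ρ (k + 1) = B + ρ k := fun k => by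
    have e : ρ (k + 1) = (ρ k + B) % N := by
      simp only [ρ]
      rw [add_mul, one_mul, ZMod.val_add, ZMod.val_natCast, Nat.add_mod_mod]
    rw [e, Nat.div_add_mod, add_comm]
  refine ⟨fun k => (ρ k + B) / N, ρ, h0, h1, fun k => ⟨Nat.div_le_div_right (Nat.le_add_left _ _), ?_⟩,
    ?_, fun k n => ?_⟩
  · rw [← Nat.add_div_right _ hN]
    exact Nat.div_le_div_right (by have := h0 k; omega)
  · have e := sum_congr (s₁ := univ) rfl fun k _ => h1 k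
    rw [sum_add_distrib, sum_add_distrib, ← mul_sum, sum_const, card_univ, ZMod.card, smul_eq_mul,
      Equiv.sum_comp (Equiv.addRight (1 : ZMod N)) ρ |> (show ∑ k, ρ (k + 1) = ∑ k, ρ k from ·)] at e
    exact Nat.eq_of_mul_eq_mul_left hN (Nat.add_right_cancel e)
  · induction n with
    | zero => simp
    | succ n ih =>
      have := h1 (k + n)
      rw [sum_range_succ, Nat.cast_add_one, ← add_assoc, mul_add, add_mul]
      beta_reduce at ih ⊢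
      omega

theorem CFlux_z {N : ℕ} [NeZero N] (G : ZMod N → ℤ) (lo : ℤ) (h : ∀ k, lo ≤ G k) :
    ∃ z : ZMod N → ℕ, ∀ k, (N : ℤ) * z k ≤ G k - lo ∧ G k - lo < N * z k + N := by
  have hN : (0 : ℤ) < N := by exact_mod_cast NeZero.pos N
  refine ⟨fun k => ((G k - lo) / N).toNat, fun k => ?_⟩
  rw [Int.toNat_of_nonneg (Int.ediv_nonneg (sub_nonneg.2 (h k)) hN.le)]
  have h1 := Int.mul_ediv_add_emod (G k - lo) N
  have h2 := Int.emod_nonneg (G k - lo) hN.ne'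
  have h3 := Int.emod_lt_of_pos (G k - lo) hN
  constructor <;> linarith

theorem CFlux_E {y Y y0 Y0 : ℕ} (h0 : 1 ≤ y0) (hy : y0 ≤ y ∧ y ≤ y0 + 1) (hY : Y0 ≤ Y ∧ Y ≤ Y0 + 1) :
    0 ≤ (y : ℤ) * (Y + y0 + 1 - Y0 - y) ∧ (y : ℤ) * (Y + y0 + 1 - Y0 - y) ≤ 2 * y0 := by
  have h1 : (1 : ℤ) ≤ y0 := by exact_mod_cast h0
  obtain rfl | rfl : y = y0 ∨ y = y0 + 1 := by omega
  all_goals obtain rfl | rfl : Y = Y0 ∨ Y = Y0 + 1 := by omega
  all_goals push_cast; constructor <;> nlinarith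

theorem CFlux_fl {N : ℕ} [NeZero N] {R C B T y0 Y0 : ℕ} {w : ℕ → ℕ} {y Y z : ZMod N → ℕ}
    (hy : ∀ k, y0 ≤ y k ∧ y k ≤ y0 + 1) (hY : ∀ k, Y0 ≤ Y k ∧ Y k ≤ Y0 + 1) (hR : y0 + 1 ≤ R)
    (hC : Y0 + 1 ≤ C) {G E : ZMod N → ℤ} {lo : ℤ}
    (hE : ∀ k, E k = y k * (Y k + y0 + 1 - Y0 - y k))
    (hz : ∀ k, (N : ℤ) * z k ≤ G k - lo ∧ G k - lo < N * z k + N)
    (hG : ∀ k, N * (R * C - R * Y k - (C - Y0 - y0 - 1) * y k + E k - E (k + 1) -
      ∑ l ∈ Icc 1 T, (w l : ℤ) * y (k + l) - B) ≤ G (k + 1) - G k) :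
    FlC R C B T y0 Y0 w y Y z := by
  intro k
  have hN : (0 : ℤ) < N := by exact_mod_cast NeZero.pos N
  have h1 := hy k
  have h2 := hY k
  have h3 := hy (k + 1)
  have h4 := hY (k + 1)
  have h5 : (z k : ℤ) + (R * C - R * Y k - (C - Y0 - y0 - 1) * y k + E k - E (k + 1) -
      ∑ l ∈ Icc 1 T, (w l : ℤ) * y (k + l) - B) < z (k + 1) + 1 :=
    lt_of_mul_lt_mul_left (by linarith [(hz k).1, (hz (k + 1)).2, hG k]) hN.le
  have h6 : ((y k : ℤ) - y0) * (y k - y0 - 1) = 0 := by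
    obtain e | e : y k = y0 ∨ y k = y0 + 1 := by omega
    all_goals rw [e]; push_cast; ring
  rw [hE, hE] at h5
  zify [show y k ≤ R by omega, show Y k ≤ C by omega, show Y0 ≤ Y (k + 1) + y0 + 1 by omega,
    show y (k + 1) ≤ Y (k + 1) + y0 + 1 - Y0 by omega]
  linarith

theorem CFlux_beta {N B y : ℕ} (hy : B / N ≤ y ∧ y ≤ B / N + 1) :
    (B : ℤ) - N * y ≤ (B % N : ℕ) ∧ (B % N : ℕ) - N ≤ (B : ℤ) - N * y := by
  have h1 : (N : ℤ) * (B / N : ℕ) + (B % N : ℕ) = B := by exact_mod_cast Nat.div_add_mod B N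
  have h2 : (0 : ℤ) ≤ N := Int.natCast_nonneg N
  obtain rfl | rfl : y = B / N ∨ y = B / N + 1 := by omega
  · constructor <;> linarith
  · rw [Nat.cast_add_one]
    constructor <;> linarith

theorem CFlux_step {N : ℕ} {B T : ℕ} {w : ℕ → ℕ} {y ρ : ZMod N → ℕ}
    (h : ∀ k, N * y k + ρ (k + 1) = B + ρ k) (k : ZMod N) :
    ∑ l ∈ Icc 1 T, (w l : ℤ) * ρ (k + 1 + l) - ∑ l ∈ Icc 1 T, (w l : ℤ) * ρ (k + l) =
      (∑ l ∈ Icc 1 T, w l : ℕ) * B - N * ∑ l ∈ Icc 1 T, (w l : ℤ) * y (k + l) := by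
  rw [Nat.cast_sum, sum_mul, mul_sum, ← sum_sub_distrib, ← sum_sub_distrib]
  refine sum_congr rfl fun l _ => ?_
  have e : (N : ℤ) * y (k + l) + ρ (k + l + 1) = B + ρ (k + l) := by exact_mod_cast h (k + l)
  rw [add_right_comm]
  linear_combination (w l : ℤ) * e

theorem fluxC {N : ℕ} [NeZero N] (hN : 2 ≤ N) (R C B r T m bm y0 Y0 c0 : ℕ) (w : ℕ → ℕ) (e1 : y0 = B / N)
    (e2 : Y0 = r / N) (hC : C = Y0 + 1 + c0) (hy0 : 1 ≤ y0) (hR : y0 + 1 ≤ R) (hyY : y0 + 1 ≤ Y0)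
    (hs : R * C * N + 2 * B ≤ R * r + (C + N) * B) (hw : ∑ l ∈ Icc 1 T, w l + 1 = Y0 + y0) (hm : m ≤ T)
    (hbm : ∀ l, 2 ≤ l → l ≤ m → w l = bm) :
    ∃ y Y z : ZMod N → ℕ, ∑ k, y k = B ∧ ∑ k, Y k = r ∧ (∀ k, y0 ≤ y k ∧ y k ≤ y0 + 1) ∧
      (∀ k, Y0 ≤ Y k ∧ Y k ≤ Y0 + 1) ∧ (∀ k (n : ℕ), N * ∑ l ∈ range n, y (k + l) < n * B + N) ∧
      (∀ k, z k + 3 ≤ R + C + 2 * y0 + 2 * (y0 - c0)) ∧ FlC R C B T y0 Y0 w y Y z ∧
      ∀ k, N * z (k + 1) + R * (N * Y k) + 1 ≤ N * z k + R * r + N + (bm * (N - 1) +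
        (C - 2 + (y0 - c0) - (m - 1) * bm) * (B % N) + (y0 - c0) * (N - B % N) + 2 * N * y0) := by
  subst e1 e2
  obtain ⟨y, ρ, a0, a1, a2, a3, a4⟩ := CFlux_seq N B
  obtain ⟨Y, σ, b0, b1, b2, b3, -⟩ := CFlux_seq N r
  have hNz : (2 : ℤ) ≤ N := by exact_mod_cast hN
  generalize hy : B / N = y0 at *
  generalize r / N = Y0 at *
  obtain ⟨E, hE⟩ : ∃ E : ZMod N → ℤ, ∀ k, E k = y k * (Y k + y0 + 1 - Y0 - y k) := ⟨_, fun _ => rfl⟩
  have hE' : ∀ k, 0 ≤ N * E k ∧ N * E k ≤ N * (2 * y0) := fun k => by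
    have := CFlux_E hy0 (a2 k) (b2 k)
    rw [← hE] at this
    exact ⟨mul_nonneg (by linarith) this.1, mul_le_mul_of_nonneg_left this.2 (by linarith)⟩
  obtain ⟨ng, hng⟩ : ∃ ng, ng = y0 - c0 := ⟨_, rfl⟩
  obtain ⟨ps, hps⟩ : ∃ ps, c0 + ng = y0 + ps := ⟨c0 - y0, by omega⟩
  have hps' : (c0 : ℤ) + ng = y0 + ps := by exact_mod_cast hps
  have hC' : (C : ℤ) = Y0 + 1 + c0 := by exact_mod_cast hC
  have hw' : ((∑ l ∈ Icc 1 T, w l : ℕ) : ℤ) + 1 = Y0 + y0 := by exact_mod_cast hw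
  have r0 : ∀ k, (0 : ℤ) ≤ ρ k ∧ (ρ k : ℤ) ≤ N - 1 := fun k => by have := a0 k; omega
  have s0 : ∀ k, (0 : ℤ) ≤ σ k ∧ (σ k : ℤ) ≤ N - 1 := fun k => by have := b0 k; omega
  obtain ⟨G, hG⟩ : ∃ G : ZMod N → ℤ, ∀ k, G k = R * σ k + ps * ρ k - ng * ρ k +
    ∑ l ∈ Icc 1 T, (w l : ℤ) * ρ (k + l) - N * E k := ⟨_, fun _ => rfl⟩
  have hS : ∀ k : ZMod N, 0 ≤ ∑ l ∈ Icc 1 T, (w l : ℤ) * ρ (k + l) ∧
      ∑ l ∈ Icc 1 T, (w l : ℤ) * ρ (k + l) ≤ (∑ l ∈ Icc 1 T, w l : ℕ) * (N - 1) := fun k => by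
    refine ⟨sum_nonneg fun l _ => by positivity, ?_⟩
    rw [Nat.cast_sum, sum_mul]
    exact sum_le_sum fun l _ => mul_le_mul_of_nonneg_left (r0 _).2 (Int.natCast_nonneg _)
  have m1 : ∀ (c : ℕ) {x : ℤ}, 0 ≤ x ∧ x ≤ N - 1 → 0 ≤ c * x ∧ c * x ≤ c * (N - 1) := fun c x hx =>
    ⟨mul_nonneg (Int.natCast_nonneg _) hx.1, mul_le_mul_of_nonneg_left hx.2 (Int.natCast_nonneg _)⟩
  obtain ⟨z, hz⟩ := CFlux_z G (-(N * (2 * y0)) - ng * (N - 1)) fun k => by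
    rw [hG]
    linarith [(m1 R (s0 k)).1, (m1 ps (r0 k)).1, (m1 ng (r0 k)).2, (hS k).1, (hE' k).2]
  have hD : ∀ k, G (k + 1) - G k = R * (r - N * Y k) + (ps - ng) * (B - N * y k) +
      ((∑ l ∈ Icc 1 T, w l : ℕ) * B - N * ∑ l ∈ Icc 1 T, (w l : ℤ) * y (k + l)) +
      N * (E k - E (k + 1)) := fun k => by
    have c1 : (N : ℤ) * y k + ρ (k + 1) = B + ρ k := by exact_mod_cast a1 k
    have c2 : (N : ℤ) * Y k + σ (k + 1) = r + σ k := by exact_mod_cast b1 k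
    rw [hG, hG, ← CFlux_step a1 k]
    linear_combination (R : ℤ) * c2 + ((ps : ℤ) - ng) * c1
  refine ⟨y, Y, z, a3, b3, a2, b2, fun k n => ?_, fun k => ?_,
    CFlux_fl a2 b2 hR (by omega) hE hz fun k => ?_, fun k => ?_⟩
  · have := a4 k n
    have := a0 k
    omega
  · have c1 := (hz k).1
    rw [hG] at c1
    have c2 : (1 : ℤ) ≤ R := by omega
    have c3 : (N : ℤ) * z k < N * (R + C - 2 + 2 * ng + 2 * y0) := by
      have c4 : ((∑ l ∈ Icc 1 T, w l : ℕ) : ℤ) = C - 2 + ng - ps := by linarith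
      have c5 := (hS k).2
      rw [c4] at c5
      have c6 : (0 : ℤ) ≤ C - 2 + 2 * ng := by omega
      linarith [(m1 R (s0 k)).2, (m1 ps (r0 k)).2, (m1 ng (r0 k)).1, (hE' k).1]
    have := lt_of_mul_lt_mul_left c3 (by linarith)
    omega
  · have hs' : (R : ℤ) * C * N + 2 * B ≤ R * r + (C + N) * B := by exact_mod_cast hs
    have c4 : ((∑ l ∈ Icc 1 T, w l : ℕ) : ℤ) = C - 2 + ng - ps := by linarith
    have c5 : (C : ℤ) - Y0 - y0 - 1 = ps - ng := by linarith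
    rw [hD, c4, c5]
    linarith
  · have hsub : Icc 2 m ⊆ Icc 1 T := Icc_subset_Icc (by omega) hm
    have hβ := fun k => CFlux_beta (N := N) (B := B) (y := y k) (hy ▸ a2 k)
    have c1 : ∑ l ∈ Icc 1 T \ Icc 2 m, w l + (m - 1) * bm = ∑ l ∈ Icc 1 T, w l := by
      rw [← sum_sdiff hsub, sum_congr rfl fun l hl => hbm l (mem_Icc.1 hl).1 (mem_Icc.1 hl).2,
        sum_const, Nat.card_Icc, smul_eq_mul]
      rfl
    have c2 : C - 2 + ng - (m - 1) * bm = ∑ l ∈ Icc 1 T \ Icc 2 m, w l + ps := by omega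
    have c3 : ∑ l ∈ Icc 2 m, ((B : ℤ) - N * y (k + l)) ≤ N - 1 := by
      rcases Nat.eq_zero_or_pos m with rfl | hm0
      · simp only [show Icc 2 0 = ∅ from rfl, sum_empty]
        linarith
      · have e : ∀ n : ℕ, ∑ l ∈ Icc 2 (n + 1), ((B : ℤ) - N * y (k + l)) =
            ρ (k + (n + 2 : ℕ)) - ρ (k + (2 : ℕ)) := by
          intro n
          induction n with
          | zero => simp
          | succ n ih =>
            have c : (N : ℤ) * y (k + (n + 2 : ℕ)) + ρ (k + (n + 2 : ℕ) + 1) =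
                B + ρ (k + (n + 2 : ℕ)) := by exact_mod_cast a1 _
            rw [sum_Icc_succ_top (by omega), ih, show n + 1 + 2 = n + 2 + 1 from rfl,
              Nat.cast_add_one (n + 2), ← add_assoc k]
            linarith
        obtain ⟨n, rfl⟩ : ∃ n, m = n + 1 := ⟨m - 1, by omega⟩
        rw [e]
        linarith [(r0 (k + (n + 2 : ℕ))).2, (r0 (k + (2 : ℕ))).1]
    have c4 : (∑ l ∈ Icc 1 T, w l : ℕ) * (B : ℤ) - N * ∑ l ∈ Icc 1 T, (w l : ℤ) * y (k + l) ≤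
        (∑ l ∈ Icc 1 T \ Icc 2 m, w l : ℕ) * (B % N : ℕ) + bm * (N - 1) := by
      have e : (∑ l ∈ Icc 1 T, w l : ℕ) * (B : ℤ) - N * ∑ l ∈ Icc 1 T, (w l : ℤ) * y (k + l) =
          ∑ l ∈ Icc 1 T, (w l : ℤ) * (B - N * y (k + l)) := by
        rw [Nat.cast_sum, sum_mul, mul_sum, ← sum_sub_distrib]
        exact sum_congr rfl fun l _ => by ring
      rw [e, ← sum_sdiff hsub, Nat.cast_sum, sum_mul]
      refine add_le_add (sum_le_sum fun l _ =>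
        mul_le_mul_of_nonneg_left (hβ _).1 (Int.natCast_nonneg _)) ?_
      rw [sum_congr rfl fun l hl => by rw [hbm l (mem_Icc.1 hl).1 (mem_Icc.1 hl).2], ← mul_sum]
      exact mul_le_mul_of_nonneg_left c3 (Int.natCast_nonneg _)
    have c5 := mul_le_mul_of_nonneg_left (hβ k).1 (Int.natCast_nonneg ps)
    have c6 := mul_le_mul_of_nonneg_left (hβ k).2 (Int.natCast_nonneg ng)
    have c7 := hD k
    have c8 : B % N ≤ N := (Nat.mod_lt _ (by omega)).le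
    rw [← hng, c2]
    generalize B % N = β at *
    generalize ∑ l ∈ Icc 1 T \ Icc 2 m, w l = W at *
    zify [c8, show 1 ≤ N by omega]
    linarith [(hz k).2, (hz (k + 1)).1, (hE' k).2, (hE' (k + 1)).1]

theorem fluxT {N : ℕ} [NeZero N] (hN : 2 ≤ N) (R C B T s y0 Y0 : ℕ) (w : ℕ → ℕ) (e1 : y0 = B / N)
    (hC : C = Y0 + 1 + y0) (hy0 : 1 ≤ y0) (hyY : y0 + 1 ≤ Y0) (hR1 : C ≤ R + 2) (hR2 : R + 2 ≤ C + N)
    (hw : ∑ l ∈ Icc 1 T, w l + 1 = Y0 + y0) (hs1 : 1 ≤ s) (hs2 : s ≤ T) :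
    ∃ y Y z : ZMod N → ℕ, ∑ k, y k = B ∧ ∑ k, Y k + B = N * C ∧ (∀ k, y0 ≤ y k ∧ y k ≤ y0 + 1) ∧
      (∀ k, Y0 ≤ Y k ∧ Y k ≤ Y0 + 1) ∧ (∀ k (n : ℕ), N * ∑ l ∈ range n, y (k + l) < n * B + N) ∧
      (∀ k, z k + w s ≤ R + 2 * y0) ∧ FlC R C B T y0 Y0 w y Y z ∧
      ∀ k, Y k = Y0 + 1 → z (k + 1) ≤ z k + 2 * y0 := by
  subst e1
  obtain ⟨y, ρ, a0, a1, a2, a3, a4⟩ := CFlux_seq N B
  have hNz : (2 : ℤ) ≤ N := by exact_mod_cast hN
  generalize hy : B / N = y0 at *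
  obtain ⟨Y, hY⟩ : ∃ Y : ZMod N → ℕ, ∀ k, Y k + y (k + s) = C :=
    ⟨fun k => C - y (k + s), fun k => Nat.sub_add_cancel (by have := a2 (k + s); omega)⟩
  have b2 : ∀ k, Y0 ≤ Y k ∧ Y k ≤ Y0 + 1 := fun k => by
    have := a2 (k + s)
    have := hY k
    omega
  obtain ⟨E, hE⟩ : ∃ E : ZMod N → ℤ, ∀ k, E k = y k * (Y k + y0 + 1 - Y0 - y k) := ⟨_, fun _ => rfl⟩
  have hE' : ∀ k, 0 ≤ N * E k ∧ N * E k ≤ N * (2 * y0) := fun k => by
    have := CFlux_E hy0 (a2 k) (b2 k)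
    rw [← hE] at this
    exact ⟨mul_nonneg (by linarith) this.1, mul_le_mul_of_nonneg_left this.2 (by linarith)⟩
  have hw' : ((∑ l ∈ Icc 1 T, w l : ℕ) : ℤ) = C - 2 := by omega
  have r0 : ∀ k, (0 : ℤ) ≤ ρ k ∧ (ρ k : ℤ) ≤ N - 1 := fun k => by have := a0 k; omega
  obtain ⟨G0, hG0⟩ : ∃ G0 : ZMod N → ℤ, ∀ k, G0 k =
    ∑ l ∈ Icc 1 T, (w l : ℤ) * ρ (k + l) - R * ρ (k + s) := ⟨_, fun _ => rfl⟩
  have hs : s ∈ Icc 1 T := mem_Icc.2 ⟨hs1, hs2⟩
  have hcg : ∀ g g' (l : ℕ), (N : ℤ) ∣ (ρ (g + l) - ρ (g' + l)) - (ρ g - ρ g') := fun g g' l => by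
    have c1 : (N : ℤ) * (∑ l ∈ range l, y (g + l) : ℕ) + ρ (g + l) = l * B + ρ g := by
      exact_mod_cast a4 g l
    have c2 : (N : ℤ) * (∑ l ∈ range l, y (g' + l) : ℕ) + ρ (g' + l) = l * B + ρ g' := by
      exact_mod_cast a4 g' l
    exact ⟨(∑ l ∈ range l, y (g' + l) : ℕ) - (∑ l ∈ range l, y (g + l) : ℕ), by
      linear_combination c1 - c2⟩
  have hd : ∀ g g', G0 g - G0 g' ≤ N * (R - w s) := fun g g' => by
    obtain ⟨δ, hδ⟩ : ∃ δ : ℤ, δ = ρ (g + s) - ρ (g' + s) := ⟨_, rfl⟩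
    have d0 : -(N : ℤ) < δ := by linarith [(r0 (g + s)).1, (r0 (g' + s)).2]
    have c1 : ∀ (l : ℕ) (x : ℤ), 0 ≤ x → (N : ℤ) ∣ x - δ → (ρ (g + l) : ℤ) - ρ (g' + l) ≤ x := by
      intro l x h1 h2
      have h3 : (N : ℤ) ∣ (ρ (g + l) - ρ (g' + l)) - x := by
        obtain ⟨p1, q1⟩ := hcg g g' l
        obtain ⟨p2, q2⟩ := hcg g g' s
        obtain ⟨p3, q3⟩ := h2
        exact ⟨p1 - p2 - p3, by linear_combination q1 - q2 - q3 - hδ⟩
      by_contra hc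
      have := Int.le_of_dvd (by linarith) h3
      linarith [(r0 (g + l)).2, (r0 (g' + l)).1]
    have c2 : ∀ x : ℤ, 0 ≤ x → (N : ℤ) ∣ x - δ →
        G0 g - G0 g' ≤ (C - 2 - w s) * x + (w s - R) * δ := by
      intro x h1 h2
      have c3 : ((∑ l ∈ (Icc 1 T).erase s, w l : ℕ) : ℤ) = C - 2 - w s := by
        have := sum_erase_add (Icc 1 T) w hs
        omega
      have c4 : ∑ l ∈ (Icc 1 T).erase s, (w l : ℤ) * ρ (g + l) -
          ∑ l ∈ (Icc 1 T).erase s, (w l : ℤ) * ρ (g' + l) ≤ (C - 2 - w s) * x := by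
        rw [← c3, Nat.cast_sum, sum_mul, ← sum_sub_distrib]
        refine sum_le_sum fun l _ => ?_
        rw [← mul_sub]
        exact mul_le_mul_of_nonneg_left (c1 l x h1 h2) (Int.natCast_nonneg _)
      rw [hG0, hG0, ← sum_erase_add _ _ hs, ← sum_erase_add _ _ hs, hδ]
      linarith
    have c5 : (w s : ℤ) ≤ C - 2 := by
      have := single_le_sum (f := w) (fun _ _ => Nat.zero_le _) hs
      omega
    have c6 : (C : ℤ) - 2 ≤ R := by omega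
    rcases le_total 0 δ with h | h
    · have := c2 δ h (by simp)
      nlinarith
    · have := c2 (δ + N) (by linarith) (by simp)
      nlinarith
  obtain ⟨g0, -, hg0⟩ := exists_min_image univ G0 univ_nonempty
  obtain ⟨z, hz⟩ := CFlux_z (fun k => G0 k - N * E k) (G0 g0 - N * (2 * y0)) fun k => by
    linarith [hg0 k (mem_univ _), (hE' k).2]
  have hD : ∀ k, G0 (k + 1) - G0 k = ((C - 2) * B - N * ∑ l ∈ Icc 1 T, (w l : ℤ) * y (k + l)) -
      R * (B - N * y (k + s)) := fun k => by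
    have c1 : (N : ℤ) * y (k + s) + ρ (k + s + 1) = B + ρ (k + s) := by exact_mod_cast a1 (k + s)
    rw [hG0, hG0, ← hw', ← CFlux_step a1 k, add_right_comm k 1 s]
    linear_combination -(R : ℤ) * c1
  refine ⟨y, Y, z, a3, ?_, a2, b2, fun k n => ?_, fun k => ?_,
    CFlux_fl a2 b2 (by omega) (by omega) hE hz fun k => ?_, fun k hk => ?_⟩
  · rw [← a3, ← Equiv.sum_comp (Equiv.addRight (s : ZMod N)) y, ← sum_add_distrib]
    simp [hY]
  · have := a4 k n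
    have := a0 k
    omega
  · have c1 : (N : ℤ) * z k ≤ N * (R - w s + 2 * y0) := by linarith [(hz k).1, hd k g0, (hE' k).1]
    have := le_of_mul_le_mul_left c1 (by linarith)
    omega
  · have c1 : (Y k : ℤ) = C - y (k + s) := by have := hY k; omega
    have c2 : (C : ℤ) - Y0 - y0 - 1 = 0 := by omega
    have c3 : 0 ≤ ((C : ℤ) + N - 2 - R) * B := mul_nonneg (by omega) (Int.natCast_nonneg _)
    rw [c1, c2]
    linarith [hD k]
  · have hβ := fun k => CFlux_beta (N := N) (B := B) (y := y k) (hy ▸ a2 k)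
    have c1 : (N : ℤ) * (B / N : ℕ) + (B % N : ℕ) = B := by exact_mod_cast Nat.div_add_mod B N
    have c2 : y (k + s) = y0 := by have := hY k; omega
    have c3 : ((C : ℤ) - 2) * B - N * ∑ l ∈ Icc 1 T, (w l : ℤ) * y (k + l) ≤
        (C - 2) * (B % N : ℕ) := by
      rw [← hw', Nat.cast_sum, sum_mul, sum_mul, mul_sum, ← sum_sub_distrib]
      refine sum_le_sum fun l _ => ?_
      linarith [mul_le_mul_of_nonneg_left (hβ (k + l)).1 (Int.natCast_nonneg (w l))]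
    have c4 : 0 ≤ ((R : ℤ) + 2 - C) * (B % N : ℕ) := mul_nonneg (by omega) (Int.natCast_nonneg _)
    have c5 := hD k
    rw [hy] at c1
    rw [c2, show (B : ℤ) - N * y0 = (B % N : ℕ) by linarith] at c5
    have c6 : (N : ℤ) * z (k + 1) < N * (z k + 2 * y0 + 1) := by
      linarith [(hz k).2, (hz (k + 1)).1, (hE' k).2, (hE' (k + 1)).1]
    have := lt_of_mul_lt_mul_left c6 (by linarith)
    omega

theorem movesC (m δ y0 z : ℕ) (u : ℕ → ℕ) (hm : 1 ≤ m) (hu : ∀ l, y0 ≤ u l ∧ u l ≤ y0 + 1)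
    (hz : z ≤ m * δ * y0 + y0) :
    ∃ X t, X ≤ m * δ ∧ t ≤ y0 ∧ z = ∑ l ∈ Icc 1 m, (X + l - 1) / m * u l + t ∧ y0 * X ≤ z ∧
      z ≤ (y0 + 1) * X + y0 := by
  obtain ⟨S, hS⟩ : ∃ S : ℕ → ℕ, ∀ X, S X = ∑ l ∈ Icc 1 m, (X + l - 1) / m * u l := ⟨_, fun _ => rfl⟩
  have h0 : S 0 = 0 := by
    rw [hS]
    refine sum_eq_zero fun l hl => ?_
    have := mem_Icc.1 hl
    rw [Nat.div_eq_of_lt (by omega), zero_mul]
  have h1 : ∀ X, S (X + 1) = S X + u (m - X % m) := fun X => by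
    have hX := Nat.mod_lt X hm
    have e : ∀ l ∈ Icc 1 m, (X + 1 + l - 1) / m * u l =
        (X + l - 1) / m * u l + if l = m - X % m then u l else 0 := fun l hl => by
      have hl' := mem_Icc.1 hl
      have c : m ∣ X + l - 1 + 1 ↔ l = m - X % m := by
        rw [show X + l - 1 + 1 = m * (X / m) + (X % m + l) by have := Nat.div_add_mod X m; omega,
          Nat.dvd_add_right (dvd_mul_right _ _)]
        constructor
        · rintro ⟨c, hc⟩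
          obtain rfl : c = 1 := by
            rcases c with _ | _ | c
            · omega
            · rfl
            · rw [mul_add, mul_add] at hc
              omega
          omega
        · intro hc
          exact ⟨1, by omega⟩
      rw [show X + 1 + l - 1 = X + l - 1 + 1 by omega, Nat.succ_div, add_mul]
      simp only [c, ite_mul, one_mul, zero_mul]
    rw [hS, hS, sum_congr rfl e, sum_add_distrib, sum_ite_eq', if_pos (mem_Icc.2 ⟨by omega, by omega⟩)]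
  have h2 : ∀ X, y0 * X ≤ S X ∧ S X ≤ (y0 + 1) * X := fun X => by
    induction X with
    | zero => simp [h0]
    | succ X ih =>
      have := hu (m - X % m)
      rw [h1, mul_add, mul_add]
      omega
  have h3 : ∀ n, S n ≤ z ∨ ∃ X < n, S X ≤ z ∧ z ≤ S X + y0 := fun n => by
    induction n with
    | zero => exact Or.inl (by omega)
    | succ n ih =>
      rcases ih with ih | ⟨X, c1, c2⟩
      · have := hu (m - n % m)
        have := h1 n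
        by_cases c : S (n + 1) ≤ z
        exacts [Or.inl c, Or.inr ⟨n, by omega, ih, by omega⟩]
      · exact Or.inr ⟨X, by omega, c2⟩
  obtain ⟨X, c1, c2, c3⟩ : ∃ X ≤ m * δ, S X ≤ z ∧ z ≤ S X + y0 := by
    rcases h3 (m * δ) with c | ⟨X, c1, c2⟩
    · have := (h2 (m * δ)).1
      rw [mul_comm] at this
      exact ⟨_, le_rfl, c, by omega⟩
    · exact ⟨X, c1.le, c2⟩
  have := h2 X
  exact ⟨X, z - S X, c1, by omega, by rw [← hS]; omega, by omega, by omega⟩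

end Pool.Agent.Work.MP_f4b644_ag.Sl
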