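import Pool.Agent.Work.MP_f4b644_ag.Sl.Defs

/-!
The degeneration with L levels. Copy the proof of `designA_span` (DesignA.lean) and the section Limits of Cert.lean,
with the third vector ∑ l ∈ range (L + 1), t ^ l • c l p in place of c₀ p + t • c₁ p + t ^ 2 • c₂ p, where
c 0 p = Pi.single p.1 1 and c l p = (cl p.1 l p.2 : ℂ) • Pi.single (p.1 - l) 1 for l ≥ 1;
a₀ θ p = θ (rhoB μ ε p), a₁ θ p = if p.2 = 2 ∧ ε (p.1 - μ) then θ (p.1 - μ, 0) else 0.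
Basic lemma: if tp (u₀ + t • u₁) v (∑ l ∈ range (n + 1), t ^ l • z l) ∈ S t for t ≠ 0 then tp u₀ v (z 0) ∈ Lim S
(IsPV by PF_add, PF_mul and induction, or one MvPolynomial). Pair at the level l ≤ L (c l' p = c l' q for l' < l):
z j = c (l + j) p - c (l + j) q, n = L - l, the curve is (t ^ l)⁻¹ times (B-fibre of p at b q minus A-fibre of q);
split the sum with `Finset.sum_range_add` or `Finset.range_eq_Ico`, `Finset.sum_Ico_consecutive`. sp5 is the same with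
l = 1, sp6, row, col, single as before.
-/

set_option autoImplicit false

namespace Pool.Agent.Work.MP_f4b644_ag.Sl

open Finset Classical

section Limits

variable {P α β γ : Type*}

/-- a polynomial curve -/
noncomputable def Lim_cv (n : ℕ) (z : ℕ → γ → ℂ) (t : ℂ) : γ → ℂ :=
  ∑ l ∈ range (n + 1), t ^ l • z l

theorem Lim_mem {S : ℂ → Submodule ℂ (α × β × γ → ℂ)} (u₀ u₁ : α → ℂ) (v : β → ℂ) (n : ℕ)
    (z : ℕ → γ → ℂ) (h : ∀ t : ℂ, t ≠ 0 → tp (u₀ + t • u₁) v (Lim_cv n z t) ∈ S t) :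
    tp u₀ v (z 0) ∈ Lim S := by
  refine ⟨fun t => tp (u₀ + t • u₁) v (Lim_cv n z t), fun m => ?_,
    by simp [Lim_cv, sum_range_succ'], h⟩
  refine mem_PF.2 ⟨(MvPolynomial.C (u₀ m.1) + MvPolynomial.X () * MvPolynomial.C (u₁ m.1)) *
    MvPolynomial.C (v m.2.1) * ∑ l ∈ range (n + 1),
      MvPolynomial.X () ^ l * MvPolynomial.C (z l m.2.2), fun x => ?_⟩
  simp [tp, Lim_cv]

theorem Lim_sub {L l : ℕ} (hl : l ≤ L) {z z' : ℕ → γ → ℂ} (h : ∀ j < l, z j = z' j) (t : ℂ) :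
    Lim_cv L z t = Lim_cv L z' t + t ^ l • Lim_cv (L - l) (fun j => z (l + j) - z' (l + j)) t := by
  unfold Lim_cv
  rw [show L + 1 = l + (L - l + 1) by omega, sum_range_add _ l, sum_range_add _ l,
    sum_congr rfl fun j hj => by rw [h j (mem_range.1 hj)], add_assoc, smul_sum, ← sum_add_distrib]
  refine congrArg _ (sum_congr rfl fun j _ => ?_)
  rw [smul_smul, ← pow_add, smul_sub, add_sub_cancel]

variable (L : ℕ) (s : Set P) (a₀ a₁ : P → α → ℂ) (b : P → β → ℂ) (c : P → ℕ → γ → ℂ)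

/-- the deformed configuration -/
noncomputable def Lim_S (t : ℂ) : Submodule ℂ (α × β × γ → ℂ) :=
  TS s (fun p => a₀ p + t • a₁ p) b (fun p => Lim_cv L (c p) t)

variable {s}

theorem Lim_row {p : P} (hp : p ∈ s) (f : β → ℂ) :
    tp (a₀ p) f (c p 0) ∈ Lim (Lim_S L s a₀ a₁ b c) :=
  Lim_mem _ (a₁ p) _ L (c p) fun _ _ => TS_mem2 hp f

theorem Lim_col {p : P} (hp : p ∈ s) (f : α → ℂ) :
    tp f (b p) (c p 0) ∈ Lim (Lim_S L s a₀ a₁ b c) :=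
  Lim_mem _ 0 _ L (c p) fun _ _ => TS_mem1 hp _

theorem Lim_single {p : P} (hp : p ∈ s) (f : γ → ℂ) :
    tp (a₀ p) (b p) f ∈ Lim (Lim_S L s a₀ a₁ b c) :=
  Lim_mem _ (a₁ p) _ 0 (fun _ => f) fun _ _ => TS_mem3 hp _

theorem Lim_pair {p q : P} (hp : p ∈ s) (hq : q ∈ s) {l : ℕ} (hl : l ≤ L)
    (h0 : ∀ j < l, c p j = c q j) :
    tp (a₀ p) (b q) (c p l - c q l) ∈ Lim (Lim_S L s a₀ a₁ b c) := by
  refine Lim_mem _ (a₁ p) _ (L - l) (fun j => c p (l + j) - c q (l + j)) fun t ht => ?_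
  have h := (Lim_S L s a₀ a₁ b c t).smul_mem (t ^ l)⁻¹ ((Lim_S L s a₀ a₁ b c t).sub_mem
    (TS_mem2 hp (b q)) (TS_mem1 hq (a₀ p + t • a₁ p)))
  refine Eq.mpr (congrArg (· ∈ Lim_S L s a₀ a₁ b c t) ?_) h
  funext n
  simp only [tp, Lim_sub hl h0, Pi.smul_apply, Pi.sub_apply, Pi.add_apply, smul_eq_mul]
  field_simp
  ring

theorem Lim_sp5 (hL : 1 ≤ L) {p q q' : P} (hp : p ∈ s) (hq : q ∈ s) (hq' : q' ∈ s)
    (e0 : a₀ p = a₀ q) (e1 : a₁ p = a₀ q') (e2 : a₁ q = 0) (e3 : a₁ q' = 0)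
    (h0 : c q 0 = c q' 0) :
    tp (a₀ q') (b p) (c q 1 - c q' 1) ∈ Lim (Lim_S L s a₀ a₁ b c) := by
  refine Lim_mem _ 0 _ (L - 1) (fun j => c q (1 + j) - c q' (1 + j)) fun t ht => ?_
  have h := (Lim_S L s a₀ a₁ b c t).smul_mem t⁻¹ ((Lim_S L s a₀ a₁ b c t).sub_mem
    ((Lim_S L s a₀ a₁ b c t).smul_mem t⁻¹ ((Lim_S L s a₀ a₁ b c t).sub_mem
      (TS_mem3 hp (Lim_cv L (c q) t)) (TS_mem2 hq (b p))))
    (TS_mem2 hq' (b p)))
  refine Eq.mpr (congrArg (· ∈ Lim_S L s a₀ a₁ b c t) ?_) h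
  have h1 : ∀ j < 1, c q j = c q' j := fun j hj => by rwa [show j = 0 by omega]
  funext n
  simp only [tp, Lim_sub hL h1, e0, e1, e2, e3, Pi.smul_apply, Pi.sub_apply, Pi.add_apply,
    smul_eq_mul, Pi.zero_apply]
  field_simp
  ring

theorem Lim_sp6 {p q q' : P} (hp : p ∈ s) (hq : q ∈ s)
    (e0 : a₀ p = a₀ q) (e1 : a₁ p = a₀ q') (e2 : a₁ q = 0) :
    tp (a₀ q') (b q) (c p 0) ∈ Lim (Lim_S L s a₀ a₁ b c) := by
  refine Lim_mem _ 0 _ L (c p) fun t ht => ?_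
  have h := (Lim_S L s a₀ a₁ b c t).smul_mem t⁻¹ ((Lim_S L s a₀ a₁ b c t).sub_mem
      (TS_mem2 hp (b q)) (TS_mem3 hq (Lim_cv L (c p) t)))
  refine Eq.mpr (congrArg (· ∈ Lim_S L s a₀ a₁ b c t) ?_) h
  funext n
  simp only [tp, e0, e1, e2, Pi.smul_apply, Pi.sub_apply, Pi.add_apply, smul_eq_mul,
    Pi.zero_apply]
  field_simp
  ring

end Limits

theorem designB_span {N : ℕ} [NeZero N] {R C : ℕ} (L : ℕ) (hL : 1 ≤ L) (μ : ZMod N) (y : ZMod N → ℕ)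
    (cl : ZMod N → ℕ → ℕ → ℕ) (ε : ZMod N → Prop) (hy : ∀ k, 3 ≤ y k) (hcl : ∀ k, cl k 1 0 ≠ cl k 1 1)
    (hcov : ∀ k, Cover (α := Fin R) C (rhoB μ ε '' (Gs y k : Set _)) (Gs y k : Set _) (EB L μ y cl ε k)) :
    Spans N R C (∑ k, y k) := by
  obtain ⟨node, hnode⟩ := exists_node N
  let a₀ : (ZMod N × ℕ → Fin R → ℂ) → ZMod N × ℕ → Fin R → ℂ := fun θ p => θ (rhoB μ ε p)
  let a₁ : (ZMod N × ℕ → Fin R → ℂ) → ZMod N × ℕ → Fin R → ℂ := fun θ p =>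
    if p.2 = 2 ∧ ε (p.1 - μ) then θ (p.1 - μ, 0) else 0
  let b : ZMod N × ℕ → Fin C → ℂ := fun q => vdm C (node q)
  let c : ZMod N × ℕ → ℕ → ZMod N → ℂ := fun p l =>
    if l = 0 then Pi.single p.1 1 else (cl p.1 l p.2 : ℂ) • Pi.single (p.1 - l) 1
  have hc : ∀ p l, 1 ≤ l → c p l = (cl p.1 l p.2 : ℂ) • Pi.single (p.1 - l) 1 :=
    fun p l h => if_neg (by omega)
  have hmem : ∀ {j : ZMod N} {i : ℕ}, i < y j → (j, i) ∈ (Pts y : Set (ZMod N × ℕ)) :=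
    fun h => mem_coe.2 (mem_Pts.2 h)
  obtain ⟨θ, hθ⟩ := cert node hnode
    (fun θ => Lim (Lim_S L (Pts y : Set (ZMod N × ℕ)) (a₀ θ) (a₁ θ) b c))
    (fun k => rhoB μ ε '' (Gs y k : Set _)) (fun k => (Gs y k : Set _)) (EB L μ y cl ε) (by
      rintro θ k _ ⟨⟨j, i⟩, hp, rfl⟩ f
      obtain ⟨rfl, hi⟩ := mem_Gs.1 (mem_coe.1 hp)
      exact Lim_row L (a₀ θ) (a₁ θ) b c (hmem hi) f) (by
      rintro θ k ⟨j, i⟩ hp f
      obtain ⟨rfl, hi⟩ := mem_Gs.1 (mem_coe.1 hp)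
      exact Lim_col L (a₀ θ) (a₁ θ) b c (hmem hi) f) (by
      rintro θ k v ⟨j, n⟩ ⟨hq, rfl | ⟨l, i, h1, h2, h3, hi, rfl, h4, h5⟩ | ⟨h1, rfl, h2⟩ |
        ⟨h1, rfl, h2⟩⟩
      · exact Lim_single L (a₀ θ) (a₁ θ) b c (hmem hq) _
      · dsimp only at h3 h4 h5 hi hq
        have := Lim_pair L (a₀ θ) (a₁ θ) b c (hmem hi) (hmem hq) h2 fun l' hl' => by
          rcases Nat.eq_zero_or_pos l' with rfl | h
          · rfl
          · rw [hc _ _ h, hc _ _ h, h4 l' h hl']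
        subst h3
        refine tp_smul_mem (x := (cl (k + l) l i : ℂ) - (cl (k + l) l n : ℂ))
          (sub_ne_zero.2 (by exact_mod_cast h5)) ?_
        simpa only [hc _ _ h1, add_sub_cancel_right, sub_smul] using this
      · obtain ⟨rfl, rfl⟩ := Prod.mk.inj h2
        have := Lim_sp5 L (a₀ θ) (a₁ θ) b c hL (p := (k + 1 + μ, 2)) (q := (k + 1, 1))
          (q' := (k + 1, 0)) (hmem hq) (hmem (by have := hy (k + 1); omega))
          (hmem (by have := hy (k + 1); omega)) (by simp [a₀, rhoB, h1])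
          (by simp [a₀, a₁, rhoB, h1]) (by simp [a₁]) (by simp [a₁]) rfl
        refine tp_smul_mem (x := (cl (k + 1) 1 1 : ℂ) - (cl (k + 1) 1 0 : ℂ))
          (sub_ne_zero.2 (by exact_mod_cast (hcl (k + 1)).symm)) ?_
        simpa [c, sub_smul, a₀, rhoB, b] using this
      · obtain ⟨rfl, rfl⟩ := Prod.mk.inj h2
        have := Lim_sp6 L (a₀ θ) (a₁ θ) b c (p := (k, 2)) (q := (k - μ, 1))
          (q' := (k - μ, 0)) (hmem (by have := hy k; omega)) (hmem hq)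
          (by simp [a₀, rhoB, h1]) (by simp [a₀, a₁, rhoB, h1]) (by simp [a₁])
        simpa [c, a₀, rhoB, b] using this) hcov
  obtain ⟨t, -, ht⟩ := exists_top_of_Lim _ hθ
  exact ⟨Pts y, _, _, _, card_Pts y, ht⟩

end Pool.Agent.Work.MP_f4b644_ag.Sl
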