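import Pool.Agent.Work.MP_f4b644_ag.Sl.CDefs
import Pool.Agent.Work.MP_f4b644_ag.Sl.Lim

/-!
The degeneration for tangents and fibres. Copy the proof of `designB_span` (Sl/Lim) without the gadget: apply
`cert` with L θ = Lim (fun t => (cfgC y Y).sp θ b (fun p => Lim_cv L (c p) t)), Rv k = Gs y k, Rc k = Gs Y k; use
`Lim_mem` (with u₁ = 0), `Lim_sub`, `Big.Cfg.memA`, `memB`, `memC`. A pair edge is (t ^ l)⁻¹ times the difference of
the B-fibre of the tangent v at b q and the A-fibre of q at θ v.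
-/

set_option autoImplicit false

namespace Pool.Agent.Work.MP_f4b644_ag.Sl

open Finset Classical

theorem CLim_mem {α β γ : Type} {S : ℂ → Submodule ℂ (α × β × γ → ℂ)} (u : α → ℂ) (v : β → ℂ)
    (n : ℕ) (z : ℕ → γ → ℂ) (h : ∀ t : ℂ, t ≠ 0 → tp u v (Lim_cv n z t) ∈ S t) :
    tp u v (z 0) ∈ Lim S :=
  Lim_mem u 0 v n z fun t ht => by simpa using h t ht

theorem CLim_pair {P α β γ : Type} {X : Big.Cfg P} (L : ℕ) (a : P → α → ℂ) (b : P → β → ℂ)
    (c : P → ℕ → γ → ℂ) {p q : P} (hp : (p, p) ∈ X.fB) (hq : (q, q) ∈ X.fA) {l : ℕ} (hl : l ≤ L)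
    (h0 : ∀ j < l, c p j = c q j) :
    tp (a p) (b q) (c p l - c q l) ∈ Lim fun t => X.sp a b fun p => Lim_cv L (c p) t := by
  refine CLim_mem _ _ (L - l) (fun j => c p (l + j) - c q (l + j)) fun t ht => ?_
  have h := (X.sp a b fun p => Lim_cv L (c p) t).smul_mem (t ^ l)⁻¹
    ((X.sp a b fun p => Lim_cv L (c p) t).sub_mem (Big.Cfg.memB hp (b q)) (Big.Cfg.memA hq (a p)))
  refine Eq.mpr (congrArg (· ∈ X.sp a b fun p => Lim_cv L (c p) t) ?_) h
  funext n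
  simp only [tp, Lim_sub hl h0, Pi.smul_apply, Pi.sub_apply, Pi.add_apply, smul_eq_mul]
  field_simp
  ring

theorem designC {N : ℕ} [NeZero N] {R C : ℕ} (L : ℕ) (y Y : ZMod N → ℕ) (cl : ZMod N → ℕ → ℕ → ℕ)
    (hcov : ∀ k, Cover (α := Fin R) C (Gs y k : Set _) (Gs Y k : Set _) (EC L y Y cl k)) :
    Big.Gen (Fin R) (Fin C) (ZMod N) (cfgC y Y) := by
  obtain ⟨node, hnode⟩ := exists_node N
  let b : ZMod N × ℕ → Fin C → ℂ := fun q => vdm C (node q)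
  let c : ZMod N × ℕ → ℕ → ZMod N → ℂ := fun p l =>
    if l = 0 then Pi.single p.1 1 else (cl p.1 l p.2 : ℂ) • Pi.single (p.1 - l) 1
  have hc : ∀ p l, 1 ≤ l → c p l = (cl p.1 l p.2 : ℂ) • Pi.single (p.1 - l) 1 :=
    fun p l h => if_neg (by omega)
  obtain ⟨θ, hθ⟩ := cert node hnode
    (fun θ => Lim fun t => (cfgC y Y).sp θ b fun p => Lim_cv L (c p) t)
    (fun k => (Gs y k : Set _)) (fun k => (Gs Y k : Set _)) (EC L y Y cl) (by
      rintro θ k ⟨j, i⟩ hp f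
      obtain ⟨rfl, hi⟩ := mem_Gs.1 (mem_coe.1 hp)
      exact CLim_mem _ _ L (c (j, i)) fun _ _ =>
        Big.Cfg.memB (X := cfgC y Y) (ia := (j, i)) (ic := (j, i)) ⟨rfl, hi⟩ f) (by
      rintro θ k ⟨j, i⟩ hp f
      obtain ⟨rfl, hi⟩ := mem_Gs.1 (mem_coe.1 hp)
      exact CLim_mem _ _ L (c (j, i)) fun _ _ =>
        Big.Cfg.memA (X := cfgC y Y) (ib := (j, i)) (ic := (j, i)) ⟨rfl, hi⟩ f) (by
      rintro θ k ⟨j', i⟩ ⟨j, n⟩ ⟨hq, ⟨h1, h2⟩ | ⟨l, h1, h2, h3, h6, hi, h4, h5⟩⟩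
      · rw [h1]
        exact CLim_mem _ _ 0 (fun _ => Pi.single k 1) fun _ _ =>
          Big.Cfg.memC (X := cfgC y Y) (ia := (j, n)) (ib := (j, n)) ⟨rfl, h2⟩ _
      · dsimp only at h3 h4 h5 h6 hi hq
        subst h6
        have := CLim_pair (X := cfgC y Y) L θ b c (p := (j', i)) (q := (j', n)) ⟨rfl, hi⟩ ⟨rfl, hq⟩
          h2 fun l' hl' => by
            rcases Nat.eq_zero_or_pos l' with rfl | h
            · rfl
            · rw [hc _ _ h, hc _ _ h, h4 l' h hl']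
        subst h3
        refine tp_smul_mem (x := (cl (k + l) l i : ℂ) - (cl (k + l) l n : ℂ))
          (sub_ne_zero.2 (by exact_mod_cast h5)) ?_
        simpa only [hc _ _ h1, add_sub_cancel_right, sub_smul] using this) hcov
  obtain ⟨t, -, ht⟩ := exists_top_of_Lim _ hθ
  exact ⟨_, _, _, ht⟩

end Pool.Agent.Work.MP_f4b644_ag.Sl
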