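import Pool.Agent.Work.MP_f4b644_ag.Sl.CSpan
import Pool.Agent.Work.MP_f4b644_ag.Sl.CBlk

/-!
Numerical conditions for blocks from the slice design.
-/

set_option autoImplicit false

namespace Pool.Agent.Work.MP_f4b644_ag.Sl

open Big Finset

/-- the common part: N slices, R rows, B tangents, groups of y0 or y0 + 1 tangents and Y0 or Y0 + 1 points,
at least c0 free columns -/
def SBk (N R B y0 Y0 c0 a m f δ bm : ℕ) : Prop :=
  a + 4 ≤ N ∧ 1 ≤ m ∧ m ≤ a ∧ a ≤ m + 1 ∧ 1 ≤ y0 ∧ 1 ≤ f ∧ y0 + 1 + (m - 1) * bm + 2 * f + δ ≤ Y0 ∧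
  Y0 + 3 + (a - m) + δ + (y0 + 2) / 2 ≤ y0 + f + (m - 1) * bm + (2 + (a - m)) * c0 ∧
  (a + 3) * B + 4 * N ≤ R * N ∧ δ + 3 ≤ c0 ∧ (y0 + 2) / 2 + f + (m + 1 - a) * δ + 1 ≤ c0 ∧
  (m ≤ 1 ∨ (δ ≤ bm ∧ bm + 1 ≤ c0))

/-- a block with arbitrary numbers of points -/
def SBg (N C R B r y0 Y0 c0 V a m f δ bm : ℕ) : Prop :=
  SBk N R B y0 Y0 c0 a m f δ bm ∧ Y0 + 1 ≤ C ∧ R + C + y0 + 2 * (y0 - c0) ≤ m * δ * y0 + 3 ∧
  (m ≤ 1 ∨ ((δ + bm + 1 ≤ c0 ∨
      N * (m * δ) + V + N + R * r ≤ N * (y0 * ((c0 - 1 - bm) * m + 1)) + R * (N * (Y0 + 1))) ∧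
    (δ + bm ≤ c0 ∨ N * (m * δ) + V + N + R * r ≤ N * (y0 * ((c0 - bm) * m + 1)) + R * (N * Y0))))

/-- N slices, C columns, R rows, B tangents, r points; a, m, f, δ, bm are hints -/
def SBc (N C R B r a m f δ bm : ℕ) : Prop :=
  SBg N C R B r (B / N) (r / N) (C - (r / N + 1))
    (bm * (N - 1) + (C - 2 + (B / N - (C - (r / N + 1))) - (m - 1) * bm) * (B % N) +
      (B / N - (C - (r / N + 1))) * (N - B % N) + 2 * N * (B / N)) a m f δ bm

/-- the same for a block with r + B = N C -/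
def STg (N C R B y0 a m f δ bm : ℕ) : Prop :=
  SBk N R B y0 (C - (y0 + 1)) y0 a m f δ bm ∧ C ≤ R + 2 ∧ R + 2 ≤ C + N ∧
  R + y0 ≤ m * δ * y0 + f + 2 * ((y0 + 1) / 2) ∧
  (m ≤ 1 ∨ ((δ + bm + 1 ≤ y0 ∨ m * δ + 2 * y0 < y0 * ((y0 - 1 - bm) * m + 1)) ∧
    (δ + bm ≤ y0 ∨ m * δ + R + 2 * y0 < y0 * ((y0 - bm) * m + 1) + f + 2 * ((y0 + 1) / 2))))

/-- N slices, C columns, R rows, B tangents, N C - B points -/
def STc (N C R B a m f δ bm : ℕ) : Prop := STg N C R B (B / N) a m f δ bm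

instance (N R B y0 Y0 c0 a m f δ bm : ℕ) : Decidable (SBk N R B y0 Y0 c0 a m f δ bm) := by
  unfold SBk; infer_instance

instance (N C R B r a m f δ bm : ℕ) : Decidable (SBc N C R B r a m f δ bm) := by
  unfold SBc SBg; infer_instance

instance (N C R B a m f δ bm : ℕ) : Decidable (STc N C R B a m f δ bm) := by
  unfold STc STg; infer_instance

theorem sum_wC (a m f y0 b1 bm bl β : ℕ) (h1 : 1 ≤ m) (h2 : m ≤ a) :
    ∑ l ∈ Icc 1 (a + 2), wC a m f y0 b1 bm bl β l = b1 + (m - 1) * bm + (a - m) * bl + β + 2 * f + 2 * y0 := by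
  have e1 : ∀ n, n ≤ m - 1 → ∑ l ∈ Icc 1 (n + 1), wC a m f y0 b1 bm bl β l = b1 + n * bm := by
    intro n hn
    induction n with
    | zero => simp [wC]
    | succ n ih =>
      rw [sum_Icc_succ_top (by omega), ih (by omega), wC, if_neg (by omega), if_pos (by omega)]
      ring
  have e2 : ∀ n, n ≤ a - m → ∑ l ∈ Icc 1 (m + n), wC a m f y0 b1 bm bl β l = b1 + (m - 1) * bm + n * bl := by
    intro n hn
    induction n with
    | zero =>
      have := e1 (m - 1) le_rfl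
      rw [show m - 1 + 1 = m by omega] at this
      simpa using this
    | succ n ih =>
      rw [← add_assoc, sum_Icc_succ_top (by omega), ih (by omega), wC, if_neg (by omega), if_neg (by omega),
        if_pos (by omega)]
      ring
  have e3 := e2 (a - m) le_rfl
  rw [show m + (a - m) = a by omega] at e3
  rw [sum_Icc_succ_top (by omega), sum_Icc_succ_top (by omega), e3, wC, wC, if_neg (by omega), if_neg (by omega),
    if_neg (by omega), if_pos rfl, if_neg (by omega), if_neg (by omega), if_neg (by omega), if_neg (by omega)]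
  omega

theorem SBk.data {N R B y0 Y0 c0 a m f δ bm : ℕ} (h : SBk N R B y0 Y0 c0 a m f δ bm) :
    ∃ F0 b1 bl β, Y0 = y0 + 1 + F0 ∧ b1 + (m - 1) * bm + (a - m) * bl + β + 2 * f = F0 ∧ δ ≤ b1 ∧
      b1 + 3 ≤ c0 ∧ (a ≤ m ∨ bl + δ + 1 ≤ c0) ∧ (y0 + 2) / 2 + f + β + (if m = a then δ else 0) + 1 ≤ c0 := by
  obtain ⟨-, -, h1, h2, -, -, h3, h4, -, h5, h6, -⟩ := h
  generalize (m - 1) * bm = w at h3 h4 ⊢
  obtain ⟨q, rfl⟩ : ∃ q, Y0 = y0 + 1 + (q + w + 2 * f) := ⟨Y0 - (y0 + 1 + w + 2 * f), by omega⟩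
  obtain rfl | rfl : a = m ∨ a = m + 1 := by omega
  · rw [Nat.sub_self] at h4
    rw [Nat.add_sub_cancel_left, one_mul] at h6
    exact ⟨_, min (c0 - 3) q, 0, q - min (c0 - 3) q, rfl, by omega, by omega, by omega, Or.inl le_rfl, by
      rw [if_pos rfl]; omega⟩
  · rw [Nat.add_sub_cancel_left] at h4
    rw [Nat.sub_self, zero_mul] at h6
    refine ⟨_, min (c0 - 3) q, min (c0 - 1 - δ) (q - min (c0 - 3) q),
      q - min (c0 - 3) q - min (c0 - 1 - δ) (q - min (c0 - 3) q), rfl, ?_, by omega, by omega,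
      Or.inr (by omega), by rw [if_neg (by omega)]; omega⟩
    rw [Nat.add_sub_cancel_left, one_mul]
    omega

theorem row_le {N R B n s : ℕ} (h1 : N * s < n * B + N) (h2 : n * B + 4 * N ≤ R * N) : s + 4 ≤ R := by
  have : N * (s + 3) < N * R := by nlinarith
  have := Nat.lt_of_mul_lt_mul_left this
  omega

theorem spanC {N C R B r a m f δ bm : ℕ} [NeZero N] (h : SBc N C R B r a m f δ bm)
    (hs : R * C * N + 2 * B ≤ R * r + (C + N) * B) : SpansC N R C B r := by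
  unfold SBc at h
  obtain ⟨y0, e1⟩ : ∃ y0, y0 = B / N := ⟨_, rfl⟩
  obtain ⟨Y0, e2⟩ : ∃ Y0, Y0 = r / N := ⟨_, rfl⟩
  rw [← e1, ← e2] at h
  obtain ⟨c0, e3⟩ : ∃ c0, c0 = C - (Y0 + 1) := ⟨_, rfl⟩
  rw [← e3] at h
  obtain ⟨hk, g1, g2, g3⟩ := h
  obtain ⟨F0, b1, bl, β, d1, d2, d3, d4, d5, d6⟩ := hk.data
  obtain ⟨k1, k2, k3, k4, k5, k6, -, -, k7, -, -, k8⟩ := hk
  have hR : y0 + 1 ≤ R := by
    have h1 : y0 * N ≤ B := e1 ▸ Nat.div_mul_le_self _ _
    have : (y0 + 1) * N ≤ R * N := by nlinarith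
    exact Nat.le_of_mul_le_mul_right this (by omega)
  obtain ⟨y, Y, z, sy, sY, hy, hY, hw, hz, hfl, hi⟩ := fluxC (N := N) (by omega) R C B r (a + 2) m bm y0 Y0 c0
    (wC a m f y0 b1 bm bl β) e1 e2 (by omega) k5 hR (by omega) hs (by rw [sum_wC _ _ _ _ _ _ _ _ k2 k3]; omega)
    (by omega) (fun l h1 h2 => by rw [wC, if_neg (by omega), if_pos h2])
  refine spanC_core y Y z k1 k2 k3 k4 k5 k6 (by omega) d1 d2 sy sY hy hY (fun k => row_le (hw k _) k7)
    (fun k => by have := hz k; omega) hfl (fun k => ?_) d3 k8 d4 d5 d6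
  rcases g3 with g3 | ⟨g3, g4⟩
  · exact Or.inl g3
  rcases k8 with k8 | k8
  · exact Or.inl k8
  right
  have hN : 0 < N := by omega
  have h1 := hi k
  generalize bm * (N - 1) + (C - 2 + (y0 - c0) - (m - 1) * bm) * (B % N) + (y0 - c0) * (N - B % N) +
    2 * N * y0 = V at g3 g4 h1
  obtain e | e : Y k = Y0 + 1 ∨ Y k = Y0 := by have := hY k; omega
  · rw [e] at h1 ⊢
    rw [show C - (Y0 + 1) - 1 - bm = c0 - 1 - bm by omega]
    refine g3.imp (fun h => by omega) fun h => Nat.lt_of_mul_lt_mul_left (a := N) ?_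
    rw [mul_add, mul_add]
    omega
  · rw [e] at h1 ⊢
    rw [show C - Y0 - 1 - bm = c0 - bm by omega]
    refine g4.imp (fun h => by omega) fun h => Nat.lt_of_mul_lt_mul_left (a := N) ?_
    rw [mul_add, mul_add]
    omega

theorem spanT {N C R B r a m f δ bm : ℕ} [NeZero N] (h : STc N C R B a m f δ bm) (hr : r + B = N * C) :
    SpansC N R C B r := by
  unfold STc at h
  obtain ⟨y0, e1⟩ : ∃ y0, y0 = B / N := ⟨_, rfl⟩
  rw [← e1] at h
  obtain ⟨hk, g0, g1, g2, g3⟩ := h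
  obtain ⟨Y0, e2⟩ : ∃ Y0, Y0 = C - (y0 + 1) := ⟨_, rfl⟩
  rw [← e2] at hk
  obtain ⟨F0, b1, bl, β, d1, d2, d3, d4, d5, d6⟩ := hk.data
  obtain ⟨k1, k2, k3, k4, k5, k6, -, -, k7, -, -, k8⟩ := hk
  obtain ⟨y, Y, z, sy, sY, hy, hY, hw, hz, hfl, hi⟩ := fluxT (N := N) (by omega) R C B (a + 2) (a + 1) y0 Y0
    (wC a m f y0 b1 bm bl β) e1 (by omega) k5 (by omega) g0 g1 (by rw [sum_wC _ _ _ _ _ _ _ _ k2 k3]; omega)
    (by omega) (by omega)
  have hw1 : wC a m f y0 b1 bm bl β (a + 1) = β + f + 2 * ((y0 + 1) / 2) := by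
    rw [wC, if_neg (by omega), if_neg (by omega), if_neg (by omega), if_pos rfl]
  rw [hw1] at hz
  refine spanC_core (c0 := y0) y Y z k1 k2 k3 k4 k5 k6 (by omega) d1 d2 sy (by omega) hy hY
    (fun k => row_le (hw k _) k7) (fun k => by have := hz k; omega) hfl (fun k => ?_) d3 k8 d4 d5 d6
  rcases g3 with g3 | ⟨g3, g4⟩
  · exact Or.inl g3
  rcases k8 with k8 | k8
  · exact Or.inl k8
  right
  obtain e | e : Y k = Y0 + 1 ∨ Y k = Y0 := by have := hY k; omega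
  · have h1 := hi k e
    rw [e, show C - (Y0 + 1) - 1 - bm = y0 - 1 - bm by omega]
    exact g3.imp (fun h => by omega) fun h => by omega
  · have h1 := hz (k + 1)
    rw [e, show C - Y0 - 1 - bm = y0 - bm by omega]
    exact g4.imp (fun h => by omega) fun h => by omega

/-- a block of width k with B tangents, slices along I or along J -/
theorem blk_SB {I J r k B a m f δ bm : ℕ} (h : SBc I J k B r a m f δ bm ∨ SBc J I k B r a m f δ bm)
    (hs : k * (I * J) + 2 * B ≤ k * r + (I + J) * B) : Blk I J r k B := by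
  rcases h with h | h
  · have : NeZero I := ⟨by have := h.1.1; omega⟩
    exact Blk_of_SpansC (spanC h (by nlinarith))
  · have : NeZero J := ⟨by have := h.1.1; omega⟩
    exact Blk_swap (Blk_of_SpansC (spanC h (by nlinarith)))

/-- a block with I J - r tangents -/
theorem blk_ST {I J r k B a m f δ bm : ℕ} (h : STc I J k B a m f δ bm ∨ STc J I k B a m f δ bm)
    (hr : r + B = I * J) : Blk I J r k B := by
  rcases h with h | h
  · have : NeZero I := ⟨by have := h.1.1; omega⟩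
    exact Blk_of_SpansC (spanT h hr)
  · have : NeZero J := ⟨by have := h.1.1; omega⟩
    exact Blk_swap (Blk_of_SpansC (spanT h (by rw [hr, mul_comm])))

/-- the last block of a root -/
theorem blk_last {I J r τ v L a m f δ bm : ℕ} (hτ : τ + 2 = I + J) (h0 : 1 ≤ τ) (hv : r + v = I * J)
    (h : SBc I J L ((L * v + (τ - 1)) / τ) r a m f δ bm ∨ SBc J I L ((L * v + (τ - 1)) / τ) r a m f δ bm) :
    Blk I J r L ((L * v + (τ - 1)) / τ) := by
  refine blk_SB h ?_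
  obtain ⟨σ, rfl⟩ : ∃ σ, τ = σ + 1 := ⟨τ - 1, by omega⟩
  have := le_cdiv (L * v) σ
  rw [Nat.add_sub_cancel, ← hτ, ← hv]
  nlinarith

end Pool.Agent.Work.MP_f4b644_ag.Sl
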