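import Pool.Agent.Work.MP_f4b644_ag.Sl.CDefs
import Pool.Agent.Work.MP_f4b644_ag.Sl.Tk

/-!
The numbers tk for the levels clC, for a tangent i < y; Y = y + 2 f + Θ, θ is monotone on [0, a], θ 0 = 0, θ a ≤ Θ.
For l ≤ a the class of i is 0 and Sep l i j ↔ y + 2 f + θ (l - 1) ≤ j < y + 2 f + θ l.
Sep (a + 1) i j ↔ (j < y + 2 f ∧ j % 2 ≠ i % 2) ∨ y + 2 f + θ a ≤ j.
At the levels a + 2, a + 3 only j < y + 2 f with j % 2 = i % 2 matter. Among them the class of i at the level a + 2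
is {i} if t ≤ i, and {i, p} if i < t, where p is the index with p % 2 = i % 2, p / 4 = i / 4, p ≠ i if that index is
< t, and otherwise the element of {y, y + 1} with the parity of i (then (t + 1 - i % 2) / 2 is odd and
(t + 1 - i % 2) / 4 = i / 4). All of this is `omega` after unfolding. The sums use `sum_par` or induction.
-/

set_option autoImplicit false

namespace Pool.Agent.Work.MP_f4b644_ag.Sl

open Finset

theorem CTk_mono {a : ℕ} {θ : ℕ → ℕ} (hm : ∀ l, l < a → θ l ≤ θ (l + 1)) {l l' : ℕ} (h : l ≤ l')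
    (h' : l' ≤ a) : θ l ≤ θ l' := by
  induction l', h using Nat.le_induction with
  | base => exact le_rfl
  | succ k _ ih => exact (ih (by omega)).trans (hm k (by omega))

theorem CTk_lo {a y f t : ℕ} {θ : ℕ → ℕ} {l : ℕ} (h : l ≤ a) (j : ℕ) :
    clC a y f t θ l j = if y + 2 * f ≤ j ∧ j < y + 2 * f + θ l then 1 else 0 := by
  rw [clC, if_pos h]

theorem CTk_a1 (a y f t : ℕ) (θ : ℕ → ℕ) (j : ℕ) :
    clC a y f t θ (a + 1) j = if y + 2 * f ≤ j then 2 else j % 2 := by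
  rw [clC, if_neg (by omega), if_pos rfl]

theorem CTk_a2 (a y f t : ℕ) (θ : ℕ → ℕ) (j : ℕ) :
    clC a y f t θ (a + 2) j = if j < t then j / 4 else
      if (j = y ∨ j = y + 1) ∧ (t + 1 - j % 2) / 2 % 2 = 1 then (t + 1 - j % 2) / 4 else j := by
  rw [clC, if_neg (by omega), if_neg (by omega), if_pos rfl]

theorem CTk_a3 (a y f t : ℕ) (θ : ℕ → ℕ) (j : ℕ) : clC a y f t θ (a + 3) j = j := by
  rw [clC, if_neg (by omega), if_neg (by omega), if_neg (by omega)]

theorem CTk_pre {a y f t : ℕ} {θ : ℕ → ℕ} (h0 : θ 0 = 0) (hm : ∀ l, l < a → θ l ≤ θ (l + 1))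
    {i : ℕ} (hi : i < y) {l : ℕ} (hl : l ≤ a) (j : ℕ) :
    (∀ l', 1 ≤ l' → l' < l + 1 → clC a y f t θ l' i = clC a y f t θ l' j) ↔
      ¬ (y + 2 * f ≤ j ∧ j < y + 2 * f + θ l) := by
  constructor
  · intro h hj
    have h1 : 1 ≤ l := by
      rcases Nat.eq_zero_or_pos l with rfl | h1
      · omega
      · exact h1
    have := h l h1 (by omega)
    rw [CTk_lo hl, CTk_lo hl, if_neg (by omega), if_pos hj] at this
    omega
  · intro h l' _ h2
    have := CTk_mono hm (show l' ≤ l by omega) hl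
    rw [CTk_lo (by omega), CTk_lo (by omega), if_neg (by omega), if_neg (by omega)]

theorem CTk_succ (cl : ℕ → ℕ → ℕ) {l : ℕ} (hl : 1 ≤ l) (i j : ℕ) :
    (∀ l', 1 ≤ l' → l' < l + 1 → cl l' i = cl l' j) ↔
      (∀ l', 1 ≤ l' → l' < l → cl l' i = cl l' j) ∧ cl l i = cl l j :=
  ⟨fun h => ⟨fun l' a b => h l' a (by omega), h l hl (by omega)⟩, fun h l' a b => by
    rcases Nat.lt_or_ge l' l with c | c
    · exact h.1 l' a c
    · rw [show l' = l by omega]
      exact h.2⟩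

theorem CTk_pre2 {a y f t : ℕ} {θ : ℕ → ℕ} (h0 : θ 0 = 0) (hm : ∀ l, l < a → θ l ≤ θ (l + 1))
    {i : ℕ} (hi : i < y) (j : ℕ) :
    (∀ l', 1 ≤ l' → l' < a + 2 → clC a y f t θ l' i = clC a y f t θ l' j) ↔
      j < y + 2 * f ∧ j % 2 = i % 2 := by
  rw [CTk_succ _ (by omega), CTk_pre h0 hm hi le_rfl, CTk_a1, CTk_a1, if_neg (by omega)]
  split_ifs <;> omega

theorem CTk_ico (u v Y : ℕ) (h : v ≤ Y) : ((range Y).filter fun j => u ≤ j ∧ j < v).card = v - u := by
  rw [← Nat.card_Ico]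
  congr 1
  ext j
  simp only [mem_filter, mem_range, mem_Ico]
  omega

theorem CTk_same (z Y i : ℕ) (h : z ≤ Y) :
    ((range Y).filter fun j => j < z ∧ j % 2 = i % 2).card = (z + 1 - i % 2) / 2 := by
  have := Tk_par (fun _ => True) z i
  rw [filter_true, card_range] at this
  rw [← this]
  congr 1
  ext j
  simp only [mem_filter, mem_range, and_true]
  omega

/-- the partner of a tangent -/
def CTk_p (y t i : ℕ) : ℕ :=
  if (if i % 4 < 2 then i + 2 else i - 2) < t then (if i % 4 < 2 then i + 2 else i - 2)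
  else if y % 2 = i % 2 then y else y + 1

theorem CTk_cls {a y f t : ℕ} {θ : ℕ → ℕ} (hf : 1 ≤ f) (ht : t ≤ y) {i : ℕ} (hi : i < y) (j : ℕ) :
    (j < y + 2 * f ∧ j % 2 = i % 2) ∧ clC a y f t θ (a + 2) i = clC a y f t θ (a + 2) j ↔
      j = i ∨ (i < t ∧ j = CTk_p y t i) := by
  rw [CTk_a2, CTk_a2, CTk_p]
  split_ifs <;> omega

theorem CTk_p_ne {y f t i : ℕ} (hf : 1 ≤ f) (ht : t ≤ y) (hi : i < y) :
    CTk_p y t i ≠ i ∧ CTk_p y t i < y + 2 * f := by
  rw [CTk_p]
  split_ifs <;> omega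

theorem CTk_one {Y p : ℕ} (h : p < Y) (c : Prop) [Decidable c] :
    ((range Y).filter fun j => c ∧ j = p).card = if c then 1 else 0 := by
  split_ifs with hc
  · rw [← card_singleton p]
    congr 1
    ext j
    simp only [mem_filter, mem_range, mem_singleton, hc, true_and]
    omega
  · simp [hc]

theorem CTk_ite {y t : ℕ} (ht : t ≤ y) : ∑ i ∈ range y, (if i < t then 1 else 0) = t := by
  rw [← card_filter]
  simpa using CTk_ico 0 t y ht

section
variable {a y f t Θ : ℕ} {θ : ℕ → ℕ} (hf : 1 ≤ f) (ht : t ≤ y) (h0 : θ 0 = 0)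
  (hm : ∀ l, l < a → θ l ≤ θ (l + 1)) (hΘ : θ a ≤ Θ)
include hf ht h0 hm hΘ

theorem tkC_batch (l i : ℕ) (h1 : 1 ≤ l) (h2 : l ≤ a) (hi : i < y) :
    tk (clC a y f t θ) (y + 2 * f + Θ) l i + θ (l - 1) = θ l := by
  obtain ⟨l, rfl⟩ : ∃ k, l = k + 1 := ⟨l - 1, by omega⟩
  have m1 := hm l (by omega)
  have m2 := CTk_mono hm h2 le_rfl
  rw [Tk_tk (Q := fun j => y + 2 * f + θ l ≤ j ∧ j < y + 2 * f + θ (l + 1)) fun j => by
    rw [Sep, CTk_pre h0 hm hi (by omega), CTk_lo h2, CTk_lo h2, if_neg (by omega)]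
    split_ifs <;> omega, CTk_ico _ _ _ (by omega), Nat.add_sub_cancel]
  omega

theorem tkC_par (i : ℕ) (hi : i < y) :
    tk (clC a y f t θ) (y + 2 * f + Θ) (a + 1) i + θ a = (y + i % 2) / 2 + f + Θ := by
  rw [Tk_tk (Q := fun j => (j < y + 2 * f ∧ j % 2 = (i + 1) % 2) ∨
      (y + 2 * f + θ a ≤ j ∧ y + 2 * f ≤ j)) fun j => by
    rw [Sep, CTk_pre h0 hm hi le_rfl, CTk_a1, CTk_a1, if_neg (by omega)]
    split_ifs <;> omega, filter_or, card_union_of_disjoint (by
      rw [disjoint_filter]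
      omega), CTk_same _ _ _ (by omega)]
  have : ((range (y + 2 * f + Θ)).filter fun j => y + 2 * f + θ a ≤ j ∧ y + 2 * f ≤ j).card =
      y + 2 * f + Θ - (y + 2 * f + θ a) := by
    rw [← CTk_ico _ _ _ le_rfl]
    congr 1
    ext j
    simp only [mem_filter, mem_range]
    omega
  omega

theorem tkC_side (i : ℕ) (hi : i < y) :
    tk (clC a y f t θ) (y + 2 * f + Θ) (a + 2) i + 1 + (if i < t then 1 else 0) = (y + 1 - i % 2) / 2 + f := by
  have h1 := card_filter_add_card_filter_not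
    (s := (range (y + 2 * f + Θ)).filter fun j => j < y + 2 * f ∧ j % 2 = i % 2)
    fun j => clC a y f t θ (a + 2) i = clC a y f t θ (a + 2) j
  have h2 := CTk_p_ne hf ht hi
  rw [CTk_same _ _ _ (by omega), filter_filter, filter_filter,
    filter_congr fun j _ => CTk_cls (a := a) (θ := θ) hf ht hi j, filter_or,
    card_union_of_disjoint (by
      rw [disjoint_filter]
      omega), CTk_one (by omega), filter_eq', if_pos (mem_range.2 (by omega)), card_singleton] at h1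
  rw [Tk_tk (Q := fun j => (j < y + 2 * f ∧ j % 2 = i % 2) ∧
      ¬ clC a y f t θ (a + 2) i = clC a y f t θ (a + 2) j) fun j => by
    rw [Sep, CTk_pre2 h0 hm hi]]
  omega

theorem tkC_last (i : ℕ) (hi : i < y) :
    tk (clC a y f t θ) (y + 2 * f + Θ) (a + 3) i = if i < t then 1 else 0 := by
  have h2 := CTk_p_ne hf ht hi
  rw [Tk_tk (Q := fun j => i < t ∧ j = CTk_p y t i) fun j => by
    rw [Sep, CTk_succ _ (by omega), CTk_pre2 h0 hm hi, CTk_cls hf ht hi, CTk_a3, CTk_a3]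
    omega, CTk_one (by omega)]

theorem sumC_par : ∑ i ∈ range y, tk (clC a y f t θ) (y + 2 * f + Θ) (a + 1) i + y * θ a =
    2 * ((y + 1) / 2 * (y / 2)) + y * f + y * Θ := by
  have k := sum_congr (s₁ := range y) rfl fun i hi => tkC_par hf ht h0 hm hΘ i (mem_range.1 hi)
  rw [sum_add_distrib, sum_add_distrib, sum_add_distrib, Tk_sum fun b _ => (y + b) / 2] at k
  simp only [sum_const, card_range, smul_eq_mul, add_zero] at k
  rw [k]
  ring

theorem sumC_side : ∑ i ∈ range y, tk (clC a y f t θ) (y + 2 * f + Θ) (a + 2) i + y + t =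
    (y + 1) / 2 * ((y + 1) / 2) + y / 2 * (y / 2) + y * f := by
  have k := sum_congr (s₁ := range y) rfl fun i hi => tkC_side hf ht h0 hm hΘ i (mem_range.1 hi)
  rw [sum_add_distrib, sum_add_distrib, sum_add_distrib, Tk_sum fun b _ => (y + 1 - b) / 2,
    CTk_ite ht] at k
  simpa only [sum_const, card_range, smul_eq_mul, mul_one, Nat.sub_zero, Nat.add_sub_cancel] using k

theorem sumC_last : ∑ i ∈ range y, tk (clC a y f t θ) (y + 2 * f + Θ) (a + 3) i = t := by
  rw [sum_congr rfl fun i hi => tkC_last hf ht h0 hm hΘ i (mem_range.1 hi), CTk_ite ht]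

end

theorem clC_ne (a y f t : ℕ) (θ : ℕ → ℕ) (i i' : ℕ) (hi : i < y) (hi' : i' < y) (h : i ≠ i')
    (h4 : i % 4 = i' % 4) : clC a y f t θ (a + 2) i ≠ clC a y f t θ (a + 2) i' := by
  rw [CTk_a2, CTk_a2]
  split_ifs <;> omega

end Pool.Agent.Work.MP_f4b644_ag.Sl
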