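import Pool.Agent.Work.MP_f4b644_ag.Sl.CLim
import Pool.Agent.Work.MP_f4b644_ag.Sl.CCover
import Pool.Agent.Work.MP_f4b644_ag.Sl.CTk
import Pool.Agent.Work.MP_f4b644_ag.Sl.CFlux

/-!
The design for blocks, L = a + 3. For every slice k take X k, t k from `movesC` with u l = y (k + l), z = z k; put
x k l = (X k + l - 1) / m for 1 ≤ l ≤ m and 0 otherwise, so x k l ≤ δ. With b l = wC … l for 1 ≤ l ≤ a,
D g = Y g + y0 + 1 - Y0 - y g ≤ 2, the group g has θ g 0 = 0, θ g l = ∑ l' ∈ Icc 1 l, b l' + D g - x (g - l) l,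
Θ g = ∑ l' ∈ Icc 1 a, b l' + β + D g, so Y g = y g + 2 f + Θ g (hb: the sum is b1 + (m - 1) bm + (a - m) bl), and
cl g = clC a (y g) f (t (g - (a + 2))) (θ g). It may be easier to define the increments
e g l = b l + [l = 1] D g + x (g - l + 1) (l - 1) - x (g - l) l (no truncation since x ≤ δ ≤ b l for l ≤ m) and θ as
their sums. Apply `designC` and `coverC` with ρ l i = o l + i for l ≤ a + 2, ρ (a + 3) i = o (a + 3) + i % 4,
o l = ∑ l' ∈ Ico 1 l, y (k + l'). The blocks of rows of different levels are disjoint intervals, so for a given row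
only one level contributes to hload, with one vertex for l ≤ a + 2 and at most (y0 + 4) / 4 vertices of load ≤ 2 for
l = a + 3 (2 ((y0 + 4) / 4) ≤ c0 by u3). hinj for l = a + 3 is `clC_ne`. Loads (C - Y k ≥ c0): l = 1: b1 + 2 + 1;
2 ≤ l ≤ m: bm + x (k + 1) (l - 1) - x k l + 1 ≤ C - Y k by hinc: with s = C - Y k - 1 - bm either δ ≤ s, or
y0 X (k + 1) ≤ z (k + 1) < z k + y0 (s m + 1) - m δ ≤ y0 (X k + s m + 2), so X (k + 1) ≤ X k + s m + 1 and
(X (k + 1) + l - 2) / m ≤ (X k + l - 1) / m + s; m < l ≤ a: bl + δ + 1; l = a + 1: (y0 + 2) / 2 + f + β + x (k + 1) a + 1;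
l = a + 2: (y0 + 2) / 2 + f.
htot: the sum over l ≤ a is ∑ y (k + l) e (k + l) l; ∑ l ∈ Icc 1 m, x k l y (k + l) + t k = z k; the terms
y (k + l) x (k + 1) (l - 1), 2 ≤ l ≤ a + 1, add up to z (k + 1) - t (k + 1); for y ∈ {y0, y0 + 1}:
2 ((y + 1) / 2) (y / 2) = 2 ((y0 + 1) / 2) (y - y0) + 2 ((y0 + 1) / 2) (y0 / 2) and
((y + 1) / 2) ^ 2 + (y / 2) ^ 2 - y = 2 (y0 / 2) (y - y0) + ((y0 + 1) / 2) ^ 2 + (y0 / 2) ^ 2 - y0 (cases on the
parity of y0). The total is ∑ w l y (k + l) - y0 y0 - y0 + y (k + 1) D (k + 1) - z k + z (k + 1), then hfl.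
-/

set_option autoImplicit false

namespace Pool.Agent.Work.MP_f4b644_ag.Sl

open Finset Classical

theorem CSpan_icc (F : ℕ → ℕ) (n : ℕ) : ∑ l ∈ Icc 1 n, F l = ∑ l ∈ range n, F (l + 1) := by
  induction n with
  | zero => simp
  | succ n ih => rw [sum_Icc_succ_top (by omega), sum_range_succ, ih]

theorem CSpan_sq {y0 u v : ℕ} (hu : y0 ≤ u ∧ u ≤ y0 + 1) (hv : y0 ≤ v ∧ v ≤ y0 + 1) :
    2 * ((u + 1) / 2 * (u / 2)) + ((v + 1) / 2 * ((v + 1) / 2) + v / 2 * (v / 2)) + y0 * y0 + y0 =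
      2 * ((y0 + 1) / 2) * u + 2 * (y0 / 2) * v + v := by
  have e1 : ∀ q : ℕ, 2 * q / 2 = q := fun q => by omega
  have e2 : ∀ q : ℕ, (2 * q + 1) / 2 = q := fun q => by omega
  have e3 : ∀ q : ℕ, (2 * q + 1 + 1) / 2 = q + 1 := fun q => by omega
  have e4 : ∀ q : ℕ, (2 * q + 1 + 1 + 1) / 2 = q + 1 := fun q => by omega
  obtain ⟨q, rfl | rfl⟩ := Nat.even_or_odd' y0 <;>
    rcases Nat.le_and_le_add_one_iff.1 hu with rfl | rfl <;>
    rcases Nat.le_and_le_add_one_iff.1 hv with rfl | rfl <;> simp only [e1, e2, e3, e4] <;> ring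

theorem CSpan_one {s : Finset ℕ} {G : ℕ → ℕ} {c : ℕ} (h1 : ∀ l ∈ s, G l ≤ c)
    (h2 : ∀ l ∈ s, ∀ l' ∈ s, G l ≠ 0 → G l' ≠ 0 → l = l') : ∑ l ∈ s, G l ≤ c := by
  by_cases h : ∃ l ∈ s, G l ≠ 0
  · obtain ⟨l, a, b⟩ := h
    rw [sum_eq_single_of_mem l a fun l' a' e => not_not.1 fun b' => e (h2 l' a' l a b' b)]
    exact h1 l a
  · rw [sum_eq_zero fun l a => not_not.1 fun b => h ⟨l, a, b⟩]
    exact Nat.zero_le _

theorem CSpan_le {y B n : ℕ} (p : ℕ → Prop) [DecidablePred p] (g φ : ℕ → ℕ)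
    (hg : ∀ i < y, g i ≤ B) (h1 : ∀ i < y, p i → φ i < n)
    (h2 : ∀ i j, p i → p j → φ i = φ j → i = j) : ∑ i ∈ (range y).filter p, g i ≤ n * B := by
  have h3 : ∑ i ∈ (range y).filter p, g i ≤ ((range y).filter p).card • B :=
    sum_le_card_nsmul _ _ _ fun i hi => hg i (mem_range.1 (mem_filter.1 hi).1)
  have h4 : ((range y).filter p).card ≤ (range n).card := card_le_card_of_injOn φ
    (fun i hi => mem_coe.2 (mem_range.2 (h1 i (mem_range.1 (mem_filter.1 hi).1) (mem_filter.1 hi).2)))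
    fun i hi j hj => h2 i j (mem_filter.1 hi).2 (mem_filter.1 hj).2
  rw [card_range] at h4
  exact h3.trans (Nat.mul_le_mul_right _ h4)

theorem CSpan_b {a m b1 bm bl : ℕ} (hm1 : 1 ≤ m) (hm2 : m ≤ a) :
    ∑ l ∈ Icc 1 a, (if l = 1 then b1 else if l ≤ m then bm else bl) =
      b1 + (m - 1) * bm + (a - m) * bl := by
  induction a, hm2 using Nat.le_induction with
  | base =>
    have : ∀ n, 1 ≤ n → n ≤ m → ∑ l ∈ Icc 1 n, (if l = 1 then b1 else if l ≤ m then bm else bl) =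
        b1 + (n - 1) * bm := fun n h => by
      induction n, h using Nat.le_induction with
      | base => simp
      | succ n h ih =>
        intro e
        rw [sum_Icc_succ_top (by omega), ih (by omega), if_neg (by omega), if_pos e,
          show n + 1 - 1 = n - 1 + 1 by omega]
        ring
    rw [this m hm1 le_rfl]
    simp
  | succ a h ih =>
    rw [sum_Icc_succ_top (by omega), ih, if_neg (by omega), if_neg (by omega),
      show a + 1 - m = a - m + 1 by omega]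
    ring

theorem CSpan_inc {m δ y0 s X X' z z' l : ℕ} (hm : 1 ≤ m) (hl : 2 ≤ l) (h1 : X ≤ m * δ)
    (h2 : y0 * X' ≤ z') (h3 : z ≤ (y0 + 1) * X + y0) (h4 : z' + m * δ < z + y0 * (s * m + 1)) :
    (X' + (l - 1) - 1) / m ≤ (X + l - 1) / m + s := by
  have h5 : X' < X + s * m + 2 := Nat.lt_of_mul_lt_mul_left (a := y0) (by nlinarith)
  rw [← Nat.add_mul_div_right _ _ hm]
  exact Nat.div_le_div_right (by omega)

theorem CSpan_cl {N : ℕ} {a f β : ℕ} (b : ℕ → ℕ) (y Y D t : ZMod N → ℕ) (x : ZMod N → ℕ → ℕ)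
    (hf : 1 ≤ f) (ha : 1 ≤ a) (x0 : ∀ k, x k 0 = 0) (xb : ∀ k l, 1 ≤ l → x k l ≤ b l)
    (ht : ∀ k j, t k ≤ y j) (hY : ∀ g, Y g = y g + 2 * f + (∑ l ∈ Icc 1 a, b l + β + D g)) :
    ∃ cl : ZMod N → ℕ → ℕ → ℕ, (∀ g i i', i < y g → i' < y g → i ≠ i' → i % 4 = i' % 4 →
        cl g (a + 2) i ≠ cl g (a + 2) i') ∧ ∀ k,
      (∀ l i : ℕ, 1 ≤ l → l ≤ a → i < y (k + l) → tk (cl (k + l)) (Y (k + l)) l i + x k l =
        b l + (if l = 1 then D (k + 1) else 0) + x (k + 1) (l - 1)) ∧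
      (∀ g, g = k + (a + 1 : ℕ) → (∀ i < y g, tk (cl g) (Y g) (a + 1) i =
          (y g + i % 2) / 2 + f + β + x (k + 1) a) ∧
        ∑ i ∈ range (y g), tk (cl g) (Y g) (a + 1) i =
          2 * ((y g + 1) / 2 * (y g / 2)) + y g * f + y g * β + y g * x (k + 1) a) ∧
      (∀ g, g = k + (a + 2 : ℕ) → (∀ i < y g, tk (cl g) (Y g) (a + 2) i + 1 ≤ (y g + 1) / 2 + f) ∧
        ∑ i ∈ range (y g), tk (cl g) (Y g) (a + 2) i + y g + t k =
          (y g + 1) / 2 * ((y g + 1) / 2) + y g / 2 * (y g / 2) + y g * f) ∧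
      ∀ g, g = k + (a + 3 : ℕ) → (∀ i < y g, tk (cl g) (Y g) (a + 3) i ≤ 1) ∧
        ∑ i ∈ range (y g), tk (cl g) (Y g) (a + 3) i = t (k + 1) := by
  obtain ⟨θ, h0, h1⟩ : ∃ θ : ZMod N → ℕ → ℕ, (∀ g, θ g 0 = 0) ∧
      ∀ g (l : ℕ), 1 ≤ l → θ g l + x (g - l) l = ∑ l' ∈ Icc 1 l, b l' + D g := by
    refine ⟨fun g l => if l = 0 then 0 else ∑ l' ∈ Icc 1 l, b l' + D g - x (g - l) l,
      fun _ => if_pos rfl, fun g l h => ?_⟩
    have := (xb (g - l) l h).trans
      (single_le_sum (fun i _ => Nat.zero_le (b i)) (mem_Icc.2 ⟨h, le_rfl⟩))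
    simp only [if_neg (by omega : l ≠ 0)]
    omega
  have h2 : ∀ g (l : ℕ), θ g (l + 1) + x (g - (l + 1 : ℕ)) (l + 1) =
      θ g l + b (l + 1) + (if l + 1 = 1 then D g else 0) + x (g - l) l := fun g l => by
    rw [h1 g _ (by omega), sum_Icc_succ_top (by omega)]
    rcases Nat.eq_zero_or_pos l with rfl | h
    · simp [h0, x0]
    · have := h1 g l h
      rw [if_neg (by omega)]
      omega
  have hm : ∀ g l, l < a → θ g l ≤ θ g (l + 1) := fun g l _ => by
    have := h2 g l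
    have := xb (g - (l + 1 : ℕ)) (l + 1) (by omega)
    omega
  have hΘ : ∀ g, θ g a ≤ ∑ l ∈ Icc 1 a, b l + β + D g := fun g => by
    have := h1 g a ha
    omega
  refine ⟨fun g => clC a (y g) f (t (g - (a + 2 : ℕ))) (θ g), fun g => clC_ne _ _ _ _ _,
    fun k => ⟨fun l i l1 l2 hi => ?_, fun g e => ?_, fun g e => ?_, fun g e => ?_⟩⟩
  · obtain ⟨l, rfl⟩ : ∃ j, l = j + 1 := ⟨l - 1, by omega⟩
    have a1 := tkC_batch hf (ht (k + (l + 1 : ℕ) - (a + 2 : ℕ)) _) (h0 (k + (l + 1 : ℕ))) (hm _)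
      (hΘ _) _ i l1 l2 hi
    have a2 := h2 (k + (l + 1 : ℕ)) l
    rw [add_sub_cancel_right, show k + (l + 1 : ℕ) - l = k + 1 by push_cast; ring] at a2
    rw [← hY, Nat.add_sub_cancel] at a1
    rw [Nat.add_sub_cancel]
    rcases Nat.eq_zero_or_pos l with rfl | h
    · simp only [zero_add, Nat.cast_one, if_true] at a1 a2 ⊢
      omega
    · rw [if_neg (by omega)] at a2 ⊢
      simp only
      omega
  · have a2 := h1 g a ha
    rw [show g - a = k + 1 by rw [e]; push_cast; ring] at a2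
    refine ⟨fun i hi => ?_, ?_⟩
    · have a1 := tkC_par hf (ht (g - (a + 2 : ℕ)) g) (h0 g) (hm g) (hΘ g) i hi
      rw [← hY] at a1
      simp only
      omega
    · have a1 := sumC_par hf (ht (g - (a + 2 : ℕ)) g) (h0 g) (hm g) (hΘ g)
      have a3 := congrArg (y g * ·) a2
      rw [← hY] at a1
      simp only [mul_add] at a1 a3 ⊢
      omega
  · refine ⟨fun i hi => ?_, ?_⟩
    · have a1 := tkC_side hf (ht (g - (a + 2 : ℕ)) g) (h0 g) (hm g) (hΘ g) i hi
      rw [← hY] at a1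
      simp only
      omega
    · have a1 := sumC_side hf (ht (g - (a + 2 : ℕ)) g) (h0 g) (hm g) (hΘ g)
      rw [← hY] at a1
      rwa [← show g - (a + 2 : ℕ) = k by rw [e, add_sub_cancel_right]]
  · refine ⟨fun i hi => ?_, ?_⟩
    · have a1 := tkC_last hf (ht (g - (a + 2 : ℕ)) g) (h0 g) (hm g) (hΘ g) i hi
      rw [← hY] at a1
      simp only [a1]
      split_ifs <;> omega
    · have a1 := sumC_last hf (ht (g - (a + 2 : ℕ)) g) (h0 g) (hm g) (hΘ g)
      rw [← hY] at a1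
      rwa [← show g - (a + 2 : ℕ) = k + 1 by rw [e]; push_cast; ring]

theorem spanC_core {N : ℕ} [NeZero N] {R C B r y0 Y0 c0 F0 a m f δ b1 bm bl β : ℕ} (y Y z : ZMod N → ℕ)
    (hN : a + 4 ≤ N) (hm1 : 1 ≤ m) (hm2 : m ≤ a) (hm3 : a ≤ m + 1) (hy0 : 1 ≤ y0) (hf : 1 ≤ f)
    (hC : C = Y0 + 1 + c0) (hF : Y0 = y0 + 1 + F0) (hb : b1 + (m - 1) * bm + (a - m) * bl + β + 2 * f = F0)
    (sy : ∑ k, y k = B) (sY : ∑ k, Y k = r) (hy : ∀ k, y0 ≤ y k ∧ y k ≤ y0 + 1)
    (hY : ∀ k, Y0 ≤ Y k ∧ Y k ≤ Y0 + 1) (hrow : ∀ k, ∑ l ∈ range (a + 3), y (k + l) + 4 ≤ R)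
    (hz : ∀ k, z k ≤ m * δ * y0 + y0) (hfl : FlC R C B (a + 2) y0 Y0 (wC a m f y0 b1 bm bl β) y Y z)
    (hinc : ∀ k, m ≤ 1 ∨ δ ≤ C - Y k - 1 - bm ∨
      z (k + 1) + m * δ < z k + y0 * ((C - Y k - 1 - bm) * m + 1))
    (l1 : δ ≤ b1) (l2 : m ≤ 1 ∨ (δ ≤ bm ∧ bm + 1 ≤ c0)) (u1 : b1 + 3 ≤ c0) (u2 : a ≤ m ∨ bl + δ + 1 ≤ c0)
    (u3 : (y0 + 2) / 2 + f + β + (if m = a then δ else 0) + 1 ≤ c0) : SpansC N R C B r := by
  choose X t m1 m2 m3 m4 m5 using fun k =>
    movesC m δ y0 (z k) (fun l => y (k + l)) hm1 (fun l => hy _) (hz k)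
  obtain ⟨x, x1, x2⟩ : ∃ x : ZMod N → ℕ → ℕ, (∀ k l, 1 ≤ l → l ≤ m → x k l = (X k + l - 1) / m) ∧
      ∀ k l, l = 0 ∨ m < l → x k l = 0 :=
    ⟨fun k l => if 1 ≤ l ∧ l ≤ m then (X k + l - 1) / m else 0, fun k l h h' => if_pos ⟨h, h'⟩,
      fun k l h => if_neg (by omega)⟩
  have xd : ∀ k l, x k l ≤ δ := fun k l => by
    by_cases h : 1 ≤ l ∧ l ≤ m
    · rw [x1 k l h.1 h.2]
      have := m1 k
      exact Nat.le_of_lt_succ ((Nat.div_lt_iff_lt_mul hm1).2 (by rw [Nat.succ_mul, mul_comm δ]; omega))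
    · rw [x2 k l (by omega)]
      exact Nat.zero_le _
  obtain ⟨b, hb0⟩ : ∃ b : ℕ → ℕ, b = fun l => if l = 1 then b1 else if l ≤ m then bm else bl := ⟨_, rfl⟩
  have sb : ∑ l ∈ Icc 1 a, b l = b1 + (m - 1) * bm + (a - m) * bl := hb0 ▸ CSpan_b hm1 hm2
  have eY : ∀ g, Y g = y g + 2 * f + (∑ l ∈ Icc 1 a, b l + β + (Y g + y0 + 1 - Y0 - y g)) := fun g => by
    have := hy g
    have := hY g
    omega
  obtain ⟨cl, ne, hT⟩ := CSpan_cl b y Y (fun g => Y g + y0 + 1 - Y0 - y g) t x hf (hm1.trans hm2)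
    (fun k => x2 k 0 (.inl rfl)) (fun k l h => by
      have := xd k l
      have := x2 k l
      simp only [hb0]
      split_ifs <;> omega) (fun k j => (m2 k).trans (hy j).1) eY
  have yY : ∀ g, y g ≤ Y g := fun g => by
    have := eY g
    omega
  have px : ∀ k, ∑ l ∈ range a, x k (l + 1) * y (k + (l + 1 : ℕ)) + t k = z k := fun k => by
    rw [m3 k, ← CSpan_icc fun l => x k l * y (k + l), ← sum_subset (Icc_subset_Icc_right hm2)
      fun l h h' => by rw [x2 k l (by simp only [mem_Icc] at h h'; omega), zero_mul]]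
    exact congrArg (· + t k) (sum_congr rfl fun l h => by rw [x1 k l (mem_Icc.1 h).1 (mem_Icc.1 h).2])
  refine ⟨y, Y, sy, sY, yY, designC (a + 3) y Y cl fun k => ?_⟩
  obtain ⟨t1, t2, t3, t4⟩ := hT k
  obtain ⟨O, O1, O2, O3, O4⟩ : ∃ O : ℕ → ℕ, (∀ l : ℕ, O (l + 1) = O l + y (k + l)) ∧ Monotone O ∧
      O 1 = y k ∧ O (a + 3) + 4 ≤ R :=
    ⟨fun l => ∑ l' ∈ range l, y (k + l'), fun l => sum_range_succ _ _,
      fun l l' h => sum_le_sum_of_subset (range_mono h), by simp, hrow k⟩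
  have O5 : ∀ l, 1 ≤ l → y k ≤ O l := fun l h => O3 ▸ O2 h
  refine coverC (a + 3) hN y Y cl k yY (by have := O5 (a + 3); omega)
    (fun l i => O l - y k + if l = a + 3 then i % 4 else i) (fun l i h1 h2 hi => ?_)
    (fun l i i' h1 h2 hi hi' e e' => ?_) (fun row => ?_) ?_
  · have := O5 l h1
    have := O1 l
    have := @O2 (l + 1) (a + 3)
    split_ifs with h
    · subst h
      omega
    · omega
  · split_ifs at e' with h
    · subst h
      exact ⟨a + 2, by omega, by omega, ne _ i i' hi hi' e (by omega)⟩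
    · omega
  · have hYk := hY k
    refine add_le_of_le_tsub_left_of_le (by omega) (CSpan_one (fun l hl => ?_) fun l hl l' hl' g g' => ?_)
    · obtain ⟨h1, h2⟩ := mem_Icc.1 hl
      by_cases h : l = a + 3
      · subst h
        refine (CSpan_le (B := 2) (n := (y0 + 4) / 4) _ _ (· / 4)
          (fun i hi => Nat.succ_le_succ ((t4 _ rfl).1 i hi)) (fun i hi _ => ?_) fun i j p q e => ?_).trans
          (by omega)
        · have := hy (k + (a + 3 : ℕ))
          omega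
        · simp only [if_true] at p q e
          omega
      refine (CSpan_le (B := C - Y k) (n := 1) _ _ (fun _ => 0) (fun i hi => ?_) (fun _ _ _ => one_pos)
        fun i j p q _ => ?_).trans (one_mul _).le
      · have := hy (k + l)
        by_cases c : l ≤ a
        · have e := t1 l i h1 c hi
          have := xd (k + 1) (l - 1)
          have := hy (k + 1)
          have := hY (k + 1)
          simp only [hb0] at e
          split_ifs at e with c1 c2
          · have := x2 (k + 1) (l - 1)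
            omega
          · rcases hinc k with c3 | c3 | c3
            · omega
            · omega
            · have := CSpan_inc hm1 (by omega : 2 ≤ l) (m1 k) (m4 (k + 1)) (m5 k) c3
              rw [← x1 k l h1 c2, ← x1 (k + 1) (l - 1) (by omega) (by omega)] at this
              omega
          · omega
        by_cases c1 : l = a + 1
        · subst c1
          have := (t2 _ rfl).1 i hi
          have := xd (k + 1) a
          have := x2 (k + 1) a
          split_ifs at u3 <;> omega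
        · obtain rfl : l = a + 2 := by omega
          have := (t3 _ rfl).1 i hi
          omega
      · simp only [if_neg h] at p q
        omega
    · have key : ∀ l ∈ Icc 1 (a + 3), ∑ i ∈ (range (y (k + l))).filter
          (fun i => O l - y k + (if l = a + 3 then i % 4 else i) = row),
          (tk (cl (k + l)) (Y (k + l)) l i + 1) ≠ 0 → O l ≤ row + y k ∧ row + y k < O (l + 1) :=
        fun l hl g => by
          obtain ⟨i, hi, -⟩ := exists_ne_zero_of_sum_ne_zero g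
          obtain ⟨i1, i2⟩ := mem_filter.1 hi
          have := mem_range.1 i1
          have := O5 l (mem_Icc.1 hl).1
          have := O1 l
          split_ifs at i2 <;> omega
      have := key l hl g
      have := key l' hl' g'
      have := @O2 (l + 1) l'
      have := @O2 (l' + 1) l
      omega
  · have v := hfl k
    have p0 := px k
    have p1 := px (k + 1)
    have a2 := (t2 _ rfl).2
    have a3 := (t3 _ rfl).2
    have a4 := (t4 _ rfl).2
    have q := CSpan_sq (hy (k + (a + 1 : ℕ))) (hy (k + (a + 2 : ℕ)))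
    have s1 : ∑ l ∈ range (a + 1), x (k + 1) l * y (k + (l + 1 : ℕ)) =
        ∑ l ∈ range a, x (k + 1) (l + 1) * y (k + 1 + (l + 1 : ℕ)) := by
      rw [sum_range_succ', x2 _ 0 (.inl rfl), zero_mul, add_zero]
      exact sum_congr rfl fun l _ => by congr 2; push_cast; ring
    have s2 : ∑ l ∈ Icc 1 a, ∑ i ∈ range (y (k + l)), tk (cl (k + l)) (Y (k + l)) l i +
        ∑ l ∈ Icc 1 a, x k l * y (k + l) = ∑ l ∈ Icc 1 a, wC a m f y0 b1 bm bl β l * y (k + l) +
        ∑ l ∈ Icc 1 a, (if l = 1 then y (k + 1) * (Y (k + 1) + y0 + 1 - Y0 - y (k + 1)) else 0) +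
        ∑ l ∈ Icc 1 a, x (k + 1) (l - 1) * y (k + l) := by
      simp only [← sum_add_distrib]
      refine sum_congr rfl fun l hl => ?_
      obtain ⟨h1, h2⟩ := mem_Icc.1 hl
      have := sum_congr rfl fun i hi => t1 l i h1 h2 (mem_range.1 hi)
      simp only [sum_add_distrib, sum_const, card_range, smul_eq_mul] at this
      rw [mul_comm (x k l), this, hb0, wC, if_pos h2, mul_comm (y (k + l)), mul_comm (x _ _)]
      congr 2
      split_ifs with c
      · rw [c, Nat.cast_one]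
      · rfl
    rw [sum_ite_eq', if_pos (mem_Icc.2 ⟨le_rfl, hm1.trans hm2⟩), CSpan_icc fun l => x k l * y (k + l),
      CSpan_icc fun l => x (k + 1) (l - 1) * y (k + l)] at s2
    rw [sum_range_succ] at s1
    simp only [Nat.add_sub_cancel] at s2
    rw [sum_Icc_succ_top (by omega), sum_Icc_succ_top (by omega), wC, wC, if_neg (by omega),
      if_neg (by omega), if_neg (by omega), if_pos rfl, if_neg (by omega), if_neg (by omega),
      if_neg (by omega), if_neg (by omega), add_mul, add_mul, add_mul] at v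
    rw [sum_Icc_succ_top (by omega), sum_Icc_succ_top (by omega), sum_Icc_succ_top (by omega), sy]
    simp only [mul_comm (y _) f, mul_comm (y _) β, mul_comm (y _) (x _ _)] at a2 a3
    simp only [add_assoc a, Nat.reduceAdd] at v ⊢
    omega

end Pool.Agent.Work.MP_f4b644_ag.Sl
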