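import Pool.Agent.Work.MP_f4b644_ag.ArithA

/-!
Slices along the smallest factor. There are N slices (indexed by ZMod N), R rows and C columns. The points of the
group g are (g, i), i < y g. The third vector of (g, i) is e g + ∑ over 1 ≤ l ≤ L of t ^ l (cl g l i) e (g - l), so
the pair i, j of the group g gives an edge in the slice g - l, where l is the first level that separates i and j.
This generalises DesignA, CoverA, ArithA (the case L = 2 with a different shift of the parity gadget).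
-/

set_option autoImplicit false

namespace Pool.Agent.Work.MP_f4b644_ag.Sl

open Finset Classical

/-- `i` and `j` are separated for the first time at the level `l` -/
def Sep (cl : ℕ → ℕ → ℕ) (l i j : ℕ) : Prop :=
  (∀ l', 1 ≤ l' → l' < l → cl l' i = cl l' j) ∧ cl l i ≠ cl l j

/-- the number of `j < y` separated from `i` at the level `l` -/
noncomputable def tk (cl : ℕ → ℕ → ℕ) (y l i : ℕ) : ℕ :=
  ((range y).filter (fun j => Sep cl l i j)).card

/-- the parameter index carrying the limit of the first vector of `p` -/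
noncomputable def rhoB {N : ℕ} (μ : ZMod N) (ε : ZMod N → Prop) (p : ZMod N × ℕ) : ZMod N × ℕ :=
  if p.2 = 2 ∧ ε (p.1 - μ) then (p.1 - μ, 1) else p

/-- edges available in the slice `k` -/
def EB {N : ℕ} (L : ℕ) (μ : ZMod N) (y : ZMod N → ℕ) (cl : ZMod N → ℕ → ℕ → ℕ) (ε : ZMod N → Prop)
    (k : ZMod N) (v q : ZMod N × ℕ) : Prop :=
  q.2 < y q.1 ∧ (v = rhoB μ ε q ∨
    (∃ l i : ℕ, 1 ≤ l ∧ l ≤ L ∧ q.1 = k + (l : ZMod N) ∧ i < y q.1 ∧ v = rhoB μ ε (q.1, i) ∧
      Sep (cl q.1) l i q.2) ∨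
    (ε (k + 1) ∧ v = (k + 1, 0) ∧ q = (k + 1 + μ, 2)) ∨
    (ε (k - μ) ∧ v = (k - μ, 0) ∧ q = (k - μ, 1)))

/-- every number of pairs is realised by few points in cliques of size at most `κ` -/
def Tab (κ c : ℕ) : Prop :=
  ∀ R : ℕ, ∃ l : List ℕ, (∀ x ∈ l, x ≤ κ) ∧ (l.map (fun x => x * (x - 1))).sum = 2 * R ∧
    (κ - 1) * l.sum ≤ 2 * R + c

/-- the waste of the greedy decomposition -/
def cT (κ : ℕ) : ℕ := max (max (7 * κ - 17) (13 * κ - 53)) (17 * κ - 105)

/-- spanning of `ℂ^R ⊗ ℂ^C ⊗ ℂ^N` by the tangent spaces at `s` points -/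
def Spans (N R C s : ℕ) : Prop :=
  ∃ (P : Finset (ZMod N × ℕ)) (a : ZMod N × ℕ → Fin R → ℂ) (b : ZMod N × ℕ → Fin C → ℂ)
    (c : ZMod N × ℕ → ZMod N → ℂ), P.card = s ∧ TS (P : Set (ZMod N × ℕ)) a b c = ⊤

/-- levels of the design with two levels -/
def cl0 (f : ℕ → ℕ) (l i : ℕ) : ℕ := if l = 1 then f i else i

/-- levels of the design with three levels -/
def cl1 (f : ℕ → ℕ → ℕ) (l i : ℕ) : ℕ := if l = 1 then i % 2 else if l = 2 then f (i % 2) (i / 2) else i

end Pool.Agent.Work.MP_f4b644_ag.Sl
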