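import Pool.Agent.Work.MP_f4b644_ag.Sl.Auto

/-!
The block conditions without residues, in the form used by the box checker.
-/

set_option autoImplicit false

namespace Pool.Agent.Work.MP_f4b644_ag.Sl

/-- N slices, C columns, R rows, B tangents, r points; hints a, e, f, d, s -/
def SBf (N C R B r a e f d s : ℕ) : Prop :=
  ∃ y0 Y0 c0 m h bm w ng V : ℕ,
    y0 = B / N ∧ Y0 = r / N ∧ c0 = C - (Y0 + 1) ∧ m = a - e ∧ h = (y0 + 2) / 2 ∧ bm = c0 - (s + 1) ∧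
    w = (m - 1) * bm ∧ ng = y0 - c0 ∧ V = bm + (c0 - y0) + ng + (Y0 - (w + 1)) + 3 * y0 ∧
    a + 4 ≤ N ∧ e ≤ 1 ∧ e + 1 ≤ a ∧ 1 ≤ y0 ∧ 1 ≤ f ∧ y0 + 1 + w + 2 * f + d ≤ Y0 ∧
    Y0 + 3 + e + d + h ≤ y0 + f + w + (2 + e) * c0 ∧ (a + 3) * B + 4 * N ≤ R * N ∧ d + 3 ≤ c0 ∧
    h + f + (1 - e) * d + 1 ≤ c0 ∧ R + C + y0 + 2 * ng ≤ m * d * y0 + 3 ∧
    (m ≤ 1 ∨ (d + s + 1 ≤ c0 ∧ (d ≤ s ∨ m * d + V + 1 ≤ y0 * (s * m + 1)) ∧
      (d ≤ s + 1 ∨ m * d + V + R + 1 ≤ y0 * ((s + 1) * m + 1))))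

/-- the same for r + B = N C -/
def STf (N C R B a e f d s : ℕ) : Prop :=
  ∃ y0 Y0 m h bm w u : ℕ,
    y0 = B / N ∧ Y0 = C - (y0 + 1) ∧ m = a - e ∧ h = (y0 + 2) / 2 ∧ bm = y0 - (s + 1) ∧
    w = (m - 1) * bm ∧ u = f + 2 * ((y0 + 1) / 2) ∧
    a + 4 ≤ N ∧ e ≤ 1 ∧ e + 1 ≤ a ∧ 1 ≤ f ∧ y0 + 1 + w + 2 * f + d ≤ Y0 ∧
    Y0 + 3 + e + d + h ≤ y0 + f + w + (2 + e) * y0 ∧ (a + 3) * B + 4 * N ≤ R * N ∧ d + 3 ≤ y0 ∧
    h + f + (1 - e) * d + 1 ≤ y0 ∧ C ≤ R + 2 ∧ R + 2 ≤ C + N ∧ R + y0 ≤ m * d * y0 + u ∧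
    (m ≤ 1 ∨ (d + s + 1 ≤ y0 ∧ (d ≤ s ∨ m * d + 2 * y0 + 1 ≤ y0 * (s * m + 1)) ∧
      (d ≤ s + 1 ∨ m * d + R + 2 * y0 + 1 ≤ y0 * ((s + 1) * m + 1) + u)))

theorem Free_sub {c s d bm : ℕ} (e : bm = c - (s + 1)) (h : d + s + 1 ≤ c) :
    c - 1 - bm = s ∧ c - bm = s + 1 ∧ bm + s + 1 = c := by omega

theorem Free_lev {a e m : ℕ} (e1 : m = a - e) (h1 : e ≤ 1) (h2 : e + 1 ≤ a) :
    a - m = e ∧ m + 1 - a = 1 - e ∧ 1 ≤ m ∧ m ≤ a ∧ a ≤ m + 1 := by omega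

theorem STf.stc {N C R B a e f d s : ℕ} (H : STf N C R B a e f d s) :
    STc N C R B a (a - e) f d (B / N - (s + 1)) := by
  obtain ⟨y0, Y0, m, h, bm, w, u, e1, e2, e3, rfl, e5, e6, rfl, c1, c2, c3, c4, c5, c6, c7, c8, c9, c10, c11,
    c12, c13⟩ := H
  obtain ⟨l1, l2, l3, l4, l5⟩ := Free_lev e3 c2 c3
  unfold STc STg SBk
  rw [← e1, ← e2, ← e3, ← e5, ← e6, l1, l2]
  refine ⟨⟨c1, l3, l4, l5, (Nat.le_add_left 1 (d + 2)).trans c8, c4, c5, c6, c7, c8, c9,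
    c13.imp_right fun h => ?_⟩, c10, c11, by rwa [add_assoc], c13.imp_right fun ⟨h1, h2, h3⟩ => ?_⟩
  · have b := (Free_sub e5 h.1).2.2
    have := h.1
    clear * - this b
    omega
  · obtain ⟨b1, b2, b3⟩ := Free_sub e5 h1
    rw [b1, b2, add_assoc _ f]
    refine ⟨h2.imp (fun g => ?_) id, h3.imp (fun g => ?_) id⟩ <;>
    · clear * - g b3
      omega

theorem SBf.sbc {N C R B r a e f d s : ℕ} (H : SBf N C R B r a e f d s) :
    SBc N C R B r a (a - e) f d (C - (r / N + 1) - (s + 1)) := by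
  obtain ⟨y0, Y0, c0, m, h, bm, w, ng, V, e1, e2, e3, e4, rfl, e5, e6, e7, e8, c1, c2, c3, c4, c5, c6, c7, c8, c9,
    c10, c11, c12⟩ := H
  obtain ⟨l1, l2, l3, l4, l5⟩ := Free_lev e4 c2 c3
  have hC : C = Y0 + 1 + c0 := by
    clear * - e3 c9
    omega
  unfold SBc SBg SBk
  rw [← e1, ← e2, ← e3, ← e4, ← e5, ← e6, ← e7, l1, l2]
  refine ⟨⟨c1, l3, l4, l5, c4, c5, c6, c7, c8, c9, c10, c12.imp_right fun h => ?_⟩,
    hC ▸ Nat.le_add_right _ _, c11, c12.imp_right fun ⟨h5, h6, h7⟩ => ?_⟩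
  · have b := (Free_sub e5 h.1).2.2
    have := h.1
    clear * - this b
    omega
  obtain ⟨b1, b2, b3⟩ := Free_sub e5 h5
  have hN : 0 < N := by
    clear * - c1
    omega
  have h1 : B % N ≤ N := (Nat.mod_lt B hN).le
  have h2 : r ≤ N * (Y0 + 1) := by
    rw [e2]
    exact (Nat.lt_mul_div_succ r hN).le
  have h3 : R * r ≤ R * (N * (Y0 + 1)) := Nat.mul_le_mul_left _ h2
  have h4 : bm * (N - 1) + (C - 2 + ng - w) * (B % N) + ng * (N - B % N) + 2 * N * y0 ≤ N * V := by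
    have a1 : bm * (N - 1) ≤ bm * N := Nat.mul_le_mul_left _ (Nat.sub_le _ _)
    have a2 : (C - 2 + ng - w) * (B % N) ≤ (c0 - y0 + (Y0 - (w + 1)) + y0) * N :=
      Nat.mul_le_mul (by clear * - hC e7 c6; omega) h1
    have a3 : ng * (N - B % N) ≤ ng * N := Nat.mul_le_mul_left _ (Nat.sub_le _ _)
    rw [e8]
    simp only [add_mul, mul_comm N] at a2 ⊢
    clear * - a1 a2 a3
    linarith
  generalize bm * (N - 1) + (C - 2 + ng - w) * (B % N) + ng * (N - B % N) + 2 * N * y0 = W at h4 ⊢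
  rw [b1, b2]
  refine ⟨h6.imp (fun g => ?_) fun g => ?_, h7.imp (fun g => ?_) fun g => ?_⟩
  · clear * - g b3
    omega
  · have := Nat.mul_le_mul_left N g
    rw [mul_add, mul_add] at this
    clear * - this h3 h4
    omega
  · clear * - g b3
    omega
  · have := Nat.mul_le_mul_left N g
    rw [mul_add, mul_add, mul_add, mul_comm N R] at this
    rw [mul_add N, mul_add R, mul_one] at h3
    clear * - this h3 h4
    omega

theorem blkF_STf {m J ω f0 r a e f d s : ℕ} (hJ : 1 ≤ J) (hr : r + (J + m + ω) = (m + 2) * J)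
    (h : STf (m + 2) J (J + m) (J + m + ω) a e f d s ∨ STf J (m + 2) (J + m) (J + m + ω) a e f d s) :
    Mid.BlkF m J ω (J + m) f0 := by
  rcases h with h | h
  · exact blkF_ST hJ hr (Or.inl h.stc)
  · exact blkF_ST hJ hr (Or.inr h.stc)

theorem blkF_SBf {m J ω L B f0 r a e f d s : ℕ} (hJ : 1 ≤ J) (hr : r + (J + m + ω) = (m + 2) * J)
    (hB : B = L + (ω * L + (J + m - 1)) / (J + m))
    (h : SBf (m + 2) J L B r a e f d s ∨ SBf J (m + 2) L B r a e f d s) : Mid.BlkF m J ω L f0 := by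
  have e1 : B = (L * (J + m + ω) + (J + m - 1)) / (J + m) := by
    rw [show L * (J + m + ω) + (J + m - 1) = ω * L + (J + m - 1) + L * (J + m) by ring,
      Nat.add_mul_div_right _ _ (by omega), add_comm, hB]
  rcases h with h | h
  · exact blkF_SB hJ hr e1 (Or.inl h.sbc)
  · exact blkF_SB hJ hr e1 (Or.inr h.sbc)

end Pool.Agent.Work.MP_f4b644_ag.Sl
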