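import Pool.Agent.Work.MP_f4b644_ag.Sl.Lim
import Pool.Agent.Work.MP_f4b644_ag.Sl.Cover
import Pool.Agent.Work.MP_f4b644_ag.Sl.Flux
import Pool.Agent.Work.MP_f4b644_ag.Sl.Cls
import Pool.Agent.Work.MP_f4b644_ag.Sl.Tk

/-!
The design with two levels (L = 2); model: the end of `spanA` in ArithA.lean. y0 = s / N, y' = y0 + 1, κ ≥ 2 by hP.
Take y, z from `flux2`; for every g take cls g, pos g from `exists_cls` with o = 1, P = y0 - 1, R = z (g - 1) / 2
(2 R ≤ R + C - 2); cl g = cl0 (cls g), ε k = (z k % 2 = 1). Apply `designB_span` and `coverB` with L = 2,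
dr j = j.val % (R - y') (`card_mod_le2`), ρ l i = i in the first case and ρ 1 i = i, ρ 2 i = y' + pos (k + 2) i in the
second. Expand the sums over Icc 1 2 (for instance `show Icc 1 2 = {1, 2} by decide`, `sum_pair`, `Nat.cast_one`,
`Nat.cast_ofNat`). Loads: tk 1 ≤ y' - 1 (`tk0_1`, `one_le_cs`), tk 2 ≤ κ - 1 (`tk0_2`, `cs_le`); a filter ρ l i = row
with injective ρ l has at most one element; in the second case a row < y' has load ≤ y' + (y' + 1) + 2 D and a row
y' + p has load ≤ y' + (y' + 3) + 2 D (`sum_cs_pos`, at most three i < 3). htot: `sum_tk0` for the groups k + 1 and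
k + 2 and the inequality of `flux2` (z k = 2 (z k / 2) + z k % 2).
-/

set_option autoImplicit false

namespace Pool.Agent.Work.MP_f4b644_ag.Sl

open Finset Classical

theorem Span0_id (y row b : ℕ) (F : ℕ → ℕ) (h : ∀ i < y, F i ≤ b) :
    ∑ i ∈ (range y).filter (fun i => i = row), F i ≤ if row < y then b else 0 := by
  rw [filter_eq']
  by_cases k : row < y
  · rw [if_pos (mem_range.2 k), if_pos k, sum_singleton]
    exact h row k
  · rw [if_neg (mt mem_range.1 k), if_neg k, sum_empty]

theorem Span0_pos (cls pos : ℕ → ℕ) (h1 : ∀ i j, cls i = cls j → pos i = pos j → i = j)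
    (y a row : ℕ) : ∑ i ∈ (range y).filter (fun i => a + pos i = row),
      (tk (cl0 cls) y 2 i + 1 + if i < 3 then 1 else 0) ≤ if row < a then 0 else y + 3 := by
  split_ifs with k
  · rw [filter_false_of_mem fun i _ => by omega, sum_empty]
  rw [filter_congr (q := fun i => pos i = row - a) fun i _ => by omega, sum_add_distrib,
    sum_congr rfl fun i hi => tk0_2 cls y i (mem_range.1 (mem_filter.1 hi).1)]
  refine add_le_add (sum_cs_pos cls pos h1 y _) ?_
  rw [← card_filter]
  exact (card_le_card fun i hi => mem_range.2 (mem_filter.1 hi).2).trans (card_range 3).le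

theorem span0 {N : ℕ} [NeZero N] {R C s κ c D : ℕ} (hT : Tab κ c) (hN : 6 ≤ N)
    (hs : R * C * N + 2 * s ≤ s * (R + C + N)) (h3 : 3 ≤ s / N)
    (hP : R + C + c < (κ - 1) * (s / N) + 2) (hR : 2 * (s / N + 1) ≤ R) (hD : N ≤ D * (R - (s / N + 1)))
    (hm : 2 * (s / N + 1) + κ + 2 + 2 * D ≤ C ∨
      (2 * (s / N + 1) + κ ≤ R ∧ 2 * (s / N + 1) + 3 + 2 * D ≤ C)) : Spans N R C s := by
  generalize hy0 : s / N = y0 at h3 hP hR hD hm
  have hκ : 2 ≤ κ := by
    by_contra k
    rw [show κ - 1 = 0 by omega] at hP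
    omega
  obtain ⟨y, z, hsum, hy, hz, hf⟩ := flux2 (N := N) (by omega) R C s hs (by omega) (by omega)
    (by omega)
  rw [hy0] at hy
  choose cls pos c1 c2 c3 c4 using fun g : ZMod N => exists_cls hT hκ 1 (y0 - 1) (z (g - 1) / 2) (by
    have := hz (g - 1)
    rw [show y0 - 1 + 1 = y0 by omega]
    omega)
  have y3 : ∀ k, 3 ≤ y k := fun k => h3.trans (hy k).1
  have e12 : Icc 1 2 = ({1, 2} : Finset ℕ) := by decide
  rw [← hsum]
  refine designB_span 2 (by omega) ((2 + 1 : ℕ) : ZMod N) y (fun g => cl0 (cls g))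
    (fun k => z k % 2 = 1) y3 (fun k e => absurd (c3 k 0 1 one_pos e.symm) one_ne_zero) fun k => ?_
  have t0 := hy k
  have t1 := hy (k + 1)
  have t2 := hy (k + 2)
  have key : ∀ r : ℕ → ℕ, (∀ i < y (k + 2), r i + y0 + 1 < R) →
      (∀ i j, r i = r j → cls (k + 2) i = cls (k + 2) j → i = j) →
      (∀ row, (if row < y (k + 1) then y0 + 2 else 0) +
        ∑ i ∈ (range (y (k + 2))).filter (fun i => r i = row),
          (tk (cl0 (cls (k + 2))) (y (k + 2)) 2 i + 1 + if i < 3 then 1 else 0) +
            (y0 + 1 + 2 * D) ≤ C) →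
      Cover (α := Fin R) C (rhoB ((2 + 1 : ℕ) : ZMod N) (fun k => z k % 2 = 1) '' (Gs y k : Set _))
        (Gs y k : Set _) (EB 2 ((2 + 1 : ℕ) : ZMod N) y (fun g => cl0 (cls g))
          (fun k => z k % 2 = 1) k) := by
    intro r r1 r2 r3
    refine coverB 2 (by omega) (by omega) y _ _ k y3 (fun l i => if l = 1 then i else r i)
      (fun j => j.val % (R - (y0 + 1))) (fun l i l1 l2 hi => ?_) (fun j => ?_)
      (fun l i j l1 l2 hi hj ij e => ?_) (fun row => ?_) ?_
    · obtain rfl | rfl : l = 1 ∨ l = 2 := by omega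
      · rw [Nat.cast_one] at hi
        rw [if_pos rfl]
        omega
      · have := r1 i hi
        rw [if_neg (by omega)]
        omega
    · have := Nat.mod_lt j.val (show 0 < R - (y0 + 1) by omega)
      omega
    · obtain rfl | rfl : l = 1 ∨ l = 2 := by omega
      · exact (ij e).elim
      · exact ⟨1, le_rfl, one_lt_two, fun e' => ij (r2 i j e e')⟩
    · have a1 := r3 row
      have a2 := card_mod_le2 N (R - (y0 + 1)) D row hD
      have a3 := Span0_id (y (k + 1)) row (y0 + 2) (fun i =>
        tk (cl0 (cls (k + 1))) (y (k + 1)) 1 i + 1 + if i < 3 then 1 else 0) fun i hi => by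
          have := tk0_1 (cls (k + 1)) (y (k + 1)) i
          have := one_le_cs (cls (k + 1)) (y (k + 1)) i hi
          split_ifs <;> omega
      rw [e12, sum_pair (by omega)]
      simp only [Nat.cast_one, Nat.cast_ofNat, if_true, OfNat.ofNat_ne_one, if_false]
      omega
    · have a1 := (sum_tk0 _ _ _ (c4 (k + 1) (y (k + 1)) (by omega))).1
      have a2 := (sum_tk0 _ _ _ (c4 (k + 2) (y (k + 2)) (by omega))).2
      have a3 := hf k
      rw [add_sub_cancel_right] at a1
      rw [show k + 2 - 1 = k + 1 by ring] at a2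
      rw [e12, sum_pair (by omega), hsum]
      simp only [Nat.cast_one, Nat.cast_ofNat]
      generalize (R - y k) * (C - y k) = w1 at a3 ⊢
      generalize y (k + 1) * y (k + 1) = w2 at a1 a3
      split_ifs <;> omega
  rcases hm with hm | hm
  · refine key id (fun i hi => by change i + y0 + 1 < R; omega) (fun i j e _ => e) fun row => ?_
    have := Span0_id (y (k + 2)) row (κ + 1) (fun i =>
      tk (cl0 (cls (k + 2))) (y (k + 2)) 2 i + 1 + if i < 3 then 1 else 0) fun i hi => by
        have := tk0_2 (cls (k + 2)) (y (k + 2)) i hi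
        have := cs_le _ _ κ (c1 (k + 2)) (c2 (k + 2)) (y (k + 2)) i
        split_ifs <;> omega
    simp only [id]
    split_ifs at this ⊢ <;> omega
  · refine key (fun i => y0 + 1 + pos (k + 2) i) (fun i _ => by have := c2 (k + 2) i; omega)
      (fun i j e e' => c1 _ i j e' (by omega)) fun row => ?_
    have := Span0_pos _ _ (c1 (k + 2)) (y (k + 2)) (y0 + 1) row
    split_ifs at this ⊢ <;> omega

end Pool.Agent.Work.MP_f4b644_ag.Sl
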